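import Mathlib

namespace Pool.Agent.Helper24Reg

open Finset

section ring
variable {A : Type*} [Ring A]

/-- First variation of the power map: `Q1 x E m = ∑ x^i E x^(m-1-i)`. -/
def Q1 (x E : A) : ℕ → A
  | 0 => 0
  | k + 1 => Q1 x E k * x + x ^ k * E

@[simp] theorem Q1_zero (x E : A) : Q1 x E 0 = 0 := rfl
theorem Q1_succ (x E : A) (k : ℕ) : Q1 x E (k + 1) = Q1 x E k * x + x ^ k * E := rfl

theorem var_pow (q : ℕ) (N E : A) (k : ℕ) :
    ∃ Z : A, (N + q * E) ^ k = N ^ k + q * Q1 N E k + (q : A) ^ 2 * Z := by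
  induction k with
  | zero => exact ⟨0, by simp⟩
  | succ k ih =>
    obtain ⟨Z, hZ⟩ := ih
    refine ⟨Q1 N E k * E + Z * (N + q * E), ?_⟩
    rw [pow_succ, hZ, Q1_succ, pow_succ N k]
    have c1 : (q : A) * E = E * q := (Nat.cast_commute q E).eq
    have c2 : N ^ k * (q * E) = q * (N ^ k * E) := by
      rw [← mul_assoc, ← (Nat.cast_commute q (N ^ k)).eq, mul_assoc]
    have c3 : (q : A) * Q1 N E k * (q * E) = (q : A) ^ 2 * (Q1 N E k * E) := by
      rw [mul_assoc, ← mul_assoc (Q1 N E k), ← (Nat.cast_commute q (Q1 N E k)).eq, pow_two]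
      simp only [mul_assoc]
    rw [add_mul, add_mul, mul_add (N ^ k), c2, mul_add ((q : A) * Q1 N E k), c3]
    simp only [mul_add, mul_assoc]
    abel

theorem q_mul_var_pow (q : ℕ) (h3 : (q : A) ^ 3 = 0) (N E : A) (k : ℕ) :
    (q : A) * ((N + q * E) ^ k - N ^ k) = (q : A) ^ 2 * Q1 N E k := by
  obtain ⟨Z, hZ⟩ := var_pow q N E k
  rw [hZ]
  have : (q : A) * ((q : A) ^ 2 * Z) = 0 := by
    rw [← mul_assoc, ← pow_succ', h3, zero_mul]
  rw [show N ^ k + q * Q1 N E k + (q : A) ^ 2 * Z - N ^ k = q * Q1 N E k + (q : A) ^ 2 * Z by abel,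
    mul_add, this, add_zero, pow_two, mul_assoc]

/-- The first variation of `(1+N)^m`. -/
theorem sum_choose_Q1 (N E : A) (m : ℕ) :
    ∑ k ∈ range (m + 1), (m.choose k : A) * Q1 N E k = Q1 (1 + N) E m := by
  induction m with
  | zero => simp
  | succ m ih =>
    rw [Q1_succ, ← ih, Finset.sum_range_succ']
    have hp : (1 + N) ^ m = ∑ k ∈ range (m + 1), (m.choose k : A) * N ^ k := by
      rw [add_comm, (Commute.one_right N).add_pow]
      refine Finset.sum_congr rfl fun k _ => ?_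
      rw [one_pow, mul_one, (Nat.cast_commute (m.choose k) (N ^ k)).eq]
    have h1 : ∀ k, ((m + 1).choose (k + 1) : A) * Q1 N E (k + 1) =
        (m.choose k : A) * (Q1 N E k * N + N ^ k * E) + (m.choose (k + 1) : A) * Q1 N E (k + 1) := by
      intro k
      rw [Nat.choose_succ_succ, Nat.cast_add, add_mul, Q1_succ]
    simp only [h1, Q1_zero, mul_zero, add_zero]
    rw [Finset.sum_add_distrib]
    have h2 : ∑ k ∈ range (m + 1), (m.choose (k + 1) : A) * Q1 N E (k + 1) =
        ∑ k ∈ range (m + 1), (m.choose k : A) * Q1 N E k := by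
      rw [Finset.sum_range_succ, Finset.sum_range_succ' (fun k => (m.choose k : A) * Q1 N E k)]
      simp
    rw [h2, hp]
    simp only [mul_add, Finset.sum_add_distrib, Finset.sum_mul, mul_one]
    simp only [mul_assoc]
    abel

/-- `(1+Π)^p - (1+N)^p` for `Π = N + pE`, `p^3 = 0`. -/
theorem pow_sub_pow (p : ℕ) [hp : Fact p.Prime] (h3 : (p : A) ^ 3 = 0) (N E : A) :
    (1 + (N + p * E)) ^ p - (1 + N) ^ p =
      ((N + p * E) ^ p - N ^ p) + p * (Q1 (1 + N) E p - Q1 N E p) := by
  have hx : ∀ X : A, (1 + X) ^ p = ∑ k ∈ range (p + 1), (p.choose k : A) * X ^ k := by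
    intro X
    rw [add_comm, (Commute.one_right X).add_pow]
    refine Finset.sum_congr rfl fun k _ => ?_
    rw [one_pow, mul_one, (Nat.cast_commute (p.choose k) (X ^ k)).eq]
  rw [hx, hx, ← Finset.sum_sub_distrib, ← sum_choose_Q1, Finset.sum_range_succ, Finset.sum_range_succ
    (fun k => (p.choose k : A) * Q1 N E k)]
  simp only [Nat.choose_self, Nat.cast_one, one_mul, add_sub_cancel_right]
  rw [add_comm, Finset.mul_sum]
  congr 1
  refine Finset.sum_congr rfl fun k hk => ?_
  rw [← mul_sub]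
  rcases Nat.eq_zero_or_pos k with rfl | hk0
  · simp
  · obtain ⟨c, hc⟩ := hp.out.dvd_choose_self hk0.ne' (Finset.mem_range.1 hk)
    rw [hc, Nat.cast_mul, (Nat.cast_commute p (c : A)).eq, mul_assoc, q_mul_var_pow p h3, pow_two,
      ← mul_assoc, ← mul_assoc, ← mul_assoc, ← mul_assoc, (Nat.cast_commute p (c : A)).eq]

theorem one_add_mul_pow (p : ℕ) [hp : Fact p.Prime] (hodd : p ≠ 2) (h3 : (p : A) ^ 3 = 0) (C : A) :
    (1 + p * C) ^ p = 1 + (p : A) ^ 2 * C := by
  rw [add_comm, (Commute.one_right ((p : A) * C)).add_pow, Finset.sum_range_succ']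
  have hpos := hp.out.pos
  obtain ⟨r, hr⟩ : ∃ r, p = r + 1 := ⟨p - 1, by omega⟩
  have : ∑ k ∈ range p, ((p : A) * C) ^ (k + 1) * 1 ^ (p - (k + 1)) * (p.choose (k + 1) : A) =
      (p : A) ^ 2 * C := by
    rw [hr, Finset.sum_range_succ', ← hr]
    rw [Finset.sum_eq_zero]
    · simp only [zero_add, pow_one, one_pow, mul_one, Nat.choose_one_right]
      rw [← (Nat.cast_commute p ((p : A) * C)).eq, ← mul_assoc, pow_two]
    · intro k hk
      have hk' : k + 1 + 1 ≤ p := by have := Finset.mem_range.1 hk; omega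
      have hcp : ((p : A) * C) ^ (k + 1 + 1) = (p : A) ^ (k + 2) * C ^ (k + 2) := by
        rw [(Nat.cast_commute p C).mul_pow]
      rw [hcp, one_pow, mul_one]
      rcases Nat.eq_zero_or_pos k with rfl | hk0
      · have h2p : 2 < p := lt_of_le_of_ne hp.out.two_le (Ne.symm hodd)
        obtain ⟨c, hc⟩ := hp.out.dvd_choose_self (k := 0 + 1 + 1) (by norm_num) (by omega)
        rw [hc, Nat.cast_mul, mul_assoc, ← mul_assoc (C ^ (0 + 2)), ← (Nat.cast_commute p (C ^ (0 + 2))).eq,
          ← mul_assoc, ← mul_assoc, zero_add, ← pow_succ, h3, zero_mul, zero_mul]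
      · have : (p : A) ^ (k + 2) = 0 := by
          obtain ⟨s, rfl⟩ : ∃ s, k = s + 1 := ⟨k - 1, by omega⟩
          rw [show s + 1 + 2 = s + 3 by ring, pow_add, h3, mul_zero]
        rw [this, zero_mul, zero_mul]
  rw [this]
  simp [add_comm]

end ring

section conj
variable {R A : Type*} [CommRing R] [Ring A] [Algebra R A]

/-- Conjugation `Z ↦ x⁻¹ Z x` as a linear map. -/
def conjL (R : Type*) {A : Type*} [CommRing R] [Ring A] [Algebra R A] (x : Aˣ) : Module.End R A :=
  LinearMap.mulLeft R ((x⁻¹ : Aˣ) : A) * LinearMap.mulRight R (x : A)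

@[simp] theorem conjL_apply (x : Aˣ) (Z : A) : conjL R x Z = ((x⁻¹ : Aˣ) : A) * (Z * x) := rfl

/-- `D = conj - 1`. -/
def DL (R : Type*) {A : Type*} [CommRing R] [Ring A] [Algebra R A] (x : Aˣ) : Module.End R A :=
  conjL R x - 1

theorem DL_apply (x : Aˣ) (Z : A) : DL R x Z = ((x⁻¹ : Aˣ) : A) * (Z * x) - Z := rfl

theorem Q1_eq_conj (x : Aˣ) (E : A) (m : ℕ) :
    Q1 (x : A) E m = (x : A) ^ m * ((∑ k ∈ range m, (conjL R x) ^ k) (((x⁻¹ : Aˣ) : A) * E)) := by
  induction m with
  | zero => simp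
  | succ m ih =>
    rw [Q1_succ, ih]
    have h1 : (∑ k ∈ range (m + 1), (conjL R x) ^ k) = conjL R x * (∑ k ∈ range m, (conjL R x) ^ k) + 1 := by
      rw [Finset.sum_range_succ', pow_zero, Finset.mul_sum]
      simp only [pow_succ']
    rw [h1]
    simp only [LinearMap.add_apply, Module.End.mul_apply, Module.End.one_apply, conjL_apply, mul_add]
    congr 1
    · rw [pow_succ]
      simp only [mul_assoc, Units.mul_inv_cancel_left]
    · rw [pow_succ]
      simp only [mul_assoc, Units.mul_inv_cancel_left]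

theorem geom_sum_conj {B : Type*} [Ring B] (T : B) (m : ℕ) :
    ∑ k ∈ range m, T ^ k = ∑ k ∈ range m, (m.choose (k + 1) : B) * (T - 1) ^ k := by
  induction m with
  | zero => simp
  | succ m ih =>
    have hp : T ^ m = ∑ k ∈ range (m + 1), (m.choose k : B) * (T - 1) ^ k := by
      conv_lhs => rw [← sub_add_cancel T 1]
      rw [(Commute.one_right (T - 1)).add_pow]
      refine Finset.sum_congr rfl fun k _ => ?_
      rw [one_pow, mul_one, (Nat.cast_commute (m.choose k) ((T - 1) ^ k)).eq]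
    rw [Finset.sum_range_succ, ih, hp]
    have h1 : ∀ k, ((m + 1).choose (k + 1) : B) * (T - 1) ^ k =
      (m.choose k : B) * (T - 1) ^ k + (m.choose (k + 1) : B) * (T - 1) ^ k := by
      intro k
      rw [Nat.choose_succ_succ, Nat.cast_add, add_mul]
    simp only [h1]
    rw [Finset.sum_add_distrib, Finset.sum_range_succ (fun k => (m.choose (k + 1) : B) * (T - 1) ^ k)]
    simp [add_comm]

end conj

end Pool.Agent.Helper24Reg
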