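import Mathlib

namespace Pool.Agent.Helper24Reg

open Matrix
open scoped commutatorElement

/-- Hall's condition for the pair `x, y` (with exponent `p`): `(xy)^p = x^p y^p c_1^p ... c_k^p`
for some elements `c_i` of the derived subgroup of the subgroup generated by `x` and `y`. -/
def RegPair (p : ℕ) {G : Type*} [Group G] (x y : G) : Prop :=
  ∃ l : List G, (∀ c ∈ l, c ∈ ⁅Subgroup.closure ({x, y} : Set G), Subgroup.closure ({x, y} : Set G)⁆) ∧
    (x * y) ^ p = x ^ p * y ^ p * (l.map (fun c => c ^ p)).prod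

/-- A group is regular (for the prime `p`) in the sense of P. Hall. -/
def IsRegular (p : ℕ) (G : Type*) [Group G] : Prop :=
  ∀ x y : G, RegPair p x y

theorem RegPair.map {p : ℕ} {G K : Type*} [Group G] [Group K] (f : G →* K) {x y : G}
    (h : RegPair p x y) : RegPair p (f x) (f y) := by
  obtain ⟨l, hl, he⟩ := h
  refine ⟨l.map f, ?_, ?_⟩
  · intro c hc
    obtain ⟨d, hd, rfl⟩ := List.mem_map.1 hc
    have h1 : f d ∈ Subgroup.map f ⁅Subgroup.closure ({x, y} : Set G), Subgroup.closure ({x, y} : Set G)⁆ :=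
      Subgroup.mem_map_of_mem f (hl d hd)
    rw [Subgroup.map_commutator, MonoidHom.map_closure, Set.image_pair] at h1
    exact h1
  · rw [← map_mul, ← map_pow, he, map_mul, map_mul, map_pow, map_pow, map_list_prod]
    congr 2
    simp [Function.comp_def]

theorem RegPair.of_map {p : ℕ} {G K : Type*} [Group G] [Group K] (f : G →* K)
    (hf : Function.Injective f) {x y : G}
    (h : RegPair p (f x) (f y)) : RegPair p x y := by
  obtain ⟨l, hl, he⟩ := h
  have h1 : ∀ c ∈ l, ∃ d : G, d ∈ ⁅Subgroup.closure ({x, y} : Set G), Subgroup.closure ({x, y} : Set G)⁆ ∧ f d = c := by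
    intro c hc
    have h2 := hl c hc
    rw [← Set.image_pair, ← MonoidHom.map_closure, ← Subgroup.map_commutator] at h2
    obtain ⟨d, hd, hd'⟩ := Subgroup.mem_map.1 h2
    exact ⟨d, hd, hd'⟩
  have h3 : ∃ l' : List G, l'.map f = l ∧
      ∀ c ∈ l', c ∈ ⁅Subgroup.closure ({x, y} : Set G), Subgroup.closure ({x, y} : Set G)⁆ := by
    clear he hl
    induction l with
    | nil => exact ⟨[], rfl, by simp⟩
    | cons a l ih =>
      obtain ⟨l', hl', hc'⟩ := ih (fun c hc => h1 c (List.mem_cons_of_mem _ hc))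
      obtain ⟨d, hd, hd'⟩ := h1 a (List.mem_cons_self)
      refine ⟨d :: l', by simp [hl', hd'], ?_⟩
      intro c hc
      rcases List.mem_cons.1 hc with rfl | hc
      · exact hd
      · exact hc' c hc
  obtain ⟨l', hl', hc'⟩ := h3
  refine ⟨l', hc', hf ?_⟩
  rw [map_pow, map_mul, he, map_mul, map_mul, map_pow, map_pow, map_list_prod, ← hl']
  congr 2
  simp [Function.comp_def]

theorem IsRegular.of_injective {p : ℕ} {G K : Type*} [Group G] [Group K] (f : G →* K)
    (hf : Function.Injective f) (h : IsRegular p K) : IsRegular p G :=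
  fun x y => RegPair.of_map f hf (h (f x) (f y))

/-- One-sided invariance under conjugation implies two-sided invariance in a finite group. -/
theorem conj_mem_of_finite {G : Type*} [Group G] [Finite G] (K : Subgroup G) (x : G)
    (h : ∀ k ∈ K, x⁻¹ * k * x ∈ K) : ∀ k ∈ K, x * k * x⁻¹ ∈ K := by
  have h1 : ∀ n : ℕ, ∀ k ∈ K, (x ^ n)⁻¹ * k * x ^ n ∈ K := by
    intro n
    induction n with
    | zero => intro k hk; simpa using hk
    | succ n ih =>
      intro k hk
      have := h _ (ih k hk)
      have e : (x ^ (n + 1))⁻¹ * k * x ^ (n + 1) = x⁻¹ * ((x ^ n)⁻¹ * k * x ^ n) * x := by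
        rw [pow_succ]; group
      rw [e]; exact this
  intro k hk
  have h2 : x ^ (orderOf x - 1) = x⁻¹ := by
    have h3 : x ^ (orderOf x - 1) * x = 1 := by
      rw [← pow_succ, Nat.sub_add_cancel (orderOf_pos x), pow_orderOf_eq_one]
    exact eq_inv_of_mul_eq_one_left h3
  have := h1 (orderOf x - 1) k hk
  rw [h2] at this
  simpa using this

/-- Bounding the derived subgroup of a two-generator subgroup. -/
theorem commutator_closure_le {G : Type*} [Group G] (K : Subgroup G) (x y : G)
    (hx : ∀ k ∈ K, x⁻¹ * k * x ∈ K) (hx' : ∀ k ∈ K, x * k * x⁻¹ ∈ K)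
    (hy : ∀ k ∈ K, y⁻¹ * k * y ∈ K) (hy' : ∀ k ∈ K, y * k * y⁻¹ ∈ K)
    (hxy : ⁅x, y⁆ ∈ K) :
    ⁅Subgroup.closure ({x, y} : Set G), Subgroup.closure ({x, y} : Set G)⁆ ≤ K := by
  -- every element of the closure normalizes K
  have hnorm : ∀ g ∈ Subgroup.closure ({x, y} : Set G), (∀ k ∈ K, g * k * g⁻¹ ∈ K) ∧ (∀ k ∈ K, g⁻¹ * k * g ∈ K) := by
    intro g hg
    induction hg using Subgroup.closure_induction with
    | mem g hg =>
      rcases hg with rfl | hg
      · exact ⟨hx', hx⟩
      · rw [Set.mem_singleton_iff] at hg; subst hg; exact ⟨hy', hy⟩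
    | one => exact ⟨fun k hk => by simpa using hk, fun k hk => by simpa using hk⟩
    | mul a b _ _ iha ihb =>
      refine ⟨fun k hk => ?_, fun k hk => ?_⟩
      · have := iha.1 _ (ihb.1 k hk)
        have e : a * b * k * (a * b)⁻¹ = a * (b * k * b⁻¹) * a⁻¹ := by group
        rw [e]; exact this
      · have := ihb.2 _ (iha.2 k hk)
        have e : (a * b)⁻¹ * k * (a * b) = b⁻¹ * (a⁻¹ * k * a) * b := by group
        rw [e]; exact this
    | inv a _ iha =>
      refine ⟨fun k hk => ?_, fun k hk => ?_⟩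
      · simpa using iha.2 k hk
      · simpa using iha.1 k hk
  have hgen : ∀ g ∈ ({x, y} : Set G), ∀ h ∈ Subgroup.closure ({x, y} : Set G), ⁅g, h⁆ ∈ K := by
    intro g hg h hh
    have hgc : g ∈ Subgroup.closure ({x, y} : Set G) := Subgroup.subset_closure hg
    induction hh using Subgroup.closure_induction with
    | mem h hh =>
      rcases hg with rfl | hg
      · rcases hh with rfl | hh
        · rw [commutatorElement_self]; exact K.one_mem
        · rw [Set.mem_singleton_iff] at hh; subst hh; exact hxy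
      · rw [Set.mem_singleton_iff] at hg; subst hg
        rcases hh with rfl | hh
        · have := K.inv_mem hxy
          rw [commutatorElement_inv] at this; exact this
        · rw [Set.mem_singleton_iff] at hh; subst hh
          rw [commutatorElement_self]; exact K.one_mem
    | one => rw [commutatorElement_one_right]; exact K.one_mem
    | mul a b ha hb iha ihb =>
      have e : ⁅g, a * b⁆ = ⁅g, a⁆ * (a * ⁅g, b⁆ * a⁻¹) := by
        simp only [commutatorElement_def]; group
      rw [e]
      exact K.mul_mem iha ((hnorm a ha).1 _ ihb)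
    | inv a ha iha =>
      have e : ⁅g, a⁻¹⁆ = a⁻¹ * ⁅g, a⁆⁻¹ * a := by
        simp only [commutatorElement_def]; group
      rw [e]
      exact (hnorm a ha).2 _ (K.inv_mem iha)
  rw [Subgroup.commutator_le]
  intro g hg h hh
  induction hg using Subgroup.closure_induction with
  | mem g hg => exact hgen g hg h hh
  | one => rw [commutatorElement_one_left]; exact K.one_mem
  | mul a b ha hb iha ihb =>
    have e : ⁅a * b, h⁆ = (a * ⁅b, h⁆ * a⁻¹) * ⁅a, h⁆ := by
      simp only [commutatorElement_def]; group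
    rw [e]
    exact K.mul_mem ((hnorm a ha).1 _ ihb) iha
  | inv a ha iha =>
    have e : ⁅a⁻¹, h⁆ = a⁻¹ * ⁅a, h⁆⁻¹ * a := by
      simp only [commutatorElement_def]; group
    rw [e]
    exact (hnorm a ha).2 _ (K.inv_mem iha)

/-- The defining condition of `P_n`, for a matrix over any commutative ring with a distinguished
element `p`. -/
def PCond {R : Type*} [CommRing R] (p : R) {n : ℕ} (A : Matrix (Fin n) (Fin n) R) : Prop :=
  (∀ i, p ∣ A i i - 1) ∧ ∀ i j, j < i → p ∣ A i j

theorem PCond.mul {R : Type*} [CommRing R] {p : R} {n : ℕ} {A B : Matrix (Fin n) (Fin n) R}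
    (hA : PCond p A) (hB : PCond p B) : PCond p (A * B) := by
  obtain ⟨hg1, hg2⟩ := hA
  obtain ⟨hh1, hh2⟩ := hB
  refine ⟨fun i => ?_, fun i j hij => ?_⟩
  · rw [Matrix.mul_apply, ← Finset.add_sum_erase _ _ (Finset.mem_univ i)]
    have h1 : A i i * B i i + (∑ k ∈ Finset.univ.erase i, A i k * B k i) - 1 =
      (A i i - 1) * B i i + (B i i - 1) + (∑ k ∈ Finset.univ.erase i, A i k * B k i) := by ring
    rw [h1]
    refine dvd_add (dvd_add (Dvd.dvd.mul_right (hg1 i) _) (hh1 i)) (Finset.dvd_sum fun k hk => ?_)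
    rw [Finset.mem_erase] at hk
    rcases lt_or_gt_of_ne hk.1 with h2 | h2
    · exact Dvd.dvd.mul_right (hg2 i k h2) _
    · exact Dvd.dvd.mul_left (hh2 k i h2) _
  · rw [Matrix.mul_apply]
    refine Finset.dvd_sum fun k _ => ?_
    rcases lt_or_ge k i with h2 | h2
    · exact Dvd.dvd.mul_right (hg2 i k h2) _
    · exact Dvd.dvd.mul_left (hh2 k j (lt_of_lt_of_le hij h2)) _

theorem PCond.one {R : Type*} [CommRing R] {p : R} {n : ℕ} :
    PCond p (1 : Matrix (Fin n) (Fin n) R) := by
  refine ⟨fun i => by simp, fun i j hij => ?_⟩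
  rw [Matrix.one_apply_ne (ne_of_gt hij)]
  exact dvd_zero _

theorem PCond.pow {R : Type*} [CommRing R] {p : R} {n : ℕ} {A : Matrix (Fin n) (Fin n) R}
    (hA : PCond p A) (k : ℕ) : PCond p (A ^ k) := by
  induction k with
  | zero => rw [pow_zero]; exact PCond.one
  | succ k ih => rw [pow_succ]; exact ih.mul hA

/-- The group `P_n(ℤ/p^m)`: the invertible `n × n` matrices over `ℤ/p^m` whose diagonal entries
are `≡ 1` modulo `p` and whose entries below the diagonal are `≡ 0` modulo `p`. -/
def P (p m n : ℕ) [hp : Fact p.Prime] : Subgroup (GL (Fin n) (ZMod (p ^ m))) where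
  carrier := {g | (∀ i, (p : ZMod (p ^ m)) ∣ g.1 i i - 1) ∧ ∀ i j, j < i → (p : ZMod (p ^ m)) ∣ g.1 i j}
  mul_mem' := by
    rintro g h hg hh
    exact PCond.mul (p := (p : ZMod (p ^ m))) hg hh
  one_mem' := PCond.one (p := (p : ZMod (p ^ m)))
  inv_mem' := by
    intro g hg
    have : NeZero (p ^ m) := ⟨pow_ne_zero _ hp.out.ne_zero⟩
    have : Finite (GL (Fin n) (ZMod (p ^ m))) := by
      unfold Matrix.GeneralLinearGroup
      infer_instance
    have h2 : g⁻¹ = g ^ (orderOf g - 1) := by
      have h3 : g ^ (orderOf g - 1) * g = 1 := by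
        rw [← pow_succ, Nat.sub_add_cancel (orderOf_pos g), pow_orderOf_eq_one]
      exact (eq_inv_of_mul_eq_one_left h3).symm
    rw [h2]
    have h3 := PCond.pow (p := (p : ZMod (p ^ m))) (A := g.1) hg (orderOf g - 1)
    rw [← Units.val_pow_eq_pow_val] at h3
    exact h3

theorem mem_P {p m n : ℕ} [hp : Fact p.Prime] {g : GL (Fin n) (ZMod (p ^ m))} :
    g ∈ P p m n ↔ PCond (p : ZMod (p ^ m)) g.1 := Iff.rfl

end Pool.Agent.Helper24Reg
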