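import Mathlib
import Pool.Agent.Helper24_Reg.Basic

namespace Pool.Agent.Helper24Reg

open scoped commutatorElement

section poly
variable {G : Type*} [Group G]

/-- discrete derivative -/
def dd (g : ℕ → G) : ℕ → G := fun n => (g n)⁻¹ * g (n + 1)

/-- `PolyK F k i g`: the first `k` derivatives of `g` lie in the expected terms of the filtration. -/
def PolyK (F : ℕ → Subgroup G) : ℕ → ℕ → (ℕ → G) → Prop
  | 0, i, g => ∀ n, g n ∈ F i
  | k + 1, i, g => (∀ n, g n ∈ F i) ∧ PolyK F k (i + 1) (dd g)

variable (F : ℕ → Subgroup G)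

theorem PolyK.val {F : ℕ → Subgroup G} {k i : ℕ} {g : ℕ → G} (h : PolyK F k i g) (n : ℕ) : g n ∈ F i := by
  cases k with
  | zero => exact h n
  | succ k => exact h.1 n

theorem PolyK.mono (hF : Antitone F) {k i j : ℕ} (hij : i ≤ j) {g : ℕ → G} (h : PolyK F k j g) :
    PolyK F k i g := by
  induction k generalizing i j g with
  | zero => exact fun n => hF hij (h n)
  | succ k ih => exact ⟨fun n => hF hij (h.1 n), ih (Nat.succ_le_succ hij) h.2⟩

theorem PolyK.of_succ {k i : ℕ} {g : ℕ → G} (h : PolyK F (k + 1) i g) :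
    PolyK F k i g := by
  induction k generalizing i g with
  | zero => exact h.1
  | succ k ih => exact ⟨h.1, ih h.2⟩

theorem PolyK.shift {k i : ℕ} {g : ℕ → G} (h : PolyK F k i g) :
    PolyK F k i (fun n => g (n + 1)) := by
  induction k generalizing i g with
  | zero => exact fun n => h (n + 1)
  | succ k ih => exact ⟨fun n => h.1 (n + 1), ih h.2⟩

theorem PolyK.main (hF : Antitone F) (hc : ∀ i j, ⁅F i, F j⁆ ≤ F (i + j)) (k : ℕ) :
    (∀ i (g h : ℕ → G), PolyK F k i g → PolyK F k i h → PolyK F k i (fun n => g n * h n)) ∧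
    (∀ i (g : ℕ → G), PolyK F k i g → PolyK F k i (fun n => (g n)⁻¹)) ∧
    (∀ i j (g h : ℕ → G), PolyK F k i g → PolyK F k j h → PolyK F k (i + j) (fun n => ⁅g n, h n⁆)) := by
  induction k with
  | zero =>
    refine ⟨fun i g h hg hh n => (F i).mul_mem (hg n) (hh n), fun i g hg n => (F i).inv_mem (hg n),
      fun i j g h hg hh n => hc i j (Subgroup.commutator_mem_commutator (hg n) (hh n))⟩
  | succ k ih =>
    obtain ⟨hm, hi, hcm⟩ := ih
    -- conjugation
    have hconj : ∀ s t (u v : ℕ → G), PolyK F k s u → PolyK F k t v → PolyK F k s (fun n => v n * u n * (v n)⁻¹) := by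
      intro s t u v hu hv
      have h1 := hcm s t _ _ (hi s _ hu) hv
      have h2 := hm s _ _ hu (PolyK.mono F hF (Nat.le_add_right s t) h1)
      refine cast ?_ h2
      congr 1
      funext n
      simp only [commutatorElement_def]
      group
    refine ⟨?_, ?_, ?_⟩
    · intro i g h hg hh
      refine ⟨fun n => (F i).mul_mem (hg.val n) (hh.val n), ?_⟩
      have hg1 : PolyK F k (i + 1) (dd g) := hg.2
      have hh1 : PolyK F k (i + 1) (dd h) := hh.2
      have hh0 : PolyK F k i h := hh.of_succ
      have h1 := hconj (i + 1) i _ _ hg1 (hi i _ hh0)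
      have h2 := hm (i + 1) _ _ h1 hh1
      refine cast ?_ h2
      congr 1
      funext n
      simp only [dd]
      group
    · intro i g hg
      refine ⟨fun n => (F i).inv_mem (hg.val n), ?_⟩
      have hg1 : PolyK F k (i + 1) (dd g) := hg.2
      have hg0 : PolyK F k i g := hg.of_succ
      have h1 := hconj (i + 1) i _ _ (hi (i + 1) _ hg1) hg0
      refine cast ?_ h1
      congr 1
      funext n
      simp only [dd]
      group
    · intro i j g h hg hh
      refine ⟨fun n => hc i j (Subgroup.commutator_mem_commutator (hg.val n) (hh.val n)), ?_⟩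
      have hg1 : PolyK F k (i + 1) (dd g) := hg.2
      have hg0 : PolyK F k i g := hg.of_succ
      have hh1 : PolyK F k (j + 1) (dd h) := hh.2
      have hh0 : PolyK F k j h := hh.of_succ
      have hhs : PolyK F k j (fun n => h (n + 1)) := hh0.shift
      -- ⁅a, h'⁆ conjugated by g, then by c⁻¹
      have e1 := hcm (i + 1) j _ _ hg1 hhs
      have e2 := hconj _ i _ _ e1 hg0
      have e3 := hconj _ (i + j) _ _ e2 (hi _ _ (hcm i j _ _ hg0 hh0))
      have e4 := hcm i (j + 1) _ _ hg0 hh1
      have e5 := hconj _ j _ _ e4 hh0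
      rw [show i + 1 + j = i + j + 1 by ring] at e3
      have e6 := hm (i + j + 1) _ _ e3 e5
      refine cast ?_ e6
      congr 1
      funext n
      simp only [dd, commutatorElement_def]
      group

/-- polynomial sequences -/
def Poly (i : ℕ) (g : ℕ → G) : Prop := ∀ k, PolyK F k i g

theorem polyK_one (k i : ℕ) : PolyK F k i (fun _ => (1 : G)) := by
  induction k generalizing i with
  | zero => exact fun _ => (F i).one_mem
  | succ k ih =>
    refine ⟨fun _ => (F i).one_mem, ?_⟩
    have : dd (fun _ : ℕ => (1 : G)) = fun _ => 1 := by funext n; simp [dd]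
    rw [this]; exact ih (i + 1)

theorem polyK_choose (hF : Antitone F) (c : G) (k i j : ℕ) (hc : c ∈ F (i + j)) :
    PolyK F k i (fun n => c ^ (n.choose j)) := by
  induction k generalizing i j with
  | zero => exact fun n => (F i).pow_mem (hF (Nat.le_add_right i j) hc) _
  | succ k ih =>
    refine ⟨fun n => (F i).pow_mem (hF (Nat.le_add_right i j) hc) _, ?_⟩
    cases j with
    | zero =>
      have : dd (fun n : ℕ => c ^ (n.choose 0)) = fun _ => 1 := by funext n; simp [dd]
      rw [this]; exact polyK_one F k (i + 1)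
    | succ j =>
      have : dd (fun n : ℕ => c ^ (n.choose (j + 1))) = fun n => c ^ (n.choose j) := by
        funext n
        simp only [dd]
        rw [inv_mul_eq_iff_eq_mul, ← pow_add, Nat.choose_succ_succ, add_comm]
      rw [this]
      apply ih
      rw [show i + 1 + j = i + (j + 1) by ring]
      exact hc

theorem vanish_lemma (N : ℕ) (i : ℕ) (h : ℕ → G) (hp : PolyK F (N + 1) i h) (h0 : ∀ n ≤ N, h n = 1) :
    h (N + 1) ∈ F (i + N + 1) := by
  induction N generalizing i h with
  | zero =>
    have h1 := hp.2 0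
    simp only [dd] at h1
    rw [h0 0 le_rfl] at h1
    simpa using h1
  | succ N ih =>
    have h1 := ih (i + 1) (dd h) hp.2 (fun n hn => by
      simp only [dd]
      rw [h0 n (by omega), h0 (n + 1) (by omega)]
      simp)
    simp only [dd] at h1
    rw [h0 (N + 1) le_rfl] at h1
    rw [show i + (N + 1) + 1 = i + 1 + N + 1 by ring]
    simpa using h1

/-- Taylor expansion of polynomial sequences. -/
theorem taylor (hF : Antitone F) (hc : ∀ i j, ⁅F i, F j⁆ ≤ F (i + j)) (g : ℕ → G) (hg : Poly F 0 g) (N : ℕ) :
    ∃ c : ℕ → G, (∀ k, c k ∈ F k) ∧ (Poly F 0 fun n => ((List.range (N + 1)).map (fun k => c k ^ (n.choose k))).prod) ∧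
      ∀ n ≤ N, g n = ((List.range (N + 1)).map (fun k => c k ^ (n.choose k))).prod := by
  induction N with
  | zero =>
    refine ⟨fun k => if k = 0 then g 0 else 1, ?_, ?_, ?_⟩
    · intro k
      by_cases h : k = 0
      · subst h; simpa using (hg 0).val 0
      · simp only [h, if_false]; exact (F k).one_mem
    · intro k
      have := polyK_choose F hF (g 0) k 0 0 ((hg 0).val 0)
      refine cast ?_ this
      congr 1
      funext n
      simp
    · intro n hn
      have : n = 0 := by omega
      subst this
      simp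
  | succ N ih =>
    obtain ⟨c, hcF, hpoly, hgc⟩ := ih
    set gN : ℕ → G := fun n => ((List.range (N + 1)).map (fun k => c k ^ (n.choose k))).prod with hgN
    set h : ℕ → G := fun n => (gN n)⁻¹ * g n with hh
    have hhp : Poly F 0 h := fun k => (PolyK.main F hF hc k).1 0 _ _ ((PolyK.main F hF hc k).2.1 0 _ (hpoly k)) (hg k)
    have hh0 : ∀ n ≤ N, h n = 1 := by
      intro n hn
      simp only [hh]
      rw [hgc n hn, inv_mul_cancel]
    have hmem : h (N + 1) ∈ F (N + 1) := by
      have := vanish_lemma F N 0 h (hhp (N + 1)) hh0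
      rwa [zero_add] at this
    refine ⟨fun k => if k = N + 1 then h (N + 1) else c k, ?_, ?_, ?_⟩
    · intro k
      by_cases hk : k = N + 1
      · subst hk; simpa using hmem
      · simp only [hk, if_false]; exact hcF k
    · intro k
      have h1 := (PolyK.main F hF hc k).1 0 _ _ (hpoly k) (polyK_choose F hF (h (N + 1)) k 0 (N + 1) (by rw [zero_add]; exact hmem))
      refine cast ?_ h1
      congr 1
      funext n
      rw [List.range_succ (n := N + 1), List.map_append, List.prod_append]
      congr 1
      · simp only [hgN]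
        congr 1
        apply List.map_congr_left
        intro k hk
        have := List.mem_range.1 hk
        rw [if_neg (by omega)]
      · simp
    · intro n hn
      rw [List.range_succ (n := N + 1), List.map_append, List.prod_append]
      have e1 : ((List.range (N + 1)).map (fun k => (if k = N + 1 then h (N + 1) else c k) ^ (n.choose k))).prod = gN n := by
        congr 1
        apply List.map_congr_left
        intro k hk
        have := List.mem_range.1 hk
        rw [if_neg (by omega)]
      rw [e1]
      simp only [List.map_cons, List.map_nil, List.prod_cons, List.prod_nil, mul_one, if_true]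
      rcases Nat.lt_or_ge N n with h2 | h2
      · have h3 : n = N + 1 := by omega
        subst h3
        rw [Nat.choose_self, pow_one]
        simp only [hh]
        group
      · rw [Nat.choose_eq_zero_of_lt (by omega), pow_zero, mul_one, hgc n h2]

/-- Hall-Petrescu collection formula for an arbitrary filtration. -/
theorem hall_petrescu (hF : Antitone F) (hc : ∀ i j, ⁅F i, F j⁆ ≤ F (i + j)) (x y : G) (hx : x ∈ F 1) (hy : y ∈ F 1)
    (p : ℕ) (hp : 2 ≤ p) :
    ∃ c : ℕ → G, (∀ k, c k ∈ F k) ∧
      (x * y) ^ p = x ^ p * y ^ p * (((List.range (p - 1)).map (fun k => c (k + 2) ^ (p.choose (k + 2)))).prod) := by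
  have hpw : ∀ z ∈ F 1, Poly F 0 (fun n => z ^ n) := by
    intro z hz k
    have := polyK_choose F hF z k 0 1 (by rw [zero_add]; exact hz)
    refine cast ?_ this
    congr 1
    funext n
    rw [Nat.choose_one_right]
  have hg : Poly F 0 (fun n => (y ^ n)⁻¹ * ((x ^ n)⁻¹ * (x * y) ^ n)) := by
    intro k
    obtain ⟨hm, hi, -⟩ := PolyK.main F hF hc k
    exact hm 0 _ _ (hi 0 _ (hpw y hy k)) (hm 0 _ _ (hi 0 _ (hpw x hx k)) (hpw (x * y) ((F 1).mul_mem hx hy) k))
  obtain ⟨c, hcF, -, hgc⟩ := taylor F hF hc _ hg p
  refine ⟨c, hcF, ?_⟩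
  have h0 : c 0 = 1 := by
    have := hgc 0 (Nat.zero_le _)
    rw [List.range_succ_eq_map] at this
    simp only [pow_zero, inv_one, mul_one, List.map_cons, Nat.choose_self, pow_one, List.map_map, List.prod_cons] at this
    have h2 : (List.map ((fun k => c k ^ Nat.choose 0 k) ∘ Nat.succ) (List.range p)).prod = 1 := by
      apply List.prod_eq_one
      intro z hz
      obtain ⟨k, _, rfl⟩ := List.mem_map.1 hz
      simp
    rw [h2, mul_one] at this
    exact this.symm
  have h1 : c 1 = 1 := by
    have := hgc 1 (by omega)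
    obtain ⟨q, rfl⟩ : ∃ q, p = q + 1 := ⟨p - 1, by omega⟩
    rw [List.range_succ_eq_map, List.range_succ_eq_map] at this
    simp only [pow_one, List.map_cons, List.map_map, List.prod_cons, Nat.choose_zero_right, h0, one_mul, Nat.choose_self] at this
    have h2 : (List.map ((fun k => c k ^ Nat.choose 1 k) ∘ (Nat.succ ∘ Nat.succ)) (List.range q)).prod = 1 := by
      apply List.prod_eq_one
      intro z hz
      obtain ⟨k, _, rfl⟩ := List.mem_map.1 hz
      simp only [Function.comp_apply]
      rw [Nat.choose_eq_zero_of_lt (by omega), pow_zero]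
    have h3 : y⁻¹ * (x⁻¹ * (x * y)) = 1 := by group
    rw [h3] at this
    simp only [Function.comp_def] at this h2 ⊢
    simp only [Function.comp_apply, Nat.succ_eq_add_one] at this h2
    first
    | (rw [h2, mul_one] at this; simpa using this.symm)
    | (simp [h2] at this; exact this.symm)
  have hpfin := hgc p le_rfl
  obtain ⟨q, rfl⟩ : ∃ q, p = q + 2 := ⟨p - 2, by omega⟩
  have h4 : q + 2 - 1 = q + 1 := by omega
  rw [h4]
  have h5 : List.range (q + 2 + 1) = 0 :: 1 :: (List.range (q + 1)).map (fun k => k + 2) := by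
    rw [List.range_succ_eq_map, List.range_succ_eq_map, List.map_cons, List.map_map]
    rfl
  rw [h5, List.map_cons, List.map_cons, List.map_map, List.prod_cons, List.prod_cons, h0, h1, one_pow, one_mul,
    one_pow, one_mul] at hpfin
  have h6 : (x * y) ^ (q + 2) = x ^ (q + 2) * y ^ (q + 2) * ((y ^ (q + 2))⁻¹ * ((x ^ (q + 2))⁻¹ * (x * y) ^ (q + 2))) := by
    group
  rw [h6, hpfin]
  rfl

end poly

end Pool.Agent.Helper24Reg
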