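import Mathlib
import Pool.Agent.Helper24_Reg.HallPetrescu

namespace Pool.Agent.Helper24Reg

open scoped commutatorElement

theorem reg_criterion {G : Type*} [Group G] (p : ℕ) (hp : p.Prime) (x y : G) (V : ℕ → Subgroup G) (hV : Antitone V)
    (H : Subgroup G) (hH : H = Subgroup.closure ({x, y} : Set G))
    (h2 : ⁅H, H⁆ ≤ V 2) (hij : ∀ i ≥ 2, ∀ j ≥ 2, ⁅V i, V j⁆ ≤ V (i + j)) (hi : ∀ i ≥ 2, ⁅V i, H⁆ ≤ V (i + 1))
    (hlast : ∀ c ∈ ⁅H, H⁆ ⊓ V p, ∃ l : List G, (∀ d ∈ l, d ∈ ⁅H, H⁆) ∧ c = (l.map (fun d => d ^ p)).prod) :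
    RegPair p x y := by
  have hHH : ⁅H, H⁆ ≤ H := by
    rw [Subgroup.commutator_le]
    intro a ha b hb
    rw [commutatorElement_def]
    exact H.mul_mem (H.mul_mem (H.mul_mem ha hb) (H.inv_mem ha)) (H.inv_mem hb)
  let F : ℕ → Subgroup G := fun k => if k ≤ 1 then H else ⁅H, H⁆ ⊓ V k
  have hF0 : ∀ k, k ≤ 1 → F k = H := fun k hk => if_pos hk
  have hF2 : ∀ k, 2 ≤ k → F k = ⁅H, H⁆ ⊓ V k := fun k hk => if_neg (by omega)
  have hFH : ∀ k, F k ≤ H := by
    intro k
    rcases Nat.lt_or_ge k 2 with hk | hk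
    · rw [hF0 k (by omega)]
    · rw [hF2 k hk]; exact le_trans inf_le_left hHH
  have hanti : Antitone F := by
    intro i j hij'
    rcases Nat.lt_or_ge i 2 with hi2 | hi2
    · rw [hF0 i (by omega)]; exact hFH j
    · rw [hF2 i hi2, hF2 j (by omega)]
      exact inf_le_inf_left _ (hV hij')
  have hcomm1 : ∀ i j, 2 ≤ i → j ≤ 1 → ⁅F i, F j⁆ ≤ F (i + j) := by
    intro i j hi2 hj
    rw [hF2 (i + j) (by omega), hF0 j hj]
    refine le_inf (Subgroup.commutator_mono (hFH i) le_rfl) ?_
    refine le_trans (Subgroup.commutator_mono (?_ : F i ≤ V i) le_rfl) (le_trans (hi i hi2) (hV (by omega)))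
    rw [hF2 i hi2]; exact inf_le_right
  have hcomm : ∀ i j, ⁅F i, F j⁆ ≤ F (i + j) := by
    intro i j
    rcases Nat.lt_or_ge i 2 with hi2 | hi2
    · rcases Nat.lt_or_ge j 2 with hj2 | hj2
      · rw [hF0 i (by omega), hF0 j (by omega)]
        rcases Nat.lt_or_ge (i + j) 2 with h3 | h3
        · rw [hF0 (i + j) (by omega)]; exact hHH
        · rw [hF2 (i + j) h3, show i + j = 2 by omega]
          exact le_inf le_rfl h2
      · rw [Subgroup.commutator_comm, add_comm]
        exact hcomm1 j i hj2 (by omega)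
    · rcases Nat.lt_or_ge j 2 with hj2 | hj2
      · exact hcomm1 i j hi2 (by omega)
      · rw [hF2 (i + j) (by omega)]
        refine le_inf (Subgroup.commutator_mono (hFH i) (hFH j)) ?_
        refine le_trans (Subgroup.commutator_mono (?_ : F i ≤ V i) (?_ : F j ≤ V j)) (hij i hi2 j hj2)
        · rw [hF2 i hi2]; exact inf_le_right
        · rw [hF2 j hj2]; exact inf_le_right
  have hx : x ∈ F 1 := by
    rw [hF0 1 le_rfl, hH]; exact Subgroup.subset_closure (by simp)
  have hy : y ∈ F 1 := by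
    rw [hF0 1 le_rfl, hH]; exact Subgroup.subset_closure (by simp)
  obtain ⟨c, hc, he⟩ := hall_petrescu F hanti hcomm x y hx hy p hp.two_le
  obtain ⟨l, hl, hcl⟩ := hlast (c p) (by rw [← hF2 p hp.two_le]; exact hc p)
  obtain ⟨q, hq⟩ : ∃ q, p = q + 2 := ⟨p - 2, by have := hp.two_le; omega⟩
  refine ⟨(List.range q).map (fun k => c (k + 2) ^ (p.choose (k + 2) / p)) ++ l, ?_, ?_⟩
  · intro d hd
    rw [← hH]
    rcases List.mem_append.1 hd with h3 | h3
    · obtain ⟨k, hk, rfl⟩ := List.mem_map.1 h3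
      have := hc (k + 2)
      rw [hF2 (k + 2) (by omega)] at this
      exact Subgroup.pow_mem _ this.1 _
    · exact hl d h3
  · rw [he, List.map_append, List.prod_append, ← hcl, List.map_map]
    congr 1
    have h4 : p - 1 = q + 1 := by omega
    rw [h4, List.range_succ, List.map_append, List.prod_append]
    congr 1
    · congr 1
      apply List.map_congr_left
      intro k hk
      have := List.mem_range.1 hk
      have h5 : p ∣ p.choose (k + 2) := hp.dvd_choose_self (by omega) (by omega)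
      simp only [Function.comp_apply]
      rw [← pow_mul, Nat.div_mul_cancel h5]
    · simp only [List.map_cons, List.map_nil, List.prod_cons, List.prod_nil, mul_one]
      rw [← hq, Nat.choose_self, pow_one]

end Pool.Agent.Helper24Reg
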