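import Mathlib
import Pool.Agent.Helper24_Reg.Basic
import Pool.Agent.Helper24_Reg.Alg

namespace Pool.Agent.Helper24Reg

open Finset Matrix

variable {R : Type*} [CommRing R]

/-- `N = ∑_{i+1<k} E_{i,i+1}` (0-indexed). -/
def NN (R : Type*) [CommRing R] (n k : ℕ) : Matrix (Fin n) (Fin n) R :=
  fun i j => if j.val = i.val + 1 ∧ j.val < k then 1 else 0

/-- `E_{k-1,0}` (0-indexed). -/
def EE (R : Type*) [CommRing R] (n k : ℕ) : Matrix (Fin n) (Fin n) R :=
  fun i j => if i.val + 1 = k ∧ j.val = 0 then 1 else 0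

/-- `N^a E N^b`. -/
def GG (R : Type*) [CommRing R] (n k a b : ℕ) : Matrix (Fin n) (Fin n) R :=
  fun i j => if i.val + a + 1 = k ∧ j.val = b ∧ b < k then 1 else 0

theorem NN_mul_GG {n k : ℕ} (hk : k ≤ n) (a b : ℕ) : NN R n k * GG R n k a b = GG R n k (a + 1) b := by
  ext i j
  rw [Matrix.mul_apply]
  simp only [NN, GG]
  by_cases h : i.val + (a + 1) + 1 = k ∧ j.val = b ∧ b < k
  · rw [if_pos h]
    have hi : i.val + 1 < n := by omega
    rw [Finset.sum_eq_single (⟨i.val + 1, hi⟩ : Fin n)]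
    · rw [if_pos ⟨rfl, by simp only; omega⟩, if_pos ⟨by simp only; omega, h.2⟩, mul_one]
    · intro l _ hl
      rw [if_neg, zero_mul]
      rintro ⟨h1, _⟩
      exact hl (Fin.ext h1)
    · intro h1; exact absurd (Finset.mem_univ _) h1
  · rw [if_neg h]
    apply Finset.sum_eq_zero
    intro l _
    by_cases h1 : l.val = i.val + 1 ∧ l.val < k
    · rw [if_neg (c := l.val + a + 1 = k ∧ j.val = b ∧ b < k), mul_zero]
      rintro ⟨h2, h3⟩
      exact h ⟨by omega, h3⟩
    · rw [if_neg h1, zero_mul]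

theorem GG_mul_NN {n k : ℕ} (hk : k ≤ n) (a b : ℕ) : GG R n k a b * NN R n k = GG R n k a (b + 1) := by
  ext i j
  rw [Matrix.mul_apply]
  simp only [NN, GG]
  by_cases h : i.val + a + 1 = k ∧ j.val = b + 1 ∧ b + 1 < k
  · rw [if_pos h]
    have hi : b < n := by omega
    rw [Finset.sum_eq_single (⟨b, hi⟩ : Fin n)]
    · rw [if_pos ⟨h.1, rfl, by omega⟩, if_pos ⟨h.2.1, by omega⟩, mul_one]
    · intro l _ hl
      rw [if_neg (c := i.val + a + 1 = k ∧ l.val = b ∧ b < k), zero_mul]
      rintro ⟨_, h1, _⟩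
      exact hl (Fin.ext h1)
    · intro h1; exact absurd (Finset.mem_univ _) h1
  · rw [if_neg h]
    apply Finset.sum_eq_zero
    intro l _
    by_cases h1 : i.val + a + 1 = k ∧ l.val = b ∧ b < k
    · rw [if_neg (c := j.val = l.val + 1 ∧ j.val < k), mul_zero]
      rintro ⟨h2, h3⟩
      exact h ⟨h1.1, by omega, by omega⟩
    · rw [if_neg h1, zero_mul]

theorem GG_zero {n k : ℕ} : GG R n k 0 0 = EE R n k := by
  ext i j
  simp only [GG, EE]
  by_cases h : i.val + 1 = k ∧ j.val = 0
  · rw [if_pos h, if_pos ⟨by omega, h.2, by omega⟩]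
  · rw [if_neg h, if_neg]
    rintro ⟨h1, h2, _⟩
    exact h ⟨by omega, h2⟩

theorem pow_EE_pow {n k : ℕ} (hk : k ≤ n) (a b : ℕ) :
    NN R n k ^ a * EE R n k * NN R n k ^ b = GG R n k a b := by
  have h1 : ∀ a, NN R n k ^ a * EE R n k = GG R n k a 0 := by
    intro a
    induction a with
    | zero => rw [pow_zero, one_mul, GG_zero]
    | succ a ih => rw [pow_succ', mul_assoc, ih, NN_mul_GG hk]
  rw [h1]
  induction b with
  | zero => rw [pow_zero, mul_one]
  | succ b ih => rw [pow_succ, ← mul_assoc, ih, GG_mul_NN hk]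

theorem GG_eq_zero {n k a b : ℕ} (h : k ≤ a ∨ k ≤ b) : GG R n k a b = 0 := by
  ext i j
  simp only [GG, Matrix.zero_apply]
  rw [if_neg]
  rintro ⟨h1, _, h2⟩
  omega

/-- entries of powers of `N`, exponent positive -/
theorem NN_pow {n k : ℕ} (hk : k ≤ n) (a : ℕ) (i j : Fin n) :
    (NN R n k ^ (a + 1)) i j = if j.val = i.val + (a + 1) ∧ j.val < k then 1 else 0 := by
  induction a generalizing i j with
  | zero => rw [zero_add, pow_one]; rfl
  | succ a ih =>
    rw [pow_succ', Matrix.mul_apply]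
    by_cases h : j.val = i.val + (a + 1 + 1) ∧ j.val < k
    · rw [if_pos h]
      have hi : i.val + 1 < n := by omega
      rw [Finset.sum_eq_single (⟨i.val + 1, hi⟩ : Fin n)]
      · rw [ih]
        simp only [NN]
        rw [if_pos ⟨trivial, by omega⟩, if_pos ⟨by omega, h.2⟩, mul_one]
      · intro l _ hl
        simp only [NN]
        rw [if_neg, zero_mul]
        rintro ⟨h1, _⟩
        exact hl (Fin.ext h1)
      · intro h1; exact absurd (Finset.mem_univ _) h1
    · rw [if_neg h]
      apply Finset.sum_eq_zero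
      intro l _
      rw [ih]
      simp only [NN]
      by_cases h1 : l.val = i.val + 1 ∧ l.val < k
      · rw [if_neg (c := j.val = l.val + (a + 1) ∧ j.val < k), mul_zero]
        rintro ⟨h2, h3⟩
        exact h ⟨by omega, h3⟩
      · rw [if_neg h1, zero_mul]

theorem NN_pow_eq_zero {n k : ℕ} (hk : k ≤ n) (a : ℕ) (h : k ≤ a) (ha : 0 < a) : NN R n k ^ a = 0 := by
  obtain ⟨b, rfl⟩ : ∃ b, a = b + 1 := ⟨a - 1, by omega⟩
  ext i j
  rw [NN_pow hk, if_neg, Matrix.zero_apply]
  rintro ⟨h1, h2⟩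
  omega

/-- `Π = N + pE` -/
def PiM (R : Type*) [CommRing R] (q n k : ℕ) : Matrix (Fin n) (Fin n) R := NN R n k + (q : Matrix (Fin n) (Fin n) R) * EE R n k

/-- diagonal idempotent -/
def eM (R : Type*) [CommRing R] (n k : ℕ) : Matrix (Fin n) (Fin n) R :=
  fun i j => if i = j ∧ i.val < k then 1 else 0

theorem natCast_mul_apply {n : ℕ} (q : ℕ) (A : Matrix (Fin n) (Fin n) R) (i j : Fin n) :
    ((q : Matrix (Fin n) (Fin n) R) * A) i j = (q : R) * A i j := by
  rw [← nsmul_eq_mul, Matrix.smul_apply, nsmul_eq_mul]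

theorem PiM_apply (q n k : ℕ) (i j : Fin n) : PiM R q n k i j =
    (if j.val = i.val + 1 ∧ j.val < k then 1 else 0) + (q : R) * (if i.val + 1 = k ∧ j.val = 0 then 1 else 0) := by
  rw [PiM, Matrix.add_apply, natCast_mul_apply]; rfl

theorem PiM_pow {q n k : ℕ} (hk : k ≤ n) (t : ℕ) (ht : t + 1 ≤ k) (i j : Fin n) :
    (PiM R q n k ^ (t + 1)) i j = if i.val < k ∧ j.val < k ∧ j.val = i.val + (t + 1) then 1
      else if i.val < k ∧ j.val < k ∧ j.val + k = i.val + (t + 1) then (q : R) else 0 := by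
  induction t generalizing i j with
  | zero =>
    rw [zero_add, pow_one, PiM_apply]
    split_ifs <;> first | (exfalso; omega) | simp
  | succ t ih =>
    have ht' : t + 1 ≤ k := by omega
    rw [pow_succ', Matrix.mul_apply]
    by_cases hi : i.val + 1 < k
    · have hin : i.val + 1 < n := by omega
      rw [Finset.sum_eq_single (⟨i.val + 1, hin⟩ : Fin n)]
      · rw [ih ht', PiM_apply]
        simp only
        rw [if_pos ⟨trivial, hi⟩, if_neg (c := i.val + 1 = k ∧ i.val + 1 = 0) (by omega), mul_zero, add_zero, one_mul]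
        split_ifs <;> first | (exfalso; omega) | rfl
      · intro l _ hl
        rw [PiM_apply, if_neg, if_neg, mul_zero, add_zero, zero_mul]
        · omega
        · rintro ⟨h1, _⟩
          exact hl (Fin.ext h1)
      · intro h1; exact absurd (Finset.mem_univ _) h1
    · by_cases hi2 : i.val + 1 = k
      · have h0n : 0 < n := by omega
        rw [Finset.sum_eq_single (⟨0, h0n⟩ : Fin n)]
        · rw [ih ht', PiM_apply]
          simp only
          rw [if_neg (c := (0 = i.val + 1 ∧ 0 < k)) (by omega), if_pos (c := i.val + 1 = k ∧ True) ⟨hi2, trivial⟩, zero_add, mul_one]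
          split_ifs <;> first | (exfalso; omega) | simp
        · intro l _ hl
          rw [PiM_apply, if_neg, if_neg, mul_zero, add_zero, zero_mul]
          · rintro ⟨_, h1⟩
            exact hl (Fin.ext h1)
          · omega
        · intro h1; exact absurd (Finset.mem_univ _) h1
      · rw [if_neg (by omega), if_neg (by omega)]
        apply Finset.sum_eq_zero
        intro l _
        rw [PiM_apply, if_neg (by omega), if_neg (by omega), mul_zero, add_zero, zero_mul]

theorem PiM_pow_k {q n k : ℕ} (hk : k ≤ n) (hk0 : 0 < k) :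
    PiM R q n k ^ k = (q : Matrix (Fin n) (Fin n) R) * eM R n k := by
  obtain ⟨t, rfl⟩ : ∃ t, k = t + 1 := ⟨k - 1, by omega⟩
  ext i j
  rw [PiM_pow hk t le_rfl, natCast_mul_apply]
  simp only [eM, Fin.ext_iff]
  split_ifs <;> first | (exfalso; omega) | simp

theorem eM_mul_PiM {q n k : ℕ} (hk : k ≤ n) : eM R n k * PiM R q n k = PiM R q n k := by
  ext i j
  rw [Matrix.mul_apply, Finset.sum_eq_single i]
  · simp only [eM, true_and]
    by_cases h : i.val < k
    · rw [if_pos h, one_mul]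
    · rw [if_neg h, zero_mul, PiM_apply, if_neg (by omega), if_neg (by omega), mul_zero, add_zero]
  · intro l _ hl
    simp only [eM]
    rw [if_neg, zero_mul]
    rintro ⟨h1, _⟩; exact hl h1.symm
  · intro h1; exact absurd (Finset.mem_univ _) h1

theorem PiM_pow_add {q n k : ℕ} (hk : k ≤ n) (hk0 : 0 < k) (t : ℕ) :
    PiM R q n k ^ (k + (t + 1)) = (q : Matrix (Fin n) (Fin n) R) * PiM R q n k ^ (t + 1) := by
  rw [pow_add, PiM_pow_k hk hk0, mul_assoc, pow_succ', ← mul_assoc (eM R n k), eM_mul_PiM hk]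

end Pool.Agent.Helper24Reg
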