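import Mathlib
import Pool.Agent.Helper24_Reg.Mats

namespace Pool.Agent.Helper24Reg

open Finset Matrix

theorem nilp_lemma {F M : Type*} [Field F] [AddCommGroup M] [Module F M] (T : Module.End F M) (V : M)
    (K : ℕ) (hK : 0 < K) (h0 : (T ^ (K + 1)) V = 0) (h1 : (T ^ K) V ≠ 0) (a : ℕ → F)
    (hw : T (∑ i ∈ range K, a i • (T ^ (i + 1)) V) = 0) :
    ∑ i ∈ range K, a i • (T ^ (i + 1)) V = a (K - 1) • (T ^ K) V := by
  have hz : ∀ s, K + 1 ≤ s → (T ^ s) V = 0 := by
    intro s hs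
    obtain ⟨t, rfl⟩ := Nat.exists_eq_add_of_le hs
    rw [add_comm, pow_add, Module.End.mul_apply, h0, map_zero]
  have key : ∀ i, i + 1 < K → a i = 0 := by
    intro i
    induction i using Nat.strong_induction_on with
    | _ i ih =>
      intro hi
      have h2 : (T ^ (K - 1 - i)) (∑ i ∈ range K, a i • (T ^ (i + 1)) V) = 0 := by
        obtain ⟨s, hs⟩ : ∃ s, K - 1 - i = s + 1 := ⟨K - 1 - i - 1, by omega⟩
        rw [hs, pow_succ, Module.End.mul_apply, hw, map_zero]
      rw [map_sum, Finset.sum_eq_single i] at h2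
      · rw [map_smul, ← Module.End.mul_apply, ← pow_add, show K - 1 - i + (i + 1) = K by omega] at h2
        rcases smul_eq_zero.1 h2 with h3 | h3
        · exact h3
        · exact absurd h3 h1
      · intro b hb hbi
        rw [map_smul]
        rcases lt_or_gt_of_ne hbi with h3 | h3
        · rw [ih b h3 (by omega), zero_smul]
        · rw [← Module.End.mul_apply, ← pow_add, hz _ (by omega), smul_zero]
      · intro h3; exact absurd (Finset.mem_range.2 (by omega)) h3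
  obtain ⟨t, rfl⟩ : ∃ t, K = t + 1 := ⟨K - 1, by omega⟩
  rw [Finset.sum_range_succ, Finset.sum_eq_zero, zero_add, Nat.add_sub_cancel]
  intro i hi
  rw [key i (by have := Finset.mem_range.1 hi; omega), zero_smul]

section ring
variable {R A : Type*} [CommRing R] [Ring A] [Algebra R A]

/-- `δ(Z) = Z N - N Z`. -/
def dL (R : Type*) {A : Type*} [CommRing R] [Ring A] [Algebra R A] (N : A) : Module.End R A :=
  LinearMap.mulRight R N - LinearMap.mulLeft R N

theorem dL_pow_apply (N E : A) (a : ℕ) :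
    ((dL R N) ^ a) E = ∑ b ∈ range (a + 1), ((-1) ^ (a - b) * (a.choose b : ℤ)) • (N ^ (a - b) * E * N ^ b) := by
  let L : Module.End R A := LinearMap.mulLeft R N
  let M : Module.End R A := LinearMap.mulRight R N
  have hc0 : Commute M L := (LinearMap.commute_mulLeft_right N N).symm
  have hc : Commute M (-L) := hc0.neg_right
  have hL : ∀ (s : ℕ) (Z : A), (L ^ s) Z = N ^ s * Z := by
    intro s Z
    change ((LinearMap.mulLeft R N) ^ s) Z = _
    rw [LinearMap.pow_mulLeft, LinearMap.mulLeft_apply]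
  have hM : ∀ (s : ℕ) (Z : A), (M ^ s) Z = Z * N ^ s := by
    intro s Z
    change ((LinearMap.mulRight R N) ^ s) Z = _
    rw [LinearMap.pow_mulRight, LinearMap.mulRight_apply]
  have h0 : dL R N = M + (-L) := sub_eq_add_neg M L
  rw [h0, hc.add_pow, LinearMap.sum_apply]
  refine Finset.sum_congr rfl fun b _ => ?_
  have h1 : (-L) ^ (a - b) = ((-1 : ℤ) ^ (a - b)) • L ^ (a - b) := by
    rcases Nat.even_or_odd (a - b) with h'' | h''
    · rw [h''.neg_pow L, h''.neg_one_pow, one_smul]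
    · rw [h''.neg_pow L, h''.neg_one_pow, neg_smul, one_smul]
  have h2 : M ^ b * (-L) ^ (a - b) * ((a.choose b : ℕ) : Module.End R A) =
    ((-1) ^ (a - b) * (a.choose b : ℤ)) • (M ^ b * L ^ (a - b)) := by
    rw [h1, mul_smul_comm, smul_mul_assoc, mul_smul]
    congr 1
    rw [← nsmul_eq_mul', natCast_zsmul]
  rw [h2, LinearMap.smul_apply, Module.End.mul_apply, hL, hM]

theorem DL_pow_apply (x : Aˣ) (N : A) (hx : (x : A) = 1 + N) (E : A) (a : ℕ) :
    ((DL R x) ^ a) (((x⁻¹ : Aˣ) : A) * E) = ((x⁻¹ : Aˣ) : A) ^ (a + 1) * ((dL R N) ^ a) E := by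
  induction a with
  | zero => simp
  | succ a ih =>
    rw [pow_succ', Module.End.mul_apply, ih, pow_succ' (dL R N), Module.End.mul_apply, DL_apply]
    set Z := ((dL R N) ^ a) E
    have h1 : dL R N Z = Z * x - x * Z := by
      rw [hx]
      simp only [dL, LinearMap.sub_apply, LinearMap.mulRight_apply, LinearMap.mulLeft_apply]
      noncomm_ring
    have h2 : ((x⁻¹ : Aˣ) : A) ^ (a + 1 + 1) * (x * Z) = ((x⁻¹ : Aˣ) : A) ^ (a + 1) * Z := by
      rw [← mul_assoc, pow_succ _ (a + 1), mul_assoc _ ((x⁻¹ : Aˣ) : A) (x : A), Units.inv_mul, mul_one]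
    rw [h1, mul_sub, h2, pow_succ' _ (a + 1)]
    simp only [mul_assoc]

end ring

/-- In characteristic `> 2k-2`, with `V = x⁻¹E`, no element of the span of `D^i V` (`1 ≤ i ≤ 2k-2`)
equals `N^j` when `j + 1 < k`. -/
theorem NN_pow_not_mem {F : Type*} [Field F] {n k : ℕ} (hk : k ≤ n) (hk2 : 2 ≤ k)
    (hch : ((2 * k - 2).choose (k - 1) : F) ≠ 0) (x : (Matrix (Fin n) (Fin n) F)ˣ)
    (hx : (x : Matrix (Fin n) (Fin n) F) = 1 + NN F n k) (j : ℕ) (hj : j + 2 < k + 1) (a : ℕ → F)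
    (h : NN F n k ^ j = ∑ i ∈ range (2 * k - 2), a i • ((DL F x) ^ (i + 1)) (((x⁻¹ : (Matrix (Fin n) (Fin n) F)ˣ) : Matrix (Fin n) (Fin n) F) * EE F n k)) :
    False := by
  set N := NN F n k with hN
  set E := EE F n k with hE
  set V := ((x⁻¹ : (Matrix (Fin n) (Fin n) F)ˣ) : Matrix (Fin n) (Fin n) F) * E with hV
  have hd1 : ((dL F N) ^ (2 * k - 2 + 1)) E = 0 := by
    rw [dL_pow_apply]
    apply Finset.sum_eq_zero
    intro b hb
    have := Finset.mem_range.1 hb
    rw [pow_EE_pow hk, GG_eq_zero (by omega), smul_zero]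
  have hd2 : ((dL F N) ^ (2 * k - 2)) E = ((-1) ^ (k - 1) * ((2 * k - 2).choose (k - 1) : ℤ)) • GG F n k (k - 1) (k - 1) := by
    rw [dL_pow_apply, Finset.sum_eq_single (k - 1)]
    · rw [pow_EE_pow hk, show 2 * k - 2 - (k - 1) = k - 1 by omega]
    · intro b hb hbk
      have := Finset.mem_range.1 hb
      rw [pow_EE_pow hk, GG_eq_zero (by omega), smul_zero]
    · intro h1; exact absurd (Finset.mem_range.2 (by omega)) h1
  have hxG : ∀ s, ((x⁻¹ : (Matrix (Fin n) (Fin n) F)ˣ) : Matrix (Fin n) (Fin n) F) ^ s * GG F n k (k - 1) (k - 1) = GG F n k (k - 1) (k - 1) := by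
    intro s
    have h1 : (x : Matrix (Fin n) (Fin n) F) * GG F n k (k - 1) (k - 1) = GG F n k (k - 1) (k - 1) := by
      rw [hx, add_mul, one_mul, NN_mul_GG hk, GG_eq_zero (a := k - 1 + 1) (b := k - 1) (by omega), add_zero]
    have h2 : ((x⁻¹ : (Matrix (Fin n) (Fin n) F)ˣ) : Matrix (Fin n) (Fin n) F) * GG F n k (k - 1) (k - 1) = GG F n k (k - 1) (k - 1) := by
      conv_lhs => rw [← h1, ← mul_assoc, Units.inv_mul, one_mul]
    induction s with
    | zero => rw [pow_zero, one_mul]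
    | succ s ih => rw [pow_succ, mul_assoc, h2, ih]
  have hT0 : ((DL F x) ^ (2 * k - 2 + 1)) V = 0 := by
    rw [hV, DL_pow_apply x N hx, hd1, mul_zero]
  have hTK : ((DL F x) ^ (2 * k - 2)) V = ((-1) ^ (k - 1) * ((2 * k - 2).choose (k - 1) : ℤ)) • GG F n k (k - 1) (k - 1) := by
    rw [hV, DL_pow_apply x N hx, hd2, mul_smul_comm, hxG]
  have hn0 : 0 < n := by omega
  have hGne : GG F n k (k - 1) (k - 1) ⟨0, hn0⟩ ⟨k - 1, by omega⟩ = 1 := by
    simp only [GG]
    rw [if_pos ⟨by omega, trivial, by omega⟩]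
  have hTKne : ((DL F x) ^ (2 * k - 2)) V ≠ 0 := by
    rw [hTK]
    intro h0
    have h1 := congrFun (congrFun h0 ⟨0, hn0⟩) ⟨k - 1, by omega⟩
    rw [Matrix.smul_apply, hGne, Matrix.zero_apply, zsmul_eq_mul, mul_one, Int.cast_mul, Int.cast_pow,
      Int.cast_neg, Int.cast_one, Int.cast_natCast] at h1
    rcases mul_eq_zero.1 h1 with h2 | h2
    · exact pow_ne_zero _ (neg_ne_zero.2 one_ne_zero) h2
    · exact hch h2
  have hDN : DL F x (N ^ j) = 0 := by
    rw [DL_apply, hx]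
    have : N ^ j * (1 + N) = (1 + N) * N ^ j := by
      rw [mul_add, add_mul, mul_one, one_mul, ← pow_succ, ← pow_succ']
    rw [this, ← hx, ← mul_assoc, Units.inv_mul, one_mul, sub_self]
  have h3 := nilp_lemma (DL F x) V (2 * k - 2) (by omega) hT0 hTKne a (by rw [← h]; exact hDN)
  rw [← h, hTK] at h3
  have h4 := congrFun (congrFun h3 ⟨0, hn0⟩) ⟨j, by omega⟩
  rw [Matrix.smul_apply, Matrix.smul_apply] at h4
  have h5 : GG F n k (k - 1) (k - 1) ⟨0, hn0⟩ ⟨j, by omega⟩ = 0 := by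
    simp only [GG]
    rw [if_neg]
    omega
  rw [h5, smul_zero, smul_zero] at h4
  have h6 : (N ^ j) ⟨0, hn0⟩ ⟨j, by omega⟩ = 1 := by
    rcases Nat.eq_zero_or_pos j with rfl | hj0
    · rw [pow_zero]; exact Matrix.one_apply_eq _
    · obtain ⟨s, rfl⟩ : ∃ s, j = s + 1 := ⟨j - 1, by omega⟩
      rw [hN, NN_pow hk, if_pos]
      exact ⟨by simp, by simp only; omega⟩
  rw [h6] at h4
  exact one_ne_zero h4

end Pool.Agent.Helper24Reg
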