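import Mathlib
import Pool.Agent.Helper24_Reg.Nilp

namespace Pool.Agent.Helper24Reg

open Finset Matrix
open scoped commutatorElement

theorem Q1_eq_sum {A : Type*} [Ring A] (x E : A) (m : ℕ) :
    Q1 x E m = ∑ i ∈ range m, x ^ i * E * x ^ (m - 1 - i) := by
  induction m with
  | zero => simp
  | succ m ih =>
    rw [Q1_succ, ih, Finset.sum_range_succ, Finset.sum_mul]
    congr 1
    · refine Finset.sum_congr rfl fun i hi => ?_
      have := Finset.mem_range.1 hi
      rw [mul_assoc, ← pow_succ]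
      congr 2
      omega
    · rw [show m + 1 - 1 - m = 0 by omega, pow_zero, mul_one]

theorem dL_pow_EE_eq_zero {R : Type*} [CommRing R] {n k : ℕ} (hk : k ≤ n) (a : ℕ) (ha : 2 * k ≤ a + 1) :
    ((dL R (NN R n k)) ^ a) (EE R n k) = 0 := by
  rw [dL_pow_apply]
  apply Finset.sum_eq_zero
  intro b hb
  have := Finset.mem_range.1 hb
  rw [pow_EE_pow hk, GG_eq_zero (by omega), smul_zero]

theorem natCast_matrix_eq_zero (p n : ℕ) : ((p : ℕ) : Matrix (Fin n) (Fin n) (ZMod p)) = 0 := by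
  ext i j
  rw [← mul_one ((p : ℕ) : Matrix (Fin n) (Fin n) (ZMod p)), natCast_mul_apply, ZMod.natCast_self, zero_mul,
    Matrix.zero_apply]

theorem choose_ne_zero (p : ℕ) [hp : Fact p.Prime] (a b : ℕ) (hb : b ≤ a) (ha : a < p) :
    ((a.choose b : ℕ) : ZMod p) ≠ 0 := by
  intro h
  rw [ZMod.natCast_eq_zero_iff] at h
  have h1 : p ∣ a.factorial := by
    rw [← Nat.choose_mul_factorial_mul_factorial hb]
    exact Dvd.dvd.mul_right (Dvd.dvd.mul_right h _) _
  rw [hp.out.dvd_factorial] at h1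
  omega

section setup

variable (p n : ℕ) [hp : Fact p.Prime]

/-- reduction modulo `p` of matrices over `ℤ/p^r` (`r ≥ 1`). -/
noncomputable def redM (r : ℕ) (hr : r ≠ 0) : Matrix (Fin n) (Fin n) (ZMod (p ^ r)) →+* Matrix (Fin n) (Fin n) (ZMod p) :=
  (ZMod.castHom (dvd_pow_self p hr) (ZMod p)).mapMatrix

theorem redM_natCast_mul (r : ℕ) (hr : r ≠ 0) (C : Matrix (Fin n) (Fin n) (ZMod (p ^ r))) :
    redM p n r hr ((p : Matrix (Fin n) (Fin n) (ZMod (p ^ r))) * C) = 0 := by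
  rw [map_mul, map_natCast, natCast_matrix_eq_zero, zero_mul]

/-- the subspace spanned by the `D^(i+1) V`. -/
def SS {F : Type*} [Field F] {n : ℕ} (T : Module.End F (Matrix (Fin n) (Fin n) F)) (V : Matrix (Fin n) (Fin n) F) :
    Submodule F (Matrix (Fin n) (Fin n) F) :=
  Submodule.span F (Set.range fun i : ℕ => (T ^ (i + 1)) V)

theorem SS_stable {F : Type*} [Field F] {n : ℕ} (T : Module.End F (Matrix (Fin n) (Fin n) F))
    (V : Matrix (Fin n) (Fin n) F) (w : Matrix (Fin n) (Fin n) F) (hw : w ∈ SS T V) : T w ∈ SS T V := by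
  induction hw using Submodule.span_induction with
  | mem w hw =>
    obtain ⟨i, rfl⟩ := hw
    refine Submodule.subset_span ⟨i + 1, ?_⟩
    simp only
    rw [pow_succ' T (i + 1), Module.End.mul_apply]
  | zero => rw [map_zero]; exact Submodule.zero_mem _
  | add a b _ _ ha hb => rw [map_add]; exact Submodule.add_mem _ ha hb
  | smul c a _ ha => rw [map_smul]; exact Submodule.smul_mem _ _ ha

theorem SS_exists {F : Type*} [Field F] {n : ℕ} (T : Module.End F (Matrix (Fin n) (Fin n) F))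
    (V : Matrix (Fin n) (Fin n) F) (K : ℕ) (h0 : (T ^ (K + 1)) V = 0) (w : Matrix (Fin n) (Fin n) F) (hw : w ∈ SS T V) :
    ∃ a : ℕ → F, w = ∑ i ∈ range K, a i • (T ^ (i + 1)) V := by
  induction hw using Submodule.span_induction with
  | mem w hw =>
    obtain ⟨i, rfl⟩ := hw
    by_cases hi : i < K
    · refine ⟨fun j => if j = i then 1 else 0, ?_⟩
      rw [Finset.sum_eq_single i]
      · simp
      · intro b _ hb
        simp only
        rw [if_neg hb, zero_smul]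
      · intro h1; exact absurd (Finset.mem_range.2 hi) h1
    · refine ⟨fun _ => 0, ?_⟩
      simp only [zero_smul, Finset.sum_const_zero]
      obtain ⟨s, hs⟩ : ∃ s, i + 1 = s + (K + 1) := ⟨i - K, by omega⟩
      rw [hs, pow_add, Module.End.mul_apply, h0, map_zero]
  | zero => exact ⟨fun _ => 0, by simp⟩
  | add u v _ _ hu hv =>
    obtain ⟨a, rfl⟩ := hu
    obtain ⟨b, rfl⟩ := hv
    refine ⟨fun i => a i + b i, ?_⟩
    simp only [add_smul, Finset.sum_add_distrib]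
  | smul c u _ hu =>
    obtain ⟨a, rfl⟩ := hu
    refine ⟨fun i => c * a i, ?_⟩
    simp only [mul_smul, Finset.smul_sum]

/-- the subgroup of elements `1 + pC` with `C mod p` in a given subspace `S`. -/
def KS (r : ℕ) (hr : r ≠ 0) (S : Submodule (ZMod p) (Matrix (Fin n) (Fin n) (ZMod p))) :
    Subgroup (GL (Fin n) (ZMod (p ^ r))) where
  carrier := {g | ∃ C : Matrix (Fin n) (Fin n) (ZMod (p ^ r)), g.1 = 1 + p * C ∧ redM p n r hr C ∈ S}
  mul_mem' := by
    rintro g h ⟨C, hC, hCS⟩ ⟨C', hC', hCS'⟩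
    refine ⟨C + C' + p * (C * C'), ?_, ?_⟩
    · rw [Units.val_mul, hC, hC']
      have c1 : (p : Matrix (Fin n) (Fin n) (ZMod (p ^ r))) * C * (p * C') = p * (p * (C * C')) := by
        rw [mul_assoc, ← mul_assoc C, ← (Nat.cast_commute p C).eq]
        simp only [mul_assoc]
      rw [add_mul, mul_add, mul_add, c1]
      noncomm_ring
    · rw [map_add, map_add, redM_natCast_mul, add_zero]
      exact S.add_mem hCS hCS'
  one_mem' := ⟨0, by simp, by rw [map_zero]; exact S.zero_mem⟩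
  inv_mem' := by
    rintro g ⟨C, hC, hCS⟩
    have h1 : redM p n r hr g.1 = 1 := by
      rw [hC, map_add, map_one, redM_natCast_mul, add_zero]
    have h2 : redM p n r hr (g⁻¹ : GL (Fin n) (ZMod (p ^ r))).1 = 1 := by
      have h3 : redM p n r hr ((g⁻¹ : GL (Fin n) (ZMod (p ^ r))).1 * g.1) = 1 := by
        rw [Units.inv_mul, map_one]
      rw [map_mul, h1, mul_one] at h3
      exact h3
    refine ⟨-((g⁻¹ : GL (Fin n) (ZMod (p ^ r))).1 * C), ?_, ?_⟩
    · have h3 : (g⁻¹ : GL (Fin n) (ZMod (p ^ r))).1 * g.1 = 1 := Units.inv_mul g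
      rw [hC, mul_add, mul_one, ← mul_assoc, ← (Nat.cast_commute p (g⁻¹ : GL (Fin n) (ZMod (p ^ r))).1).eq,
        mul_assoc] at h3
      rw [mul_neg, eq_comm, ← sub_eq_add_neg, sub_eq_iff_eq_add]
      exact h3.symm
    · rw [map_neg, map_mul, h2, one_mul]
      exact S.neg_mem hCS

/-- the map `redM` intertwines the conjugation operators. -/
theorem redM_conj (r : ℕ) (hr : r ≠ 0) (x : (Matrix (Fin n) (Fin n) (ZMod (p ^ r)))ˣ) (Z : Matrix (Fin n) (Fin n) (ZMod (p ^ r))) :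
    redM p n r hr (((x⁻¹ : (Matrix (Fin n) (Fin n) (ZMod (p ^ r)))ˣ) : Matrix (Fin n) (Fin n) (ZMod (p ^ r))) * (Z * x)) =
      conjL (ZMod p) (Units.map (redM p n r hr : Matrix (Fin n) (Fin n) (ZMod (p ^ r)) →* Matrix (Fin n) (Fin n) (ZMod p)) x) (redM p n r hr Z) := by
  rw [conjL_apply, map_mul, map_mul]
  rfl

theorem redM_DL_pow (r : ℕ) (hr : r ≠ 0) (x : (Matrix (Fin n) (Fin n) (ZMod (p ^ r)))ˣ) (Z : Matrix (Fin n) (Fin n) (ZMod (p ^ r))) (t : ℕ) :
    redM p n r hr (((DL (ZMod (p ^ r)) x) ^ t) Z) =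
      ((DL (ZMod p) (Units.map (redM p n r hr : Matrix (Fin n) (Fin n) (ZMod (p ^ r)) →* Matrix (Fin n) (Fin n) (ZMod p)) x)) ^ t) (redM p n r hr Z) := by
  induction t with
  | zero => simp
  | succ t ih =>
    rw [pow_succ', Module.End.mul_apply, pow_succ', Module.End.mul_apply, ← ih, DL_apply, map_sub, redM_conj]
    rfl

/-- the kernel of multiplication by `p^2` modulo `p^3` -/
theorem redM_eq_zero_of_sq_mul (Z : Matrix (Fin n) (Fin n) (ZMod (p ^ 3)))
    (h : (p : Matrix (Fin n) (Fin n) (ZMod (p ^ 3))) ^ 2 * Z = 0) : redM p n 3 (by norm_num) Z = 0 := by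
  ext i j
  have h1 : ((p : ZMod (p ^ 3)) ^ 2) * Z i j = 0 := by
    have := congrFun (congrFun h i) j
    rw [← Nat.cast_pow, natCast_mul_apply, Nat.cast_pow] at this
    exact this
  have hne : NeZero (p ^ 3) := ⟨pow_ne_zero _ hp.out.ne_zero⟩
  change (ZMod.castHom (dvd_pow_self p (by norm_num : (3 : ℕ) ≠ 0)) (ZMod p)) (Z i j) = 0
  obtain ⟨z, hz⟩ : ∃ z : ℕ, (z : ZMod (p ^ 3)) = Z i j := ⟨(Z i j).val, ZMod.natCast_zmod_val _⟩
  rw [← hz] at h1 ⊢
  rw [map_natCast, ZMod.natCast_eq_zero_iff]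
  rw [← Nat.cast_pow, ← Nat.cast_mul, ZMod.natCast_eq_zero_iff, pow_succ (n := 2)] at h1
  exact Nat.dvd_of_mul_dvd_mul_left (pow_pos hp.out.pos 2) h1

end setup

/-- `n × n` matrices over `ℤ/p^3` -/
abbrev M3 (p n : ℕ) := Matrix (Fin n) (Fin n) (ZMod (p ^ 3))

theorem prod_pow_form (p n : ℕ) [hp : Fact p.Prime] (hodd : p ≠ 2)
    (S : Submodule (ZMod p) (Matrix (Fin n) (Fin n) (ZMod p)))
    (l : List (GL (Fin n) (ZMod (p ^ 3)))) (hl : ∀ c ∈ l, c ∈ KS p n 3 (by norm_num) S) :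
    ∃ C : M3 p n, ((l.map (fun c => c ^ p)).prod).1 = 1 + (p : M3 p n) ^ 2 * C ∧
      redM p n 3 (by norm_num) C ∈ S := by
  have h3 : ((p : ℕ) : M3 p n) ^ 3 = 0 := by
    ext i j
    rw [← Nat.cast_pow, ← mul_one (((p ^ 3 : ℕ)) : M3 p n), natCast_mul_apply,
      ZMod.natCast_self, zero_mul, Matrix.zero_apply]
  induction l with
  | nil => exact ⟨0, by simp, by rw [map_zero]; exact S.zero_mem⟩
  | cons c l ih =>
    obtain ⟨C, hC, hCS⟩ := ih (fun c hc => hl c (List.mem_cons_of_mem _ hc))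
    obtain ⟨C', hC', hCS'⟩ := hl c List.mem_cons_self
    refine ⟨C' + C, ?_, by rw [map_add]; exact S.add_mem hCS' hCS⟩
    rw [List.map_cons, List.prod_cons, Units.val_mul, Units.val_pow_eq_pow_val, hC, hC',
      one_add_mul_pow p hodd h3]
    have c1 : (p : M3 p n) ^ 2 * C' * ((p : M3 p n) ^ 2 * C) = 0 := by
      rw [mul_assoc, ← mul_assoc C', ← ((Nat.cast_commute p C').pow_left 2).eq, ← mul_assoc, ← mul_assoc,
        ← pow_add, show 2 + 2 = 3 + 1 by norm_num, pow_add, h3, zero_mul, zero_mul, zero_mul]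
    rw [add_mul, mul_add, mul_add, c1]
    noncomm_ring

theorem irr3_pair (p n k : ℕ) [hp : Fact p.Prime] (hk : k ≤ n) (h2 : 2 * k < p) (h3k : p + 2 ≤ 3 * k)
    (x z : GL (Fin n) (ZMod (p ^ 3))) (hx : x.1 = 1 + NN (ZMod (p ^ 3)) n k)
    (hz : z.1 = 1 + PiM (ZMod (p ^ 3)) p n k) : ¬ RegPair p x (x⁻¹ * z) := by
  have hr : (3 : ℕ) ≠ 0 := by norm_num
  have hk3 : 3 ≤ k := by omega
  have hodd : p ≠ 2 := by omega
  have hne : NeZero (p ^ 3) := ⟨pow_ne_zero _ hp.out.ne_zero⟩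
  have hfin : Finite (GL (Fin n) (ZMod (p ^ 3))) := by
    unfold Matrix.GeneralLinearGroup
    infer_instance
  have h3 : ((p : ℕ) : M3 p n) ^ 3 = 0 := by
    ext i j
    rw [← Nat.cast_pow, ← mul_one (((p ^ 3 : ℕ)) : M3 p n), natCast_mul_apply,
      ZMod.natCast_self, zero_mul, Matrix.zero_apply]
  set N := NN (ZMod (p ^ 3)) n k with hN
  set E := EE (ZMod (p ^ 3)) n k with hE
  set y := x⁻¹ * z with hy
  set V : M3 p n := (x⁻¹).1 * E with hV
  set φ := redM p n 3 hr with hφ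
  set T : Module.End (ZMod p) (Matrix (Fin n) (Fin n) (ZMod p)) := DL (ZMod p) (Units.map (φ : _ →* _) x) with hT
  set S := SS T (φ V) with hS
  have hPi : PiM (ZMod (p ^ 3)) p n k = N + (p : M3 p n) * E := rfl
  have hzx : z.1 = x.1 + (p : M3 p n) * E := by rw [hz, hx, hPi]; abel
  have hyv : y.1 = 1 + (p : M3 p n) * V := by
    rw [hy, Units.val_mul, hzx, mul_add, Units.inv_mul, hV, ← mul_assoc, ← (Nat.cast_commute p (x⁻¹).1).eq, mul_assoc]
  -- conjugation by x on S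
  have hconj : ∀ w, w ∈ S → conjL (ZMod p) (Units.map (φ : _ →* _) x) w ∈ S := by
    intro w hw
    have h1 : conjL (ZMod p) (Units.map (φ : _ →* _) x) w = T w + w := by
      rw [hT, DL, LinearMap.sub_apply, Module.End.one_apply, sub_add_cancel]
    rw [h1]
    exact S.add_mem (SS_stable _ _ _ hw) hw
  have hφy : φ y.1 = 1 := by rw [hyv, map_add, map_one, redM_natCast_mul, add_zero]
  have hφyi : φ (y⁻¹).1 = 1 := by
    have h4 : φ ((y⁻¹).1 * y.1) = 1 := by rw [Units.inv_mul, map_one]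
    rw [map_mul, hφy, mul_one] at h4
    exact h4
  have hKx : ∀ g ∈ KS p n 3 hr S, x⁻¹ * g * x ∈ KS p n 3 hr S := by
    rintro g ⟨C, hC, hCS⟩
    refine ⟨(x⁻¹).1 * (C * x.1), ?_, ?_⟩
    · rw [Units.val_mul, Units.val_mul, hC, mul_add, mul_one, add_mul, Units.inv_mul, ← mul_assoc (x⁻¹).1,
        ← (Nat.cast_commute p (x⁻¹).1).eq]
      simp only [mul_assoc]
    · rw [redM_conj]; exact hconj _ hCS
  have hKy : ∀ g ∈ KS p n 3 hr S, y⁻¹ * g * y ∈ KS p n 3 hr S := by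
    rintro g ⟨C, hC, hCS⟩
    refine ⟨(y⁻¹).1 * (C * y.1), ?_, ?_⟩
    · rw [Units.val_mul, Units.val_mul, hC, mul_add, mul_one, add_mul, Units.inv_mul, ← mul_assoc (y⁻¹).1,
        ← (Nat.cast_commute p (y⁻¹).1).eq]
      simp only [mul_assoc]
    · change φ _ ∈ S
      rw [map_mul, map_mul, hφy, hφyi, one_mul, mul_one]; exact hCS
  have hKx' := conj_mem_of_finite _ x hKx
  have hKy' := conj_mem_of_finite _ y hKy
  have hcomm0 : y⁻¹ * (x⁻¹ * y * x) ∈ KS p n 3 hr S := by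
    refine ⟨(y⁻¹).1 * ((x⁻¹).1 * (V * x.1) - V), ?_, ?_⟩
    · have e1 : (x⁻¹ * y * x).1 = y.1 + (p : M3 p n) * ((x⁻¹).1 * (V * x.1) - V) := by
        rw [Units.val_mul, Units.val_mul, hyv, mul_add, mul_one, add_mul, Units.inv_mul, ← mul_assoc (x⁻¹).1,
          ← (Nat.cast_commute p (x⁻¹).1).eq]
        simp only [mul_assoc, mul_sub]
        abel
      rw [Units.val_mul, e1, mul_add, Units.inv_mul, ← mul_assoc, ← (Nat.cast_commute p (y⁻¹).1).eq, mul_assoc]
    · change φ _ ∈ S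
      rw [map_mul, hφyi, one_mul, map_sub, redM_conj]
      refine Submodule.subset_span ⟨0, ?_⟩
      simp only [zero_add, pow_one]
      rfl
  have hcomm : ⁅x, y⁆ ∈ KS p n 3 hr S := by
    have h4 := (KS p n 3 hr S).inv_mem (hKx' _ (hKy' _ hcomm0))
    have e : (x * (y * (y⁻¹ * (x⁻¹ * y * x)) * y⁻¹) * x⁻¹)⁻¹ = ⁅x, y⁆ := by
      rw [commutatorElement_def]; group
    rw [e] at h4
    exact h4
  have hle := commutator_closure_le (KS p n 3 hr S) x y hKx hKx' hKy hKy' hcomm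
  rintro ⟨l, hl, he⟩
  obtain ⟨C, hC, hCS⟩ := prod_pow_form p n hodd S l (fun c hc => hle (hl c hc))
  -- the matrix identity
  have hxy : x * y = z := by rw [hy]; group
  rw [hxy] at he
  have he1 : z.1 ^ p = x.1 ^ p * (1 + (p : M3 p n) ^ 2 * V) * (1 + (p : M3 p n) ^ 2 * C) := by
    have := congrArg Units.val he
    rw [Units.val_pow_eq_pow_val, Units.val_mul, Units.val_mul, Units.val_pow_eq_pow_val,
      Units.val_pow_eq_pow_val, hC, hyv, one_add_mul_pow p hodd h3] at this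
    exact this
  -- x^p = 1 + p * (...)
  have hNp : N ^ p = 0 := NN_pow_eq_zero hk p (by omega) (by omega)
  obtain ⟨W, hW⟩ : ∃ W, x.1 ^ p = 1 + (p : M3 p n) * W := by
    rw [hx, add_comm, (Commute.one_right N).add_pow, Finset.sum_range_succ, hNp, zero_mul, zero_mul, add_zero,
      Finset.range_eq_Ico, Finset.sum_eq_sum_Ico_succ_bot hp.out.pos]
    have : ∀ m ∈ Ico (0 + 1) p, ∃ c : M3 p n, N ^ m * 1 ^ (p - m) * (p.choose m : M3 p n) = (p : M3 p n) * c := by
      intro m hm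
      rw [Finset.mem_Ico] at hm
      obtain ⟨c, hc⟩ := hp.out.dvd_choose_self (k := m) (by omega) hm.2
      refine ⟨N ^ m * c, ?_⟩
      rw [hc, one_pow, mul_one, Nat.cast_mul, ← mul_assoc, ← (Nat.cast_commute p (N ^ m)).eq, mul_assoc]
    choose! c hc using this
    refine ⟨∑ m ∈ Ico (0 + 1) p, c m, ?_⟩
    rw [Finset.sum_congr rfl hc, Finset.mul_sum]
    simp
  have hp2x : (p : M3 p n) ^ 2 * x.1 ^ p = (p : M3 p n) ^ 2 := by
    rw [hW, mul_add, mul_one, ← mul_assoc, ← pow_succ, h3, zero_mul, add_zero]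
  have hp4 : (p : M3 p n) ^ 4 = 0 := by
    rw [pow_succ, h3, zero_mul]
  have hcp2 : ∀ Z : M3 p n, Z * (p : M3 p n) ^ 2 = (p : M3 p n) ^ 2 * Z :=
    fun Z => ((Nat.cast_commute p Z).pow_left 2).eq.symm
  have he2 : z.1 ^ p - x.1 ^ p = (p : M3 p n) ^ 2 * (V + C) := by
    rw [he1]
    have e1 : (p : M3 p n) ^ 2 * V * ((p : M3 p n) ^ 2 * C) = 0 := by
      rw [mul_assoc, ← mul_assoc V, hcp2 V, ← mul_assoc, ← mul_assoc, ← pow_add, hp4, zero_mul, zero_mul]
    have e2 : x.1 ^ p * (1 + (p : M3 p n) ^ 2 * V) * (1 + (p : M3 p n) ^ 2 * C) = x.1 ^ p + x.1 ^ p * ((p : M3 p n) ^ 2 * (V + C)) +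
        x.1 ^ p * (((p : M3 p n) ^ 2 * V) * ((p : M3 p n) ^ 2 * C)) := by
      noncomm_ring
    rw [e2, e1, mul_zero, add_zero, ← mul_assoc, hcp2, hp2x]
    abel
  -- compute z^p - x^p directly
  have hQN : Q1 N E p = 0 := by
    rw [Q1_eq_sum]
    apply Finset.sum_eq_zero
    intro i hi
    have := Finset.mem_range.1 hi
    rw [pow_EE_pow hk, GG_eq_zero (by omega)]
  have hPip : (N + (p : M3 p n) * E) ^ p = (p : M3 p n) ^ 2 * N ^ (p - 2 * k) := by
    obtain ⟨t, ht⟩ : ∃ t, p = k + (k + t + 1) := ⟨p - 2 * k - 1, by omega⟩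
    have e0 : p - 2 * k = t + 1 := by omega
    rw [e0]
    have e1 : (N + (p : M3 p n) * E) ^ (k + (k + t + 1)) = (p : M3 p n) ^ 2 * (N + (p : M3 p n) * E) ^ (t + 1) := by
      rw [← hPi, PiM_pow_add hk (by omega) (k + t), show k + t + 1 = k + (t + 1) by ring, PiM_pow_add hk (by omega) t,
        ← mul_assoc, pow_two]
    have e2 : (N + (p : M3 p n) * E) ^ p = (N + (p : M3 p n) * E) ^ (k + (k + t + 1)) := by rw [← ht]
    rw [e2, e1]
    obtain ⟨Z, hZ⟩ := var_pow p N E (t + 1)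
    rw [hZ, mul_add, mul_add, ← mul_assoc, ← pow_succ, h3, zero_mul, add_zero, ← mul_assoc, ← pow_add, hp4,
      zero_mul, add_zero]
  have hdiff := pow_sub_pow (A := M3 p n) p h3 N E
  rw [hQN, sub_zero, hNp, sub_zero, hPip, ← hx] at hdiff
  have hz' : 1 + (N + (p : M3 p n) * E) = z.1 := by rw [hz, hPi]
  rw [hz', he2, Q1_eq_conj (R := ZMod (p ^ 3)) x E p, geom_sum_conj] at hdiff
  -- Q1 in terms of D
  obtain ⟨s, hs, hsS⟩ : ∃ s : M3 p n,
      (∑ t ∈ range p, (p.choose (t + 1) : Module.End (ZMod (p ^ 3)) (M3 p n)) *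
        (conjL (ZMod (p ^ 3)) x - 1) ^ t : Module.End (ZMod (p ^ 3)) (M3 p n)) ((x⁻¹).1 * E) = (p : M3 p n) * (V + s) ∧ φ s ∈ S := by
    obtain ⟨r, hr'⟩ : ∃ r, p = r + 1 + 1 := ⟨p - 2, by omega⟩
    have hcc : ∀ t ∈ range r, ∃ c : ℕ, p.choose (t + 1 + 1) = p * c := by
      intro t ht
      have := Finset.mem_range.1 ht
      exact hp.out.dvd_choose_self (by omega) (by omega)
    choose! c hc using hcc
    refine ⟨∑ t ∈ range r, c t • ((DL (ZMod (p ^ 3)) x) ^ (t + 1)) V, ?_, ?_⟩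
    · have hrange : range p = range (r + 1 + 1) := by rw [← hr']
      rw [hrange, Finset.sum_range_succ, Finset.sum_range_succ']
      have hlast : ((DL (ZMod (p ^ 3)) x) ^ (r + 1)) V = 0 := by
        rw [hV, DL_pow_apply x N hx, dL_pow_EE_eq_zero hk _ (by omega), mul_zero]
      have hlast' : ((p.choose (r + 1 + 1) : Module.End (ZMod (p ^ 3)) (M3 p n)) *
        (conjL (ZMod (p ^ 3)) x - 1) ^ (r + 1) : Module.End (ZMod (p ^ 3)) (M3 p n)) V = 0 := by
        rw [Module.End.mul_apply]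
        change _ = _
        have : ((conjL (ZMod (p ^ 3)) x - 1) ^ (r + 1)) V = 0 := hlast
        rw [this, map_zero]
      rw [LinearMap.add_apply, LinearMap.add_apply]
      change _ + _ + ((p.choose (r + 1 + 1) : Module.End (ZMod (p ^ 3)) (M3 p n)) *
        (conjL (ZMod (p ^ 3)) x - 1) ^ (r + 1) : Module.End (ZMod (p ^ 3)) (M3 p n)) V = _
      rw [hlast', add_zero, LinearMap.sum_apply, mul_add, Finset.mul_sum, add_comm]
      congr 1
      · rw [zero_add, Nat.choose_one_right, pow_zero, mul_one, Module.End.natCast_apply, nsmul_eq_mul]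
      · refine Finset.sum_congr rfl fun t ht => ?_
        rw [hc t ht, Module.End.mul_apply, Module.End.natCast_apply, ← nsmul_eq_mul, mul_smul]
        rfl
    · change φ _ ∈ S
      rw [map_sum]
      refine Submodule.sum_mem _ fun t _ => ?_
      rw [map_nsmul, redM_DL_pow]
      refine Submodule.smul_of_tower_mem _ _ (Submodule.subset_span ⟨t, rfl⟩)
  rw [hs] at hdiff
  have hfin2 : (p : M3 p n) ^ 2 * (N ^ (p - 2 * k) + s - C) = 0 := by
    have e1 : (p : M3 p n) * (x.1 ^ p * ((p : M3 p n) * (V + s))) = (p : M3 p n) ^ 2 * (V + s) := by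
      rw [← mul_assoc (x.1 ^ p), ← (Nat.cast_commute p (x.1 ^ p)).eq, ← mul_assoc, ← mul_assoc, ← pow_two, hp2x]
    rw [e1] at hdiff
    have e2 : (p : M3 p n) ^ 2 * (N ^ (p - 2 * k) + s - C) =
      ((p : M3 p n) ^ 2 * N ^ (p - 2 * k) + (p : M3 p n) ^ 2 * (V + s)) - (p : M3 p n) ^ 2 * (V + C) := by noncomm_ring
    rw [e2, ← hdiff, sub_self]
  have hred := redM_eq_zero_of_sq_mul p n _ hfin2
  change φ _ = 0 at hred
  have hNjS : φ (N ^ (p - 2 * k)) ∈ S := by
    rw [map_sub, map_add] at hred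
    have : φ (N ^ (p - 2 * k)) = φ C - φ s := by
      rw [eq_sub_iff_add_eq]; exact sub_eq_zero.1 hred
    rw [this]
    exact S.sub_mem hCS hsS
  have hφN : φ N = NN (ZMod p) n k := by
    ext i j
    change (ZMod.castHom (dvd_pow_self p hr) (ZMod p)) (N i j) = _
    simp only [hN, NN]
    split_ifs <;> simp
  have hφE : φ E = EE (ZMod p) n k := by
    ext i j
    change (ZMod.castHom (dvd_pow_self p hr) (ZMod p)) (E i j) = _
    simp only [hE, EE]
    split_ifs <;> simp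
  have hφV : φ V = ((Units.map (φ : _ →* _) x)⁻¹).1 * EE (ZMod p) n k := by
    rw [hV, map_mul, hφE]; rfl
  have hxF : (Units.map (φ : _ →* _) x).1 = 1 + NN (ZMod p) n k := by
    change φ x.1 = _
    rw [hx, map_add, map_one, hφN]
  have hT0 : (T ^ (2 * k - 2 + 1)) (φ V) = 0 := by
    rw [hφV, hT, DL_pow_apply _ _ hxF, dL_pow_EE_eq_zero hk _ (by omega), mul_zero]
  obtain ⟨a, ha⟩ := SS_exists T (φ V) (2 * k - 2) hT0 _ hNjS
  rw [map_pow, hφN, hφV] at ha
  exact NN_pow_not_mem hk (by omega) (choose_ne_zero p _ _ (by omega) (by omega)) _ hxF (p - 2 * k) (by omega) a ha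

end Pool.Agent.Helper24Reg
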