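import Mathlib
import Pool.Agent.Helper24_Reg.Irr3

namespace Pool.Agent.Helper24Reg

open Finset Matrix
open scoped commutatorElement

/-- `n × n` matrices over `ℤ/p^2` -/
abbrev M2 (p n : ℕ) := Matrix (Fin n) (Fin n) (ZMod (p ^ 2))

theorem one_add_mul_pow' {A : Type*} [Ring A] (p : ℕ) (h2 : (p : A) ^ 2 = 0) (C : A) :
    (1 + (p : A) * C) ^ p = 1 := by
  rw [add_comm, (Commute.one_right ((p : A) * C)).add_pow, Finset.sum_range_succ', Finset.sum_eq_zero]
  · simp
  · intro k _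
    rcases Nat.eq_zero_or_pos k with rfl | hk
    · simp only [zero_add, pow_one, one_pow, mul_one, Nat.choose_one_right]
      rw [← (Nat.cast_commute p ((p : A) * C)).eq, ← mul_assoc, ← pow_two, h2, zero_mul]
    · have hcp : ((p : A) * C) ^ (k + 1) = (p : A) ^ (k + 1) * C ^ (k + 1) := by
        rw [(Nat.cast_commute p C).mul_pow]
      have : (p : A) ^ (k + 1) = 0 := by
        obtain ⟨s, rfl⟩ : ∃ s, k = s + 1 := ⟨k - 1, by omega⟩
        rw [show s + 1 + 1 = s + 2 by ring, pow_add, h2, mul_zero]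
      rw [hcp, this, zero_mul, zero_mul, zero_mul]

theorem pow_sub_pow' {A : Type*} [Ring A] (p : ℕ) [hp : Fact p.Prime] (h2 : (p : A) ^ 2 = 0) (N E : A) :
    (1 + (N + p * E)) ^ p - (1 + N) ^ p = (N + p * E) ^ p - N ^ p := by
  have hx : ∀ X : A, (1 + X) ^ p = ∑ k ∈ range (p + 1), (p.choose k : A) * X ^ k := by
    intro X
    rw [add_comm, (Commute.one_right X).add_pow]
    refine Finset.sum_congr rfl fun k _ => ?_
    rw [one_pow, mul_one, (Nat.cast_commute (p.choose k) (X ^ k)).eq]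
  rw [hx, hx, ← Finset.sum_sub_distrib, Finset.sum_range_succ, Finset.sum_eq_zero]
  · simp
  · intro k hk
    rw [← mul_sub]
    rcases Nat.eq_zero_or_pos k with rfl | hk0
    · simp
    · obtain ⟨c, hc⟩ := hp.out.dvd_choose_self hk0.ne' (Finset.mem_range.1 hk)
      obtain ⟨Z, hZ⟩ := var_pow p N E k
      rw [hZ, hc, Nat.cast_mul, (Nat.cast_commute p (c : A)).eq, mul_assoc, h2, zero_mul, add_zero,
        add_sub_cancel_left, ← mul_assoc (p : A), ← pow_two, h2, zero_mul, mul_zero]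

theorem irr2_pair (p n k : ℕ) [hp : Fact p.Prime] (hk : k ≤ n) (h1 : k ≤ p) (h2k : p < 2 * k)
    (x z : GL (Fin n) (ZMod (p ^ 2))) (hx : x.1 = 1 + NN (ZMod (p ^ 2)) n k)
    (hz : z.1 = 1 + PiM (ZMod (p ^ 2)) p n k) : ¬ RegPair p x (x⁻¹ * z) := by
  have hr : (2 : ℕ) ≠ 0 := by norm_num
  have hk2 : 2 ≤ k := by have := hp.out.two_le; omega
  have hne : NeZero (p ^ 2) := ⟨pow_ne_zero _ hp.out.ne_zero⟩
  have hfin : Finite (GL (Fin n) (ZMod (p ^ 2))) := by
    unfold Matrix.GeneralLinearGroup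
    infer_instance
  have h2 : ((p : ℕ) : M2 p n) ^ 2 = 0 := by
    ext i j
    rw [← Nat.cast_pow, ← mul_one (((p ^ 2 : ℕ)) : M2 p n), natCast_mul_apply,
      ZMod.natCast_self, zero_mul, Matrix.zero_apply]
  set N := NN (ZMod (p ^ 2)) n k with hN
  set E := EE (ZMod (p ^ 2)) n k with hE
  set y := x⁻¹ * z with hy
  set V : M2 p n := (x⁻¹).1 * E with hV
  have hPi : PiM (ZMod (p ^ 2)) p n k = N + (p : M2 p n) * E := rfl
  have hzx : z.1 = x.1 + (p : M2 p n) * E := by rw [hz, hx, hPi]; abel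
  have hyv : y.1 = 1 + (p : M2 p n) * V := by
    rw [hy, Units.val_mul, hzx, mul_add, Units.inv_mul, hV, ← mul_assoc, ← (Nat.cast_commute p (x⁻¹).1).eq, mul_assoc]
  have hconj : ∀ (a : GL (Fin n) (ZMod (p ^ 2))), ∀ g ∈ KS p n 2 hr ⊤, a⁻¹ * g * a ∈ KS p n 2 hr ⊤ := by
    rintro a g ⟨C, hC, -⟩
    refine ⟨(a⁻¹).1 * (C * a.1), ?_, trivial⟩
    rw [Units.val_mul, Units.val_mul, hC, mul_add, mul_one, add_mul, Units.inv_mul, ← mul_assoc (a⁻¹).1,
        ← (Nat.cast_commute p (a⁻¹).1).eq]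
    simp only [mul_assoc]
  have hconj' : ∀ (a : GL (Fin n) (ZMod (p ^ 2))), ∀ g ∈ KS p n 2 hr ⊤, a * g * a⁻¹ ∈ KS p n 2 hr ⊤ :=
    fun a => conj_mem_of_finite _ a (hconj a)
  have hyK : y ∈ KS p n 2 hr ⊤ := ⟨V, hyv, trivial⟩
  have hcomm : ⁅x, y⁆ ∈ KS p n 2 hr ⊤ := by
    rw [commutatorElement_def]
    exact (KS p n 2 hr ⊤).mul_mem (hconj' x _ hyK) ((KS p n 2 hr ⊤).inv_mem hyK)
  have hle := commutator_closure_le (KS p n 2 hr ⊤) x y (hconj x) (hconj' x) (hconj y) (hconj' y) hcomm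
  rintro ⟨l, hl, he⟩
  have hpow : ∀ g ∈ KS p n 2 hr ⊤, g ^ p = 1 := by
    rintro g ⟨C, hC, -⟩
    apply Units.ext
    rw [Units.val_pow_eq_pow_val, hC, one_add_mul_pow' p h2, Units.val_one]
  have hprod : (l.map (fun c => c ^ p)).prod = 1 := by
    apply List.prod_eq_one
    intro c hc
    obtain ⟨d, hd, rfl⟩ := List.mem_map.1 hc
    exact hpow d (hle (hl d hd))
  have hxy : x * y = z := by rw [hy]; group
  rw [hprod, hxy, hpow y hyK, mul_one, mul_one] at he
  have he1 : z.1 ^ p - x.1 ^ p = 0 := by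
    rw [← Units.val_pow_eq_pow_val, he, Units.val_pow_eq_pow_val, sub_self]
  have hdiff := pow_sub_pow' p h2 N E
  have hz' : 1 + (N + (p : M2 p n) * E) = z.1 := by rw [hz, hPi]
  rw [hz', ← hx, he1, NN_pow_eq_zero hk p h1 (by omega), sub_zero, ← hPi] at hdiff
  have hn0 : 0 < n := by omega
  have hpne : ((p : ℕ) : ZMod (p ^ 2)) ≠ 0 := by
    intro h0
    rw [ZMod.natCast_eq_zero_iff] at h0
    have := Nat.le_of_dvd hp.out.pos h0
    have h4 := hp.out.two_le
    nlinarith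
  have key : (PiM (ZMod (p ^ 2)) p n k ^ p) ⟨0, hn0⟩ ⟨p - k, by omega⟩ = (p : ZMod (p ^ 2)) := by
    rcases Nat.eq_or_lt_of_le h1 with h5 | h5
    · have e : PiM (ZMod (p ^ 2)) p n k ^ p = PiM (ZMod (p ^ 2)) p n k ^ k := by rw [← h5]
      rw [e, PiM_pow_k hk (by omega), natCast_mul_apply]
      simp only [eM]
      rw [if_pos, mul_one]
      refine ⟨?_, by omega⟩
      apply Fin.ext
      simp only
      omega
    · obtain ⟨t, ht⟩ : ∃ t, p = k + (t + 1) := ⟨p - k - 1, by omega⟩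
      have e : PiM (ZMod (p ^ 2)) p n k ^ p = PiM (ZMod (p ^ 2)) p n k ^ (k + (t + 1)) := by rw [← ht]
      rw [e, PiM_pow_add hk (by omega), natCast_mul_apply, hPi]
      obtain ⟨Z, hZ⟩ := var_pow p N E (t + 1)
      rw [hZ, h2, zero_mul, add_zero, Matrix.add_apply, natCast_mul_apply, mul_add, ← mul_assoc, ← pow_two]
      have h6 : ((p : ℕ) : ZMod (p ^ 2)) ^ 2 = 0 := by
        rw [← Nat.cast_pow, ZMod.natCast_self]
      rw [h6, zero_mul, add_zero, hN, NN_pow hk, if_pos, mul_one]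
      simp only
      omega
  rw [← hdiff, Matrix.zero_apply] at key
  exact hpne key.symm

/-- integral matrix `1 + N` over any ring -/
theorem PCond_one_add_NN {R : Type*} [CommRing R] (q : R) (n k : ℕ) : PCond q (1 + NN R n k) := by
  refine ⟨fun i => ?_, fun i j hij => ?_⟩
  · rw [Matrix.add_apply, Matrix.one_apply_eq, add_sub_cancel_left]
    simp only [NN]
    rw [if_neg (by omega)]
    exact dvd_zero _
  · rw [Matrix.add_apply, Matrix.one_apply_ne (ne_of_gt hij), zero_add]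
    simp only [NN]
    have : j.val < i.val := hij
    rw [if_neg (by omega)]
    exact dvd_zero _

theorem PCond_one_add_PiM {R : Type*} [CommRing R] (q : ℕ) (n k : ℕ) (hk : 2 ≤ k) : PCond (q : R) (1 + PiM R q n k) := by
  refine ⟨fun i => ?_, fun i j hij => ?_⟩
  · rw [Matrix.add_apply, Matrix.one_apply_eq, add_sub_cancel_left, PiM_apply]
    rw [if_neg (by omega), if_neg (by omega), mul_zero, add_zero]
    exact dvd_zero _
  · rw [Matrix.add_apply, Matrix.one_apply_ne (ne_of_gt hij), zero_add, PiM_apply]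
    have : j.val < i.val := hij
    rw [if_neg (by omega), zero_add]
    exact dvd_mul_right _ _

/-- A matrix over `ℤ/p^m` satisfying `PCond` is invertible. -/
theorem PCond.isUnit {p m n : ℕ} [hp : Fact p.Prime] (hm : m ≠ 0) {A : Matrix (Fin n) (Fin n) (ZMod (p ^ m))}
    (hA : PCond ((p : ℕ) : ZMod (p ^ m)) A) : IsUnit A := by
  rw [Matrix.isUnit_iff_isUnit_det]
  have hne : NeZero (p ^ m) := ⟨pow_ne_zero _ hp.out.ne_zero⟩
  let f := ZMod.castHom (dvd_pow_self p hm) (ZMod p)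
  have hf : ∀ r : ZMod (p ^ m), ((p : ℕ) : ZMod (p ^ m)) ∣ r → f r = 0 := by
    rintro r ⟨s, rfl⟩
    rw [map_mul, map_natCast, ZMod.natCast_self, zero_mul]
  have hdet : f A.det = 1 := by
    rw [RingHom.map_det]
    have hup : (f.mapMatrix A).BlockTriangular id := by
      intro i j hij
      exact hf _ (hA.2 i j hij)
    rw [Matrix.det_of_isUpperTriangular hup]
    apply Finset.prod_eq_one
    intro i _
    have := hf _ (hA.1 i)
    rw [map_sub, map_one, sub_eq_zero] at this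
    exact this
  obtain ⟨z, hz⟩ : ∃ z : ℕ, (z : ZMod (p ^ m)) = A.det := ⟨(A.det).val, ZMod.natCast_zmod_val _⟩
  rw [← hz] at hdet ⊢
  rw [ZMod.isUnit_iff_coprime]
  rw [map_natCast] at hdet
  apply Nat.Coprime.pow_right
  rw [← ZMod.isUnit_iff_coprime, hdet]
  exact isUnit_one

/-- Passing a regular identity from `P p m n` to `GL` over a smaller modulus. -/
theorem IsRegular.regPair_map {p m n r : ℕ} [hp : Fact p.Prime] (hm : m ≠ 0) (hrm : r ≤ m)
    (h : IsRegular p (P p m n)) (X Z : Matrix (Fin n) (Fin n) (ZMod (p ^ m)))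
    (hX : PCond ((p : ℕ) : ZMod (p ^ m)) X) (hZ : PCond ((p : ℕ) : ZMod (p ^ m)) Z) :
    ∃ x z : GL (Fin n) (ZMod (p ^ r)),
      x.1 = (ZMod.castHom (pow_dvd_pow p hrm) (ZMod (p ^ r))).mapMatrix X ∧
      z.1 = (ZMod.castHom (pow_dvd_pow p hrm) (ZMod (p ^ r))).mapMatrix Z ∧ RegPair p x (x⁻¹ * z) := by
  let x0 : P p m n := ⟨(hX.isUnit hm).unit, hX⟩
  let z0 : P p m n := ⟨(hZ.isUnit hm).unit, hZ⟩
  let f : P p m n →* GL (Fin n) (ZMod (p ^ r)) :=
    (Matrix.GeneralLinearGroup.map (ZMod.castHom (pow_dvd_pow p hrm) (ZMod (p ^ r)))).comp (P p m n).subtype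
  refine ⟨f x0, f z0, rfl, rfl, ?_⟩
  have := (h x0 (x0⁻¹ * z0)).map f
  rw [map_mul, map_inv] at this
  exact this

theorem map_NN {R S : Type*} [CommRing R] [CommRing S] (f : R →+* S) (n k : ℕ) :
    f.mapMatrix (1 + NN R n k) = 1 + NN S n k := by
  rw [map_add, map_one]
  congr 1
  ext i j
  simp only [RingHom.mapMatrix_apply, Matrix.map_apply, NN]
  split_ifs <;> simp

theorem map_PiM {R S : Type*} [CommRing R] [CommRing S] (f : R →+* S) (q n k : ℕ) :
    f.mapMatrix (1 + PiM R q n k) = 1 + PiM S q n k := by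
  rw [map_add, map_one]
  congr 1
  ext i j
  simp only [RingHom.mapMatrix_apply, Matrix.map_apply, PiM_apply]
  split_ifs <;> simp

/-- **Irregularity.** If `m ≥ 3`, `n ≥ 2` and `p ≤ 3n - 2` then `P_n(ℤ/p^m)` is not regular. -/
theorem not_regular_of_le (p m n : ℕ) [hp : Fact p.Prime] (hm : 3 ≤ m) (hpn : p + 2 ≤ 3 * n) :
    ¬ IsRegular p (P p m n) := by
  intro h
  by_cases h7 : 7 ≤ p
  · have h8 : p ≠ 8 := by rintro rfl; exact absurd hp.out (by norm_num)
    obtain ⟨k, hk⟩ : ∃ k, k = (p + 4) / 3 := ⟨_, rfl⟩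
    have hk1 : k ≤ n := by omega
    have hk2 : 2 * k < p := by omega
    have hk3 : p + 2 ≤ 3 * k := by omega
    obtain ⟨x, z, hx, hz, hreg⟩ := h.regPair_map (r := 3) (by omega) hm _ _ (PCond_one_add_NN _ n k)
      (PCond_one_add_PiM p n k (by omega))
    rw [map_NN] at hx
    rw [map_PiM] at hz
    exact irr3_pair p n k hk1 hk2 hk3 x z hx hz hreg
  · have hp5 : p = 2 ∨ p = 3 ∨ p = 5 := by
      have h1 := hp.out.two_le
      have h4 : p ≠ 4 := by rintro rfl; exact absurd hp.out (by norm_num)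
      have h6 : p ≠ 6 := by rintro rfl; exact absurd hp.out (by norm_num)
      omega
    obtain ⟨k, hk1, hk2, hk3, hk4⟩ : ∃ k, k ≤ n ∧ k ≤ p ∧ p < 2 * k ∧ 2 ≤ k := by
      rcases hp5 with rfl | rfl | rfl
      · exact ⟨2, by omega, by omega, by omega, by omega⟩
      · exact ⟨2, by omega, by omega, by omega, by omega⟩
      · exact ⟨3, by omega, by omega, by omega, by omega⟩
    obtain ⟨x, z, hx, hz, hreg⟩ := h.regPair_map (r := 2) (by omega) (by omega) _ _ (PCond_one_add_NN _ n k)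
      (PCond_one_add_PiM p n k (by omega))
    rw [map_NN] at hx
    rw [map_PiM] at hz
    exact irr2_pair p n k hk1 hk2 hk3 x z hx hz hreg

end Pool.Agent.Helper24Reg
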