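import Mathlib

namespace Pool.Agent.Helper24Reg

section word
variable (F : Type*) [Field F]

/-- `cc w g s`: the coefficient of the word `w s, w (s+1), ..., w (s+r-1)` (`r = g.length`) in the left-normed
commutator `[...[[g_1,g_2],g_3],...,g_r]`, where the list `g` is `g_r, ..., g_1` (reversed). -/
def cc (w : ℕ → Bool) : List Bool → ℕ → F
  | [], _ => 0
  | [a], s => if w s = a then 1 else 0
  | (a :: b :: gs), s =>
    (if w (s + (gs.length + 1)) = a then cc w (b :: gs) s else 0) - (if w s = a then cc w (b :: gs) (s + 1) else 0)

variable {F}

theorem cc_cons (w : ℕ → Bool) (a : Bool) (g : List Bool) (hg : g ≠ []) (s : ℕ) :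
    cc F w (a :: g) s = (if w (s + g.length) = a then cc F w g s else 0) - (if w s = a then cc F w g (s + 1) else 0) := by
  cases g with
  | nil => exact absurd rfl hg
  | cons b gs => rfl

/-- reversal -/
theorem cc_reverse (w : ℕ → Bool) (g : List Bool) (s s' : ℕ)
    (h : ∀ i < g.length, w (s' + i) = w (s + (g.length - 1 - i))) :
    cc F w g s' = (-1) ^ (g.length + 1) * cc F w g s := by
  induction g generalizing s s' with
  | nil => simp [cc]
  | cons a g ih =>
    cases g with
    | nil =>
      have := h 0 (by simp)
      simp only [add_zero, List.length_cons, List.length_nil] at this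
      simp only [cc, List.length_cons, List.length_nil]
      rw [this]
      simp
    | cons b gs =>
      rw [cc_cons _ _ _ (List.cons_ne_nil _ _), cc_cons _ _ _ (List.cons_ne_nil _ _)]
      set g := b :: gs with hgdef
      have hl : (a :: g).length = g.length + 1 := rfl
      have h1 : w (s' + g.length) = w s := by
        have := h g.length (by rw [hl]; omega)
        rw [this, hl]
        congr 1
        omega
      have h2 : w s' = w (s + g.length) := by
        have := h 0 (by rw [hl]; omega)
        rw [add_zero] at this
        rw [this, hl]
        congr 1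
      have e1 : cc F w g s' = (-1) ^ (g.length + 1) * cc F w g (s + 1) := by
        apply ih
        intro i hi
        have := h i (by rw [hl]; omega)
        rw [this, hl]
        congr 1
        omega
      have e2 : cc F w g (s' + 1) = (-1) ^ (g.length + 1) * cc F w g s := by
        apply ih
        intro i hi
        have := h (i + 1) (by rw [hl]; omega)
        rw [show s' + 1 + i = s' + (i + 1) by ring, this, hl]
        congr 1
        omega
      rw [h1, h2, e1, e2, hl, pow_succ _ (g.length + 1)]
      split_ifs <;> ring

theorem cc_E1 (w : ℕ → Bool) (a : Bool) (g : List Bool) (hg : g ≠ []) (n k l s : ℕ) (hn : k + l = n)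
    (hk : ∀ i < k, w (s + i) = a) (h1 : w (s + k) ≠ a) (h2 : w (s + k + (g.length - 1)) ≠ a)
    (hl : ∀ i < l, w (s + k + g.length + i) = a) :
    cc F w (List.replicate n a ++ g) s = (-1) ^ k * (n.choose k : F) * cc F w g (s + k) := by
  have hg1 : 1 ≤ g.length := List.length_pos_iff.2 hg
  induction n generalizing k l s with
  | zero =>
    have : k = 0 := by omega
    subst this
    simp
  | succ n ih =>
    rw [List.replicate_succ, List.cons_append, cc_cons _ _ _ (by simp [hg]), List.length_append, List.length_replicate]
    have e1 : (if w (s + (n + g.length)) = a then cc F w (List.replicate n a ++ g) s else 0) =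
        (-1) ^ k * (n.choose k : F) * cc F w g (s + k) := by
      rcases Nat.eq_zero_or_pos l with rfl | hl0
      · have hk' : k = n + 1 := by omega
        rw [if_neg, Nat.choose_eq_zero_of_lt (by omega)]
        · simp
        · have : s + (n + g.length) = s + k + (g.length - 1) := by omega
          rw [this]; exact h2
      · obtain ⟨l', rfl⟩ : ∃ l', l = l' + 1 := ⟨l - 1, by omega⟩
        rw [if_pos, ih k l' s (by omega) hk h1 h2 (fun i hi => hl i (by omega))]
        have := hl l' (by omega)
        rw [← this]
        congr 1
        omega
    have e2 : (if w s = a then cc F w (List.replicate n a ++ g) (s + 1) else 0) =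
        if k = 0 then 0 else (-1) ^ (k - 1) * (n.choose (k - 1) : F) * cc F w g (s + k) := by
      rcases Nat.eq_zero_or_pos k with rfl | hk0
      · rw [if_neg (by simpa using h1), if_pos rfl]
      · obtain ⟨k', rfl⟩ : ∃ k', k = k' + 1 := ⟨k - 1, by omega⟩
        have h3 : s + 1 + k' = s + (k' + 1) := by ring
        rw [if_pos (by simpa using hk 0 (by omega)), if_neg (by omega), ih k' l (s + 1) (by omega)]
        · rw [h3]; rfl
        · intro i hi
          have := hk (i + 1) (by omega)
          rw [← this]; congr 1; omega
        · rw [h3]; exact h1
        · rw [h3]; exact h2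
        · rw [h3]; exact hl
    rw [e1, e2]
    rcases Nat.eq_zero_or_pos k with rfl | hk0
    · simp
    · obtain ⟨k', rfl⟩ : ∃ k', k = k' + 1 := ⟨k - 1, by omega⟩
      rw [if_neg (by omega), Nat.choose_succ_succ]
      simp only [Nat.add_sub_cancel, Nat.succ_eq_add_one]
      push_cast
      ring

theorem cc_E2 (w : ℕ → Bool) (a : Bool) (g : List Bool) (hg : 2 ≤ g.length) (n k l s : ℕ) (hn : k + l = n + 1)
    (hk : ∀ i < k, w (s + i) = a) (h1 : w (s + k) ≠ a) (h2 : w (s + k + (g.length - 2)) ≠ a)
    (hl : ∀ i < l, w (s + k + (g.length - 1) + i) = a) :
    cc F w (List.replicate n a ++ g) s = (-1) ^ k * (n.choose k : F) * cc F w g (s + k) +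
      (if k = 0 then 0 else (-1) ^ (k - 1) * (n.choose (k - 1) : F) * cc F w g (s + (k - 1))) := by
  have hg' : g ≠ [] := by rintro rfl; simp at hg
  induction n generalizing k l s with
  | zero =>
    rcases Nat.eq_zero_or_pos k with rfl | hk0
    · simp
    · have : k = 1 := by omega
      subst this
      simp
  | succ n ih =>
    rw [List.replicate_succ, List.cons_append, cc_cons _ _ _ (by simp [hg']), List.length_append, List.length_replicate]
    have e1 : (if w (s + (n + g.length)) = a then cc F w (List.replicate n a ++ g) s else 0) =
        (-1) ^ k * (n.choose k : F) * cc F w g (s + k) +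
      (if k = 0 then 0 else (-1) ^ (k - 1) * (n.choose (k - 1) : F) * cc F w g (s + (k - 1))) := by
      rcases Nat.eq_zero_or_pos l with rfl | hl0
      · have hk' : k = n + 2 := by omega
        rw [if_neg, Nat.choose_eq_zero_of_lt (by omega), if_neg (by omega), Nat.choose_eq_zero_of_lt (by omega)]
        · simp
        · have : s + (n + g.length) = s + k + (g.length - 2) := by omega
          rw [this]; exact h2
      · obtain ⟨l', rfl⟩ : ∃ l', l = l' + 1 := ⟨l - 1, by omega⟩
        rw [if_pos, ih k l' s (by omega) hk h1 h2 (fun i hi => hl i (by omega))]
        have := hl l' (by omega)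
        rw [← this]
        congr 1
        omega
    have e2 : (if w s = a then cc F w (List.replicate n a ++ g) (s + 1) else 0) =
        if k = 0 then 0 else ((-1) ^ (k - 1) * (n.choose (k - 1) : F) * cc F w g (s + k) +
          (if k = 1 then 0 else (-1) ^ (k - 2) * (n.choose (k - 2) : F) * cc F w g (s + (k - 1)))) := by
      rcases Nat.eq_zero_or_pos k with rfl | hk0
      · rw [if_neg (by simpa using h1), if_pos rfl]
      · obtain ⟨k', rfl⟩ : ∃ k', k = k' + 1 := ⟨k - 1, by omega⟩
        have h3 : s + 1 + k' = s + (k' + 1) := by ring
        rw [if_pos (by simpa using hk 0 (by omega)), if_neg (by omega), ih k' l (s + 1) (by omega)]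
        · rw [h3]
          simp only [Nat.add_sub_cancel]
          congr 1
          rcases Nat.eq_zero_or_pos k' with rfl | hk1
          · simp
          · rw [if_neg (by omega), if_neg (by omega), show k' + 1 - 2 = k' - 1 by omega,
              show s + 1 + (k' - 1) = s + k' by omega]
        · intro i hi
          have := hk (i + 1) (by omega)
          rw [← this]; congr 1; omega
        · rw [h3]; exact h1
        · rw [h3]; exact h2
        · rw [h3]; exact hl
    rw [e1, e2]
    rcases Nat.eq_zero_or_pos k with rfl | hk0
    · simp
    · obtain ⟨k', rfl⟩ : ∃ k', k = k' + 1 := ⟨k - 1, by omega⟩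
      rcases Nat.eq_zero_or_pos k' with rfl | hk1
      · simp
        ring
      · obtain ⟨k'', rfl⟩ : ∃ k'', k' = k'' + 1 := ⟨k' - 1, by omega⟩
        rw [if_neg (by omega), if_neg (by omega), if_neg (by omega), if_neg (by omega), Nat.choose_succ_succ n (k'' + 1)]
        simp only [Nat.succ_eq_add_one, show k'' + 1 + 1 - 2 = k'' by omega, show k'' + 1 + 1 - 1 = k'' + 1 by omega]
        rw [Nat.choose_succ_succ n k'']
        push_cast
        ring

end word

theorem choose_ne_zero' (p : ℕ) [hp : Fact p.Prime] (a b : ℕ) (hb : b ≤ a) (ha : a < p) :
    ((a.choose b : ℕ) : ZMod p) ≠ 0 := by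
  intro h
  rw [ZMod.natCast_eq_zero_iff] at h
  have h1 : p ∣ a.factorial := by
    rw [← Nat.choose_mul_factorial_mul_factorial hb]
    exact Dvd.dvd.mul_right (Dvd.dvd.mul_right h _) _
  rw [hp.out.dvd_factorial] at h1
  omega

/-- The support of the free Lie algebra modulo `p` in degrees `< p` (two letters). -/
theorem cc_main (p : ℕ) [hp : Fact p.Prime] (w : ℕ → Bool) (r : ℕ) (hr : 1 ≤ r) (hrp : r < p) (s : ℕ)
    (hz : ∀ g : List Bool, g.length = r → cc (ZMod p) w g s = 0) :
    2 ≤ r ∧ ((∀ i < r, w (s + i) = w s) ∨ (Even r ∧ ∀ i < r, w (s + i) = w (s + (r - 1 - i)))) := by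
  induction r using Nat.strong_induction_on generalizing s with
  | _ r ih =>
    have hr2 : 2 ≤ r := by
      by_contra h
      have : r = 1 := by omega
      subst this
      have := hz [w s] rfl
      simp [cc] at this
    refine ⟨hr2, ?_⟩
    obtain ⟨r', rfl⟩ : ∃ r', r = r' + 1 := ⟨r - 1, by omega⟩
    have hne : ∀ g : List Bool, g.length = r' → g ≠ [] := by
      rintro g hg rfl
      simp at hg; omega
    by_cases hends : w s = w (s + r')
    · -- equal end letters
      by_cases hconst : ∀ i < r' + 1, w (s + i) = w s
      · exact Or.inl hconst
      · right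
        push Not at hconst
        -- first index with different letter
        have hex : ∃ i, w (s + i) ≠ w s ∧ i < r' + 1 := by
          obtain ⟨i, hi, hi'⟩ := hconst; exact ⟨i, hi', hi⟩
        obtain ⟨k, hk⟩ : ∃ k, k = Nat.find hex := ⟨_, rfl⟩
        have hk1 : w (s + k) ≠ w s := by rw [hk]; exact (Nat.find_spec hex).1
        have hk2 : k < r' + 1 := by rw [hk]; exact (Nat.find_spec hex).2
        have hk3 : ∀ i < k, w (s + i) = w s := by
          intro i hi
          by_contra h
          exact Nat.find_min hex (by rw [← hk]; exact hi) ⟨h, by omega⟩
        have hex' : ∃ i, w (s + (r' - i)) ≠ w s ∧ i < r' + 1 := by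
          refine ⟨r' - k, ?_, by omega⟩
          rw [show r' - (r' - k) = k by omega]; exact hk1
        obtain ⟨l, hl⟩ : ∃ l, l = Nat.find hex' := ⟨_, rfl⟩
        have hl1 : w (s + (r' - l)) ≠ w s := by rw [hl]; exact (Nat.find_spec hex').1
        have hl2 : l < r' + 1 := by rw [hl]; exact (Nat.find_spec hex').2
        have hl3 : ∀ i < l, w (s + (r' - i)) = w s := by
          intro i hi
          by_contra h
          exact Nat.find_min hex' (by rw [← hl]; exact hi) ⟨h, by omega⟩
        have hk0 : 0 < k := by
          rcases Nat.eq_zero_or_pos k with h | h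
          · rw [h] at hk1; simp at hk1
          · exact h
        have hl0 : 0 < l := by
          rcases Nat.eq_zero_or_pos l with h | h
          · rw [h] at hl1; simp only [Nat.sub_zero] at hl1; exact absurd hends.symm hl1
          · exact h
        have hkl : k ≤ r' - l := by
          by_contra h
          exact hl1 (hk3 (r' - l) (by omega))
        obtain ⟨t, ht⟩ : ∃ t, t = r' + 1 - k - l := ⟨_, rfl⟩
        have ht1 : 1 ≤ t := by omega
        have hlast : s + k + (t - 1) = s + (r' - l) := by omega
        -- v is a zero
        have hvz : ∀ g : List Bool, g.length = t → cc (ZMod p) w g (s + k) = 0 := by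
          intro g hg
          have h3 := hz (List.replicate (k + l) (w s) ++ g) (by simp [hg]; omega)
          rw [cc_E1 w (w s) g (by rintro rfl; simp at hg; omega) (k + l) k l s rfl hk3 hk1 (by rw [hg, hlast]; exact hl1)
            (by
              intro i hi
              rw [hg]
              have := hl3 (l - 1 - i) (by omega)
              rw [← this]; congr 1; omega)] at h3
          rcases mul_eq_zero.1 h3 with h4 | h4
          · rcases mul_eq_zero.1 h4 with h5 | h5
            · exact absurd h5 (pow_ne_zero _ (neg_ne_zero.2 one_ne_zero))
            · exact absurd h5 (choose_ne_zero' p _ _ (by omega) (by omega))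
          · exact h4
        obtain ⟨ht2, hv⟩ := ih t (by omega) ht1 (by omega) (s + k) hvz
        -- relation between A and B
        have hAB : ∀ g : List Bool, g.length = t + 1 →
            (l : ZMod p) * cc (ZMod p) w g (s + k) = (k : ZMod p) * cc (ZMod p) w g (s + (k - 1)) := by
          intro g hg
          have h3 := hz (List.replicate (k + l - 1) (w s) ++ g) (by simp [hg]; omega)
          rw [cc_E2 w (w s) g (by omega) (k + l - 1) k l s (by omega) hk3 hk1
            (by rw [hg, show t + 1 - 2 = t - 1 by omega, hlast]; exact hl1)
            (by
              intro i hi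
              rw [hg]
              have := hl3 (l - 1 - i) (by omega)
              rw [← this]; congr 1; omega), if_neg (by omega)] at h3
          obtain ⟨k', rfl⟩ : ∃ k', k = k' + 1 := ⟨k - 1, by omega⟩
          simp only [Nat.add_sub_cancel] at h3 ⊢
          have hc := Nat.choose_succ_right_eq (k' + 1 + l - 1) k'
          -- choose n (k'+1) * (k'+1) = choose n k' * (n - k')
          rw [show k' + 1 + l - 1 - k' = l by omega] at hc
          have hc' : ((k' + 1 + l - 1).choose (k' + 1) : ZMod p) * ((k' + 1 : ℕ) : ZMod p) =
              ((k' + 1 + l - 1).choose k' : ZMod p) * (l : ZMod p) := by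
            rw [← Nat.cast_mul, ← Nat.cast_mul, hc]
          have hne' := choose_ne_zero' p (k' + 1 + l - 1) k' (by omega) (by omega)
          have hpm : ((-1 : ZMod p) ^ k') ≠ 0 := pow_ne_zero _ (neg_ne_zero.2 one_ne_zero)
          have h5 : ((-1 : ZMod p) ^ k') * ((k' + 1 + l - 1).choose k' : ZMod p) *
              ((l : ZMod p) * cc (ZMod p) w g (s + (k' + 1)) - ((k' + 1 : ℕ) : ZMod p) * cc (ZMod p) w g (s + k')) = 0 := by
            have h6 : ((-1 : ZMod p) ^ k') * ((k' + 1 + l - 1).choose k' : ZMod p) *
              ((l : ZMod p) * cc (ZMod p) w g (s + (k' + 1)) - ((k' + 1 : ℕ) : ZMod p) * cc (ZMod p) w g (s + k')) =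
              -((k' + 1 : ℕ) : ZMod p) * ((-1) ^ (k' + 1) * ((k' + 1 + l - 1).choose (k' + 1) : ZMod p) * cc (ZMod p) w g (s + (k' + 1)) +
                (-1) ^ k' * ((k' + 1 + l - 1).choose k' : ZMod p) * cc (ZMod p) w g (s + k')) := by
              rw [mul_sub, mul_add]
              have h7 : ((-1 : ZMod p) ^ k') * ((k' + 1 + l - 1).choose k' : ZMod p) * ((l : ZMod p) * cc (ZMod p) w g (s + (k' + 1))) =
                ((-1 : ZMod p) ^ k') * (((k' + 1 + l - 1).choose k' : ZMod p) * (l : ZMod p)) * cc (ZMod p) w g (s + (k' + 1)) := by ring
              rw [h7, ← hc']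
              ring
            rw [h6, h3, mul_zero]
          rcases mul_eq_zero.1 h5 with h6 | h6
          · rcases mul_eq_zero.1 h6 with h7 | h7
            · exact absurd h7 hpm
            · exact absurd h7 hne'
          · exact sub_eq_zero.1 h6
        -- v is palindromic in any case
        have hpal : ∀ i < t, w (s + k + i) = w (s + k + (t - 1 - i)) := by
          rcases hv with hv | hv
          · intro i hi
            rw [hv i hi, hv (t - 1 - i) (by omega)]
          · exact hv.2
        -- reversal relation
        have hrev : ∀ g : List Bool, g.length = t + 1 →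
            cc (ZMod p) w g (s + (k - 1)) = (-1) ^ (t + 2) * cc (ZMod p) w g (s + k) := by
          intro g hg
          have := cc_reverse (F := ZMod p) w g (s + k) (s + (k - 1)) (by
            intro i hi
            rw [hg] at hi ⊢
            rcases Nat.eq_zero_or_pos i with rfl | hi0
            · have e1 := hk3 (k - 1) (by omega)
              have e2 := hl3 (l - 1) (by omega)
              rw [add_zero, e1, ← e2]; congr 1; omega
            · have e1 := hpal (i - 1) (by omega)
              have e2 : s + (k - 1) + i = s + k + (i - 1) := by omega
              rw [e2, e1]; congr 1; omega)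
          rw [this, hg]
        rcases Nat.even_or_odd t with hte | hto
        · -- t even: k = l
          have hnz : ∃ g : List Bool, g.length = t + 1 ∧ cc (ZMod p) w g (s + k) ≠ 0 := by
            by_contra hcon
            push Not at hcon
            obtain ⟨_, h4⟩ := ih (t + 1) (by omega) (by omega) (by omega) (s + k) hcon
            rcases h4 with h4 | h4
            · have e1 := h4 t (by omega)
              have e2 := hl3 (l - 1) (by omega)
              rw [show s + k + t = s + (r' - (l - 1)) by omega, e2] at e1
              exact hk1 e1.symm
            · have : ¬ Even (t + 1) := by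
                rw [Nat.even_add_one]; exact not_not.2 hte
              exact this h4.1
          obtain ⟨g, hg, hgne⟩ := hnz
          have h5 := hAB g hg
          rw [hrev g hg, (hte.add (by norm_num : Even 2)).neg_one_pow, one_mul] at h5
          have h6 := mul_right_cancel₀ hgne h5
          have hlk : l = k := by
            have h7 : (l : ZMod p) = (k : ZMod p) := h6
            rw [ZMod.natCast_eq_natCast_iff', Nat.mod_eq_of_lt (by omega), Nat.mod_eq_of_lt (by omega)] at h7
            exact h7
          refine ⟨?_, ?_⟩
          · have : r' + 1 = t + 2 * k := by omega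
            rw [this]; exact hte.add (even_two_mul k)
          · intro i hi
            rcases Nat.lt_or_ge i k with h8 | h8
            · rw [hk3 i h8]
              have := hl3 i (by omega)
              rw [← this]; congr 1
            · rcases Nat.lt_or_ge i (k + t) with h9 | h9
              · have := hpal (i - k) (by omega)
                rw [show s + i = s + k + (i - k) by omega, this]; congr 1; omega
              · have e1 := hl3 (r' - i) (by omega)
                rw [show r' - (r' - i) = i by omega] at e1
                have e2 := hk3 (r' - i) (by omega)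
                rw [e1, ← e2]; congr 1
        · -- t odd: contradiction
          exfalso
          have hvc : ∀ i < t, w (s + k + i) = w (s + k) := by
            rcases hv with hv | hv
            · exact hv
            · exact absurd hv.1 (by rw [Nat.not_even_iff_odd]; exact hto)
          have hnz : ∃ g : List Bool, g.length = t + 1 ∧ cc (ZMod p) w g (s + k) ≠ 0 := by
            by_contra hcon
            push Not at hcon
            obtain ⟨_, h4⟩ := ih (t + 1) (by omega) (by omega) (by omega) (s + k) hcon
            have e2 := hl3 (l - 1) (by omega)
            rcases h4 with h4 | h4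
            · have e1 := h4 t (by omega)
              rw [show s + k + t = s + (r' - (l - 1)) by omega, e2] at e1
              exact hk1 e1.symm
            · have e1 := h4.2 0 (by omega)
              rw [add_zero, show s + k + (t + 1 - 1 - 0) = s + (r' - (l - 1)) by omega, e2] at e1
              exact hk1 e1
          obtain ⟨g, hg, hgne⟩ := hnz
          have h5 := hAB g hg
          have hodd : Odd (t + 2) := hto.add_even (by norm_num)
          rw [hrev g hg, hodd.neg_one_pow] at h5
          have h6 : ((l + k : ℕ) : ZMod p) * cc (ZMod p) w g (s + k) = 0 := by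
            push_cast
            linear_combination h5
          rcases mul_eq_zero.1 h6 with h7 | h7
          · rw [ZMod.natCast_eq_zero_iff] at h7
            have := Nat.le_of_dvd (by omega) h7
            omega
          · exact hgne h7
    · -- different end letters
      have hz1 : ∀ g : List Bool, g.length = r' → cc (ZMod p) w g s = 0 := by
        intro g hg
        have h3 := hz (w (s + r') :: g) (by simp [hg])
        rw [cc_cons _ _ _ (hne g hg), hg, if_pos rfl, if_neg hends, sub_zero] at h3
        exact h3
      have hz2 : ∀ g : List Bool, g.length = r' → cc (ZMod p) w g (s + 1) = 0 := by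
        intro g hg
        have h3 := hz (w s :: g) (by simp [hg])
        rw [cc_cons _ _ _ (hne g hg), hg, if_neg (Ne.symm hends), if_pos rfl, zero_sub, neg_eq_zero] at h3
        exact h3
      obtain ⟨h3, h4⟩ := ih r' (by omega) (by omega) (by omega) s hz1
      obtain ⟨-, h5⟩ := ih r' (by omega) (by omega) (by omega) (s + 1) hz2
      exfalso
      have hp1 : ∀ i < r', w (s + i) = w (s + (r' - 1 - i)) := by
        rcases h4 with h4 | h4
        · intro i hi; rw [h4 i hi, h4 (r' - 1 - i) (by omega)]
        · exact h4.2
      have hp2 : ∀ i < r', w (s + 1 + i) = w (s + 1 + (r' - 1 - i)) := by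
        rcases h5 with h5 | h5
        · intro i hi; rw [h5 i hi, h5 (r' - 1 - i) (by omega)]
        · exact h5.2
      rcases Nat.even_or_odd r' with hre | hro
      · -- r' even: period two
        have hper : ∀ j, 2 * j ≤ r' → w (s + 2 * j) = w s := by
          intro j
          induction j with
          | zero => intro _; rfl
          | succ j ihj =>
            intro hj
            have e0 := ihj (by omega)
            have e1 := hp1 (r' - 1 - 2 * j) (by omega)
            rw [show r' - 1 - (r' - 1 - 2 * j) = 2 * j by omega] at e1
            have e2 := hp2 (2 * j + 1) (by omega)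
            rw [show s + 1 + (2 * j + 1) = s + 2 * (j + 1) by ring] at e2
            rw [e2, ← e0, ← e1]
            congr 1
            omega
        obtain ⟨j, hj⟩ := hre
        have := hper j (by omega)
        rw [show 2 * j = r' by omega] at this
        exact hends this.symm
      · have hc1 : ∀ i < r', w (s + i) = w s := by
          rcases h4 with h4 | h4
          · exact h4
          · exact absurd h4.1 (by rw [Nat.not_even_iff_odd]; exact hro)
        have hc2 : ∀ i < r', w (s + 1 + i) = w (s + 1) := by
          rcases h5 with h5 | h5
          · exact h5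
          · exact absurd h5.1 (by rw [Nat.not_even_iff_odd]; exact hro)
        have e1 := hc2 (r' - 1) (by omega)
        rw [show s + 1 + (r' - 1) = s + r' by omega] at e1
        have e2 := hc1 1 (by omega)
        exact hends (by rw [e1, e2])

end Pool.Agent.Helper24Reg
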