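import Mathlib
import Pool.Agent.Helper24_Reg.Criterion
import Pool.Agent.Helper24_Reg.Word

namespace Pool.Agent.Helper24Reg

open Finset Matrix
open scoped commutatorElement

/-- exponent attached to the entry `(i,j)` in weight `k`: `⌈(k+i-j)/n⌉` (or `0`). -/
def ex (n i j k : ℕ) : ℕ := (k + i + (n - 1) - j) / n

theorem ex_le_iff {n i j k e : ℕ} (hj : j < n) : ex n i j k ≤ e ↔ k + i ≤ j + n * e := by
  have hn : 0 < n := by omega
  unfold ex
  rw [Nat.div_le_iff_le_mul_add_pred hn]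
  omega

theorem le_ex {n i j k : ℕ} (hj : j < n) : k + i ≤ j + n * ex n i j k := (ex_le_iff hj).1 le_rfl

theorem ex_add_le {n i j s k l : ℕ} (hs : s < n) (hj : j < n) : ex n i j (k + l) ≤ ex n i s k + ex n s j l := by
  rw [ex_le_iff hj]
  have h1 := le_ex (i := i) (k := k) hs
  have h2 := le_ex (i := s) (k := l) hj
  rw [mul_add]
  omega

theorem ex_add_lt {n i j s k l e : ℕ} (hs : s < n) (hj : j < n) (he : k + l + i = j + n * e)
    (hnc : ¬ ∃ e1, k + i = s + n * e1) : e + 1 ≤ ex n i s k + ex n s j l := by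
  have h1 := le_ex (i := i) (k := k) hs
  have h2 := le_ex (i := s) (k := l) hj
  have h3 : k + i ≠ s + n * ex n i s k := fun h => hnc ⟨_, h⟩
  by_contra hcon
  have h4 : ex n i s k + ex n s j l ≤ e := by omega
  have h5 : n * (ex n i s k + ex n s j l) ≤ n * e := Nat.mul_le_mul_left n h4
  rw [mul_add] at h5
  omega

theorem ex_crit {n i j k e : ℕ} (hj : j < n) (he : k + i = j + n * e) : ex n i j k = e := by
  apply le_antisymm
  · rw [ex_le_iff hj]; omega
  · by_contra hcon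
    have h1 : ex n i j k + 1 ≤ e := by omega
    have h2 := le_ex (i := i) (k := k) hj
    have h3 : n * (ex n i j k + 1) ≤ n * e := Nat.mul_le_mul_left n h1
    rw [mul_add] at h3
    omega

theorem ex_succ_crit {n i j k e : ℕ} (hj : j < n) (he : k + i = j + n * e) : e + 1 ≤ ex n i j (k + 1) := by
  by_contra hcon
  have h1 : ex n i j (k + 1) ≤ e := by omega
  rw [ex_le_iff hj] at h1
  omega

theorem ex_succ_noncrit {n i j k : ℕ} (hj : j < n) (hnc : ¬ ∃ e, k + i = j + n * e) :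
    ex n i j (k + 1) ≤ ex n i j k := by
  rw [ex_le_iff hj]
  have h1 := le_ex (i := i) (k := k) hj
  have h2 : k + i ≠ j + n * ex n i j k := fun h => hnc ⟨_, h⟩
  omega

theorem ex_mono {n i j k l : ℕ} (hj : j < n) (h : k ≤ l) : ex n i j k ≤ ex n i j l := by
  rw [ex_le_iff hj]
  have := le_ex (i := i) (k := l) hj
  omega

theorem ex_add_n {n i j k : ℕ} (hj : j < n) : ex n i j (k + n) ≤ ex n i j k + 1 := by
  rw [ex_le_iff hj, mul_add]
  have := le_ex (i := i) (k := k) hj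
  omega

section W
variable {R : Type*} [CommRing R] (ϖ : R) {n : ℕ} (B : ℕ → Prop)

/-- weight filtration, with a set `B` of forbidden arrows. -/
def InW (k : ℕ) (A : Matrix (Fin n) (Fin n) R) : Prop :=
  (∀ i j : Fin n, ϖ ^ (ex n i j k) ∣ A i j) ∧
    ∀ (i j : Fin n) (e : ℕ), k + i.val = j.val + n * e → (∃ u < k, B ((i.val + u) % n)) → ϖ ^ (e + 1) ∣ A i j

variable {ϖ B}

theorem InW.zero (k : ℕ) : InW ϖ B k (0 : Matrix (Fin n) (Fin n) R) :=
  ⟨fun _ _ => dvd_zero _, fun _ _ _ _ _ => dvd_zero _⟩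

theorem InW.add {k : ℕ} {A C : Matrix (Fin n) (Fin n) R} (hA : InW ϖ B k A) (hC : InW ϖ B k C) : InW ϖ B k (A + C) :=
  ⟨fun i j => dvd_add (hA.1 i j) (hC.1 i j), fun i j e he hu => dvd_add (hA.2 i j e he hu) (hC.2 i j e he hu)⟩

theorem InW.neg {k : ℕ} {A : Matrix (Fin n) (Fin n) R} (hA : InW ϖ B k A) : InW ϖ B k (-A) :=
  ⟨fun i j => (dvd_neg).2 (hA.1 i j), fun i j e he hu => (dvd_neg).2 (hA.2 i j e he hu)⟩

theorem InW.sub {k : ℕ} {A C : Matrix (Fin n) (Fin n) R} (hA : InW ϖ B k A) (hC : InW ϖ B k C) : InW ϖ B k (A - C) := by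
  rw [sub_eq_add_neg]; exact hA.add hC.neg

theorem InW.of_succ {k : ℕ} {A : Matrix (Fin n) (Fin n) R} (hA : InW ϖ B (k + 1) A) : InW ϖ B k A :=
  ⟨fun i j => (pow_dvd_pow ϖ (ex_mono j.2 (Nat.le_succ k))).trans (hA.1 i j),
    fun i j _ he _ => (pow_dvd_pow ϖ (ex_succ_crit j.2 he)).trans (hA.1 i j)⟩

theorem InW.mono {k l : ℕ} (h : k ≤ l) {A : Matrix (Fin n) (Fin n) R} (hA : InW ϖ B l A) : InW ϖ B k A := by
  induction l, h using Nat.le_induction with
  | base => exact hA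
  | succ l _ ih => exact ih hA.of_succ

theorem InW.one : InW ϖ B 0 (1 : Matrix (Fin n) (Fin n) R) := by
  refine ⟨fun i j => ?_, fun i j e _ hu => ?_⟩
  · by_cases hij : i = j
    · subst hij
      have : ex n i i 0 = 0 := Nat.le_zero.1 ((ex_le_iff i.2).2 (by omega))
      rw [this, pow_zero]
      exact one_dvd _
    · rw [Matrix.one_apply_ne hij]; exact dvd_zero _
  · obtain ⟨u, hu, _⟩ := hu
    omega

theorem InW.mul {k l : ℕ} {A C : Matrix (Fin n) (Fin n) R} (hA : InW ϖ B k A) (hC : InW ϖ B l C) :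
    InW ϖ B (k + l) (A * C) := by
  refine ⟨fun i j => ?_, fun i j e he hu => ?_⟩
  · rw [Matrix.mul_apply]
    refine Finset.dvd_sum fun s _ => ?_
    refine (pow_dvd_pow ϖ (ex_add_le (i := i) (k := k) (l := l) s.2 j.2)).trans ?_
    rw [pow_add]
    exact mul_dvd_mul (hA.1 i s) (hC.1 s j)
  · rw [Matrix.mul_apply]
    refine Finset.dvd_sum fun s _ => ?_
    by_cases hc : ∃ e1, k + i.val = s.val + n * e1
    · obtain ⟨e1, he1⟩ := hc
      obtain ⟨e2, he2⟩ : ∃ e2, e = e1 + e2 := by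
        apply Nat.exists_eq_add_of_le
        by_contra hcon
        have h1 : e + 1 ≤ e1 := by omega
        have h2 : n * (e + 1) ≤ n * e1 := Nat.mul_le_mul_left n h1
        rw [mul_add] at h2
        have := j.2
        omega
      have he3 : l + s.val = j.val + n * e2 := by
        rw [he2, mul_add] at he
        omega
      obtain ⟨u, hu, hBu⟩ := hu
      rcases Nat.lt_or_ge u k with h3 | h3
      · have h4 := hA.2 i s e1 he1 ⟨u, h3, hBu⟩
        have h5 := hC.1 s j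
        rw [ex_crit j.2 he3] at h5
        have h6 := mul_dvd_mul h4 h5
        rw [← pow_add] at h6
        rw [he2]
        rwa [show e1 + e2 + 1 = e1 + 1 + e2 by ring]
      · have h4 := hA.1 i s
        rw [ex_crit s.2 he1] at h4
        have h5 := hC.2 s j e2 he3 ⟨u - k, by omega, by
          have : (s.val + (u - k)) % n = (i.val + u) % n := by
            have : i.val + u = s.val + (u - k) + n * e1 := by omega
            rw [this, Nat.add_mul_mod_self_left]
          rw [this]; exact hBu⟩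
        have h6 := mul_dvd_mul h4 h5
        rw [← pow_add] at h6
        rw [he2]
        exact h6
    · refine (pow_dvd_pow ϖ (ex_add_lt s.2 j.2 he hc)).trans ?_
      rw [pow_add]
      exact mul_dvd_mul (hA.1 i s) (hC.1 s j)

theorem InW.mul_left {k : ℕ} {A C : Matrix (Fin n) (Fin n) R} (hA : InW ϖ B k A) (hC : InW ϖ B 0 C) :
    InW ϖ B k (C * A) := by
  have := hC.mul hA
  rwa [zero_add] at this

theorem InW.mul_right {k : ℕ} {A C : Matrix (Fin n) (Fin n) R} (hA : InW ϖ B k A) (hC : InW ϖ B 0 C) :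
    InW ϖ B k (A * C) := hA.mul hC

theorem InW.pow_zero' {A : Matrix (Fin n) (Fin n) R} (hA : InW ϖ B 0 A) (N : ℕ) : InW ϖ B 0 (A ^ N) := by
  induction N with
  | zero => rw [pow_zero]; exact InW.one
  | succ N ih => rw [pow_succ]; exact ih.mul_right hA

theorem InW.pow {k : ℕ} {A : Matrix (Fin n) (Fin n) R} (hA : InW ϖ B k A) (N : ℕ) : InW ϖ B (N * k) (A ^ N) := by
  induction N with
  | zero => rw [pow_zero, zero_mul]; exact InW.one
  | succ N ih => rw [pow_succ, Nat.succ_mul]; exact ih.mul hA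

theorem InW.eq_zero {m : ℕ} (hm : ϖ ^ m = 0) {k : ℕ} (hk : m * n ≤ k) {A : Matrix (Fin n) (Fin n) R} (hA : InW ϖ B k A) :
    A = 0 := by
  ext i j
  rw [Matrix.zero_apply]
  have h1 : m ≤ ex n i j k := by
    by_contra hcon
    have h2 : ex n i j k + 1 ≤ m := by omega
    have h3 := le_ex (i := i.val) (k := k) j.2
    have h4 : n * (ex n i j k + 1) ≤ n * m := Nat.mul_le_mul_left n h2
    rw [mul_add] at h4
    have h5 := j.2
    rw [mul_comm] at hk
    omega
  have h2 := (pow_dvd_pow ϖ h1).trans (hA.1 i j)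
  rw [hm] at h2
  exact zero_dvd_iff.1 h2

theorem pCond_iff_InW (A : Matrix (Fin n) (Fin n) R) : PCond ϖ A ↔ InW ϖ (fun _ => False) 1 (A - 1) := by
  have hex : ∀ i j : Fin n, (j ≤ i → ex n i j 1 = 1) ∧ (i < j → ex n i j 1 = 0) := by
    intro i j
    have h1 := i.2
    have h2 := j.2
    refine ⟨fun h => ?_, fun h => ?_⟩
    · apply le_antisymm
      · rw [ex_le_iff h2]; omega
      · by_contra hcon
        have : ex n i j 1 ≤ 0 := by omega
        rw [ex_le_iff h2] at this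
        have h3 : j.val ≤ i.val := h
        omega
    · apply Nat.le_zero.1
      rw [ex_le_iff h2]
      have h3 : i.val < j.val := h
      omega
  constructor
  · rintro ⟨h1, h2⟩
    refine ⟨fun i j => ?_, fun i j e _ hu => ?_⟩
    · rcases lt_trichotomy i j with h | h | h
      · rw [(hex i j).2 h, pow_zero]; exact one_dvd _
      · subst h
        rw [(hex i i).1 le_rfl, pow_one, Matrix.sub_apply, Matrix.one_apply_eq]
        exact h1 i
      · rw [(hex i j).1 h.le, pow_one, Matrix.sub_apply, Matrix.one_apply_ne (ne_of_gt h), sub_zero]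
        exact h2 i j h
    · obtain ⟨u, _, hu⟩ := hu
      exact hu.elim
  · rintro ⟨h1, -⟩
    refine ⟨fun i => ?_, fun i j hij => ?_⟩
    · have := h1 i i
      rwa [(hex i i).1 le_rfl, pow_one, Matrix.sub_apply, Matrix.one_apply_eq] at this
    · have := h1 i j
      rwa [(hex i j).1 hij.le, pow_one, Matrix.sub_apply, Matrix.one_apply_ne (ne_of_gt hij), sub_zero] at this

/-- forgetting the forbidden arrows -/
theorem InW.forget {k : ℕ} {A : Matrix (Fin n) (Fin n) R} (hA : InW ϖ B k A) : InW ϖ (fun _ => False) k A :=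
  ⟨hA.1, fun _ _ _ _ hu => hu.choose_spec.2.elim⟩

end W

section U
variable {R : Type*} [CommRing R] [Finite R] (ϖ : R) (n : ℕ) (B : ℕ → Prop)

theorem inv_eq_pow (g : GL (Fin n) R) : ∃ N : ℕ, g⁻¹ = g ^ N := by
  have : Finite (GL (Fin n) R) := by
    unfold Matrix.GeneralLinearGroup
    infer_instance
  refine ⟨orderOf g - 1, ?_⟩
  have h3 : g ^ (orderOf g - 1) * g = 1 := by
    rw [← pow_succ, Nat.sub_add_cancel (orderOf_pos g), pow_orderOf_eq_one]
  exact (eq_inv_of_mul_eq_one_left h3).symm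

variable {ϖ n B}

theorem inv_InW0 {g : GL (Fin n) R} (hg : InW ϖ B 0 g.1) : InW ϖ B 0 (g⁻¹).1 := by
  obtain ⟨N, hN⟩ := inv_eq_pow n g
  rw [hN, Units.val_pow_eq_pow_val]
  exact hg.pow_zero' N

theorem InW0_of_sub_one {k : ℕ} {A : Matrix (Fin n) (Fin n) R} (hA : InW ϖ B k (A - 1)) : InW ϖ B 0 A := by
  have := (hA.mono (Nat.zero_le k)).add (InW.one (ϖ := ϖ) (B := B) (n := n))
  rwa [sub_add_cancel] at this

variable (ϖ n B)

/-- the subgroups `U_k = 1 + W_k`. -/
def UU (k : ℕ) : Subgroup (GL (Fin n) R) where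
  carrier := {g | InW ϖ B k (g.1 - 1)}
  mul_mem' := by
    intro g h hg hh
    have e : (g * h).1 - 1 = (g.1 - 1) * h.1 + (h.1 - 1) := by
      rw [Units.val_mul]; noncomm_ring
    simp only [Set.mem_ofPred_eq] at *
    rw [e]
    exact (hg.mul_right (InW0_of_sub_one hh)).add hh
  one_mem' := by
    simp only [Set.mem_ofPred_eq, Units.val_one, sub_self]
    exact InW.zero k
  inv_mem' := by
    intro g hg
    simp only [Set.mem_ofPred_eq] at *
    have e : (g⁻¹).1 - 1 = -((g⁻¹).1 * (g.1 - 1)) := by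
      rw [mul_sub, Units.inv_mul]; noncomm_ring
    rw [e]
    exact (hg.mul_left (inv_InW0 (InW0_of_sub_one hg))).neg

variable {ϖ n B}

theorem mem_UU {k : ℕ} {g : GL (Fin n) R} : g ∈ UU ϖ n B k ↔ InW ϖ B k (g.1 - 1) := Iff.rfl

theorem UU_antitone : Antitone (UU (R := R) ϖ n B) := fun _ _ h _ hg => InW.mono h hg

theorem commutator_val (g h : GL (Fin n) R) :
    (⁅g, h⁆).1 - 1 = ((g.1 - 1) * (h.1 - 1) - (h.1 - 1) * (g.1 - 1)) * ((g⁻¹).1 * (h⁻¹).1) := by
  rw [commutatorElement_def, Units.val_mul, Units.val_mul, Units.val_mul]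
  have e : ((g.1 - 1) * (h.1 - 1) - (h.1 - 1) * (g.1 - 1)) = g.1 * h.1 - h.1 * g.1 := by noncomm_ring
  rw [e, sub_mul]
  congr 1
  · simp only [mul_assoc]
  · rw [mul_assoc, ← mul_assoc g.1, Units.mul_inv, one_mul, Units.mul_inv]

theorem commutator_UU (i j : ℕ) : ⁅UU (R := R) ϖ n B i, UU ϖ n B j⁆ ≤ UU ϖ n B (i + j) := by
  rw [Subgroup.commutator_le]
  intro g hg h hh
  rw [mem_UU] at *
  rw [commutator_val]
  have h0 : InW ϖ B 0 ((g⁻¹).1 * (h⁻¹).1) :=
    (inv_InW0 (InW0_of_sub_one hg)).mul_right (inv_InW0 (InW0_of_sub_one hh))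
  refine InW.mul_right ((hg.mul hh).sub ?_) h0
  rw [add_comm]
  exact hh.mul hg

end U

section Sym
variable {R : Type*} [CommRing R] (ϖ : R) {n : ℕ}

/-- `A` has weight `≥ k` and symbol `a`. -/
def Sym (k : ℕ) (A : Matrix (Fin n) (Fin n) R) (a : ℕ → R) : Prop :=
  (∀ i j : Fin n, ϖ ^ (ex n i j k) ∣ A i j) ∧
    ∀ (i j : Fin n) (e : ℕ), k + i.val = j.val + n * e → ϖ ^ (e + 1) ∣ A i j - ϖ ^ e * a i

variable {ϖ}

theorem Sym.inW {k : ℕ} {A : Matrix (Fin n) (Fin n) R} {a : ℕ → R} (h : Sym ϖ k A a) : InW ϖ (fun _ => False) k A :=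
  ⟨h.1, fun _ _ _ _ hu => hu.choose_spec.2.elim⟩

theorem Sym.sub {k : ℕ} {A C : Matrix (Fin n) (Fin n) R} {a c : ℕ → R} (hA : Sym ϖ k A a) (hC : Sym ϖ k C c) :
    Sym ϖ k (A - C) (fun i => a i - c i) := by
  refine ⟨fun i j => dvd_sub (hA.1 i j) (hC.1 i j), fun i j e he => ?_⟩
  have := dvd_sub (hA.2 i j e he) (hC.2 i j e he)
  rw [Matrix.sub_apply]
  have e1 : A i j - C i j - ϖ ^ e * (a i - c i) = A i j - ϖ ^ e * a i - (C i j - ϖ ^ e * c i) := by ring
  rw [e1]; exact this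

theorem Sym.add {k : ℕ} {A C : Matrix (Fin n) (Fin n) R} {a c : ℕ → R} (hA : Sym ϖ k A a) (hC : Sym ϖ k C c) :
    Sym ϖ k (A + C) (fun i => a i + c i) := by
  refine ⟨fun i j => dvd_add (hA.1 i j) (hC.1 i j), fun i j e he => ?_⟩
  have := dvd_add (hA.2 i j e he) (hC.2 i j e he)
  rw [Matrix.add_apply]
  have e1 : A i j + C i j - ϖ ^ e * (a i + c i) = A i j - ϖ ^ e * a i + (C i j - ϖ ^ e * c i) := by ring
  rw [e1]; exact this

theorem Sym.of_inW_succ {k : ℕ} {A : Matrix (Fin n) (Fin n) R} (hA : InW ϖ (fun _ => False) (k + 1) A) :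
    Sym ϖ k A (fun _ => 0) := by
  refine ⟨hA.of_succ.1, fun i j e he => ?_⟩
  simp only [mul_zero, sub_zero]
  exact (pow_dvd_pow ϖ (ex_succ_crit j.2 he)).trans (hA.1 i j)

theorem Sym.inW_succ {k : ℕ} {A : Matrix (Fin n) (Fin n) R} {a : ℕ → R} (h : Sym ϖ k A a)
    (ha : ∀ i < n, ϖ ∣ a i) : InW ϖ (fun _ => False) (k + 1) A := by
  refine ⟨fun i j => ?_, fun _ _ _ _ hu => hu.choose_spec.2.elim⟩
  by_cases hc : ∃ e, k + i.val = j.val + n * e
  · obtain ⟨e, he⟩ := hc
    have h1 := h.2 i j e he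
    have h2 : ϖ ^ (e + 1) ∣ ϖ ^ e * a i := by
      rw [pow_succ]; exact mul_dvd_mul_left _ (ha i i.2)
    have h3 := dvd_add h1 h2
    rw [sub_add_cancel] at h3
    refine (pow_dvd_pow ϖ ?_).trans h3
    rw [ex_le_iff j.2, mul_add]
    have := i.2
    omega
  · exact (pow_dvd_pow ϖ (ex_succ_noncrit j.2 hc)).trans (h.1 i j)

theorem Sym.congr {k : ℕ} {A : Matrix (Fin n) (Fin n) R} {a c : ℕ → R} (h : Sym ϖ k A a)
    (ha : ∀ i < n, ϖ ∣ a i - c i) : Sym ϖ k A c := by
  refine ⟨h.1, fun i j e he => ?_⟩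
  have h1 := h.2 i j e he
  have h2 : ϖ ^ (e + 1) ∣ ϖ ^ e * (a i - c i) := by
    rw [pow_succ]; exact mul_dvd_mul_left _ (ha i i.2)
  have h3 := dvd_add h1 h2
  have e1 : A i j - ϖ ^ e * a i + ϖ ^ e * (a i - c i) = A i j - ϖ ^ e * c i := by ring
  rwa [e1] at h3

theorem InW.exists_sym {k : ℕ} {A : Matrix (Fin n) (Fin n) R} (hA : InW ϖ (fun _ => False) k A) :
    ∃ a : ℕ → R, Sym ϖ k A a := by
  have h1 : ∀ i : ℕ, ∃ r : R, ∀ (hi : i < n) (j : Fin n) (e : ℕ), k + i = j.val + n * e → A ⟨i, hi⟩ j = ϖ ^ e * r := by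
    intro i
    by_cases hi : i < n
    · have hn : 0 < n := by omega
      set j0 : Fin n := ⟨(k + i) % n, Nat.mod_lt _ hn⟩ with hj0
      have he0 : k + i = j0.val + n * ((k + i) / n) := by
        simp only [hj0]
        exact (Nat.mod_add_div _ _).symm
      have h2 := hA.1 ⟨i, hi⟩ j0
      rw [ex_crit (i := i) j0.2 he0] at h2
      obtain ⟨r, hr⟩ := h2
      refine ⟨r, fun _ j e he => ?_⟩
      have hj : j = j0 := by
        apply Fin.ext
        simp only [hj0]
        rw [he, Nat.add_mul_mod_self_left, Nat.mod_eq_of_lt j.2]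
      subst hj
      have : e = (k + i) / n := by
        have h3 : n * e = n * ((k + i) / n) := by omega
        exact Nat.eq_of_mul_eq_mul_left hn h3
      rw [this]; exact hr
    · exact ⟨0, fun h => absurd h hi⟩
  choose a ha using h1
  refine ⟨a, hA.1, fun i j e he => ?_⟩
  rw [ha i.val i.2 j e he, sub_self]
  exact dvd_zero _

theorem Sym.mul {k l : ℕ} {A C : Matrix (Fin n) (Fin n) R} {a c : ℕ → R} (hA : Sym ϖ k A a) (hC : Sym ϖ l C c) :
    Sym ϖ (k + l) (A * C) (fun i => a i * c ((i + k) % n)) := by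
  refine ⟨(hA.inW.mul hC.inW).1, fun i j e he => ?_⟩
  have hn : 0 < n := lt_of_le_of_lt (Nat.zero_le _) i.2
  set s0 : Fin n := ⟨(i.val + k) % n, Nat.mod_lt _ hn⟩ with hs0
  have he0 : k + i.val = s0.val + n * ((i.val + k) / n) := by
    simp only [hs0]
    rw [add_comm k]
    exact (Nat.mod_add_div _ _).symm
  obtain ⟨e2, he2⟩ : ∃ e2, e = (i.val + k) / n + e2 := by
    apply Nat.exists_eq_add_of_le
    by_contra hcon
    have h1 : e + 1 ≤ (i.val + k) / n := by omega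
    have h2 : n * (e + 1) ≤ n * ((i.val + k) / n) := Nat.mul_le_mul_left n h1
    rw [mul_add] at h2
    have := j.2
    omega
  have he3 : l + s0.val = j.val + n * e2 := by
    rw [he2, mul_add] at he
    omega
  rw [Matrix.mul_apply, ← Finset.add_sum_erase _ _ (Finset.mem_univ s0)]
  have h1 : ϖ ^ (e + 1) ∣ ∑ s ∈ Finset.univ.erase s0, A i s * C s j := by
    refine Finset.dvd_sum fun s hs => ?_
    rw [Finset.mem_erase] at hs
    have hnc : ¬ ∃ e1, k + i.val = s.val + n * e1 := by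
      rintro ⟨e1, h2⟩
      apply hs.1
      apply Fin.ext
      simp only [hs0]
      rw [add_comm i.val, h2, Nat.add_mul_mod_self_left, Nat.mod_eq_of_lt s.2]
    refine (pow_dvd_pow ϖ (ex_add_lt s.2 j.2 he hnc)).trans ?_
    rw [pow_add]
    exact mul_dvd_mul (hA.1 i s) (hC.1 s j)
  have h2 := hA.2 i s0 _ he0
  have h3 := hC.2 s0 j _ he3
  obtain ⟨α, hα⟩ := h2
  obtain ⟨β, hβ⟩ := h3
  have h4 : A i s0 * C s0 j - ϖ ^ e * (a i * c s0) =
      ϖ ^ (e + 1) * (α * c s0 + a i * β + ϖ * α * β) := by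
    have e1 : A i s0 = ϖ ^ ((i.val + k) / n) * a i + ϖ ^ ((i.val + k) / n + 1) * α := by rw [← hα]; ring
    have e2' : C s0 j = ϖ ^ e2 * c s0 + ϖ ^ (e2 + 1) * β := by rw [← hβ]; ring
    rw [e1, e2', he2]
    ring
  have h5 : A i s0 * C s0 j + (∑ s ∈ Finset.univ.erase s0, A i s * C s j) - ϖ ^ e * (a i * c s0) =
    (∑ s ∈ Finset.univ.erase s0, A i s * C s j) + (A i s0 * C s0 j - ϖ ^ e * (a i * c s0)) := by ring
  change ϖ ^ (e + 1) ∣ A i s0 * C s0 j + (∑ s ∈ Finset.univ.erase s0, A i s * C s j) - ϖ ^ e * (a i * c s0)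
  rw [h5, h4]
  exact dvd_add h1 (dvd_mul_right _ _)

end Sym

end Pool.Agent.Helper24Reg
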