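import Mathlib
import Pool.Agent.Helper24_Reg.Weight
import Pool.Agent.Helper24_Reg.Mats

namespace Pool.Agent.Helper24Reg

open Finset Matrix
open scoped commutatorElement

section word2
variable {F : Type*} [Field F]

/-- number of letters `true` in the window -/
def cnt (w : ℕ → Bool) (s r : ℕ) : ℕ := ((List.range r).map (fun u => if w (s + u) then 1 else 0)).sum

theorem cnt_succ_right (w : ℕ → Bool) (s r : ℕ) : cnt w s (r + 1) = cnt w s r + if w (s + r) then 1 else 0 := by
  unfold cnt
  rw [List.range_succ, List.map_append, List.sum_append]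
  simp

theorem cnt_succ_left (w : ℕ → Bool) (s r : ℕ) : cnt w s (r + 1) = (if w s then 1 else 0) + cnt w (s + 1) r := by
  unfold cnt
  rw [List.range_succ_eq_map, List.map_cons, List.sum_cons, List.map_map, add_zero]
  congr 2
  apply List.map_congr_left
  intro u _
  simp only [Function.comp_apply, Nat.succ_eq_add_one]
  rw [show s + (u + 1) = s + 1 + u by ring]

theorem cnt_one (w : ℕ → Bool) (s : ℕ) : cnt w s 1 = if w s then 1 else 0 := by
  unfold cnt
  simp

/-- the symbol of a left-normed commutator (reduced modulo `p`) -/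
def TT (lam : Bool → ℕ → F) : List Bool → ℕ → F
  | [], _ => 0
  | [a], s => lam a s
  | (a :: b :: gs), s => TT lam (b :: gs) s * lam a (s + (gs.length + 1)) - lam a s * TT lam (b :: gs) (s + 1)

theorem TT_cons (lam : Bool → ℕ → F) (a : Bool) (g : List Bool) (hg : g ≠ []) (s : ℕ) :
    TT lam (a :: g) s = TT lam g s * lam a (s + g.length) - lam a s * TT lam g (s + 1) := by
  cases g with
  | nil => exact absurd rfl hg
  | cons b gs => rfl

variable (lam : Bool → ℕ → F) (w : ℕ → Bool) (hw : ∀ i, w i = true ↔ lam false i = 0)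

include hw in
theorem TT_zero (g : List Bool) (hg : g ≠ []) (s : ℕ) (h : g.count true < cnt w s g.length) : TT lam g s = 0 := by
  induction g generalizing s with
  | nil => exact absurd rfl hg
  | cons a g ih =>
    cases g with
    | nil =>
      cases a with
      | true =>
        simp only [List.count_singleton_self, List.length_singleton, cnt] at h
        simp at h
        split_ifs at h <;> omega
      | false =>
        simp only [TT]
        rw [← hw]
        by_contra hcon
        simp [cnt, hcon] at h
    | cons b gs =>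
      set g := b :: gs with hgd
      have hgne : g ≠ [] := List.cons_ne_nil _ _
      rw [TT_cons _ _ _ hgne]
      have hr := cnt_succ_right w s g.length
      have hl := cnt_succ_left w s g.length
      rw [List.length_cons] at h
      cases a with
      | true =>
        rw [List.count_cons_self] at h
        rw [ih hgne s (by rw [hr] at h; split_ifs at h <;> omega), ih hgne (s + 1) (by rw [hl] at h; split_ifs at h <;> omega)]
        ring
      | false =>
        rw [List.count_cons_of_ne (by decide)] at h
        have e1 : TT lam g s * lam false (s + g.length) = 0 := by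
          by_cases h1 : w (s + g.length) = true
          · rw [(hw _).1 h1, mul_zero]
          · rw [ih hgne s (by rw [hr, if_neg h1] at h; omega), zero_mul]
        have e2 : lam false s * TT lam g (s + 1) = 0 := by
          by_cases h1 : w s = true
          · rw [(hw _).1 h1, zero_mul]
          · rw [ih hgne (s + 1) (by rw [hl, if_neg h1] at h; omega), mul_zero]
        rw [e1, e2, sub_zero]

/-- the relevant letter values -/
def kap (lam : Bool → ℕ → F) (w : ℕ → Bool) (i : ℕ) : F := lam (w i) i

include hw in
theorem TT_eq (g : List Bool) (hg : g ≠ []) (s : ℕ) (h : g.count true = cnt w s g.length) :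
    TT lam g s = (∏ u ∈ range g.length, kap lam w (s + u)) * cc F w g s := by
  induction g generalizing s with
  | nil => exact absurd rfl hg
  | cons a g ih =>
    cases g with
    | nil =>
      have hws : w s = a := by
        rw [List.length_singleton, cnt_one] at h
        cases a with
        | true =>
          by_contra hcon
          rw [if_neg hcon, List.count_singleton_self] at h
          omega
        | false =>
          by_contra hcon
          have hcon' : w s = true := by simpa using hcon
          rw [if_pos hcon'] at h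
          simp at h
      have e0 : TT lam [a] s = lam a s := rfl
      have e1 : cc F w [a] s = if w s = a then 1 else 0 := rfl
      rw [e0, e1, if_pos hws, List.length_singleton, Finset.prod_range_one, add_zero, mul_one, kap, hws]
    | cons b gs =>
      set g := b :: gs with hgd
      have hgne : g ≠ [] := List.cons_ne_nil _ _
      rw [TT_cons _ _ _ hgne, cc_cons _ _ _ hgne]
      have hr := cnt_succ_right w s g.length
      have hl := cnt_succ_left w s g.length
      rw [show (a :: g).length = g.length + 1 from rfl] at h ⊢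
      have e1 : TT lam g s * lam a (s + g.length) =
          (∏ u ∈ range (g.length + 1), kap lam w (s + u)) * (if w (s + g.length) = a then cc F w g s else 0) := by
        rw [Finset.prod_range_succ]
        by_cases h1 : w (s + g.length) = a
        · rw [if_pos h1, ih hgne s ?_]
          · have : kap lam w (s + g.length) = lam a (s + g.length) := by rw [kap, h1]
            rw [this]; ring
          · cases a with
            | true => rw [List.count_cons_self, hr, if_pos h1] at h; omega
            | false => rw [List.count_cons_of_ne (by decide), hr, if_neg (by rw [h1]; decide)] at h; omega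
        · rw [if_neg h1, mul_zero]
          cases a with
          | true =>
            rw [TT_zero lam w hw g hgne s, zero_mul]
            rw [List.count_cons_self, hr, if_neg h1] at h
            omega
          | false =>
            have h2 : w (s + g.length) = true := by simpa using h1
            rw [(hw _).1 h2, mul_zero]
      have e2 : lam a s * TT lam g (s + 1) =
          (∏ u ∈ range (g.length + 1), kap lam w (s + u)) * (if w s = a then cc F w g (s + 1) else 0) := by
        rw [Finset.prod_range_succ']
        have e3 : (∏ u ∈ range g.length, kap lam w (s + (u + 1))) = ∏ u ∈ range g.length, kap lam w (s + 1 + u) :=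
          Finset.prod_congr rfl fun u _ => by rw [show s + (u + 1) = s + 1 + u by ring]
        rw [e3, add_zero]
        by_cases h1 : w s = a
        · rw [if_pos h1, ih hgne (s + 1) ?_]
          · have : kap lam w s = lam a s := by rw [kap, h1]
            rw [this]; ring
          · cases a with
            | true => rw [List.count_cons_self, hl, if_pos h1] at h; omega
            | false => rw [List.count_cons_of_ne (by decide), hl, if_neg (by rw [h1]; decide)] at h; omega
        · rw [if_neg h1, mul_zero]
          cases a with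
          | true =>
            rw [TT_zero lam w hw g hgne (s + 1), mul_zero]
            rw [List.count_cons_self, hl, if_neg h1] at h
            omega
          | false =>
            have h2 : w s = true := by simpa using h1
            rw [(hw _).1 h2, zero_mul]
      rw [e1, e2, mul_sub]

theorem cc_count (g : List Bool) (hg : g ≠ []) (s : ℕ) (h : cc F w g s ≠ 0) : g.count true = cnt w s g.length := by
  induction g generalizing s with
  | nil => exact absurd rfl hg
  | cons a g ih =>
    cases g with
    | nil =>
      simp only [cc] at h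
      have hws : w s = a := by
        by_contra hcon
        rw [if_neg hcon] at h
        exact h rfl
      cases a with
      | true => simp [cnt, hws]
      | false => simp [cnt, hws]
    | cons b gs =>
      set g := b :: gs with hgd
      have hgne : g ≠ [] := List.cons_ne_nil _ _
      rw [cc_cons _ _ _ hgne] at h
      have hr := cnt_succ_right w s g.length
      have hl := cnt_succ_left w s g.length
      rw [List.length_cons]
      have h2 : (w (s + g.length) = a ∧ cc F w g s ≠ 0) ∨ (w s = a ∧ cc F w g (s + 1) ≠ 0) := by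
        by_contra hcon
        rw [not_or, not_and_or, not_and_or, not_not, not_not] at hcon
        apply h
        rcases hcon.1 with h3 | h3 <;> rcases hcon.2 with h4 | h4
        · rw [if_neg h3, if_neg h4, sub_zero]
        · rw [if_neg h3, h4]; simp
        · rw [if_neg h4, h3]; simp
        · rw [h3, h4]; simp
      rcases h2 with ⟨h3, h4⟩ | ⟨h3, h4⟩
      · have := ih hgne s h4
        cases a with
        | true => rw [List.count_cons_self, hr, if_pos h3]; omega
        | false => rw [List.count_cons_of_ne (by decide), hr, if_neg (by rw [h3]; decide)]; omega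
      · have := ih hgne (s + 1) h4
        cases a with
        | true => rw [List.count_cons_self, hl, if_pos h3]; omega
        | false => rw [List.count_cons_of_ne (by decide), hl, if_neg (by rw [h3]; decide)]; omega

end word2

section symcomm
variable {R : Type*} [CommRing R] [Finite R] {ϖ : R} {n : ℕ}

theorem sym_commutator {k l : ℕ} (hk : 1 ≤ k) (hl : 1 ≤ l) {g h : GL (Fin n) R} {a b : ℕ → R}
    (hg : Sym ϖ k (g.1 - 1) a) (hh : Sym ϖ l (h.1 - 1) b) :
    Sym ϖ (k + l) ((⁅g, h⁆).1 - 1) (fun i => a i * b ((i + k) % n) - b i * a ((i + l) % n)) := by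
  rw [commutator_val]
  have h1 := hg.mul hh
  have h2 := hh.mul hg
  rw [add_comm l k] at h2
  have h3 := h1.sub h2
  set M := (g.1 - 1) * (h.1 - 1) - (h.1 - 1) * (g.1 - 1) with hM
  have hgi : g⁻¹ ∈ UU ϖ n (fun _ => False) 1 := (UU ϖ n (fun _ => False) 1).inv_mem (UU_antitone hk (show g ∈ UU ϖ n _ k from hg.inW))
  have hhi : h⁻¹ ∈ UU ϖ n (fun _ => False) 1 := (UU ϖ n (fun _ => False) 1).inv_mem (UU_antitone hl (show h ∈ UU ϖ n _ l from hh.inW))
  have hgh : InW ϖ (fun _ => False) 1 ((g⁻¹).1 * (h⁻¹).1 - 1) := by
    have := (UU ϖ n (fun _ => False) 1).mul_mem hgi hhi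
    rw [mem_UU, Units.val_mul] at this
    exact this
  have e : M * ((g⁻¹).1 * (h⁻¹).1) = M + M * ((g⁻¹).1 * (h⁻¹).1 - 1) := by noncomm_ring
  rw [e]
  have h4 := h3.add (Sym.of_inW_succ (h3.inW.mul hgh))
  refine h4.congr fun i _ => ?_
  simp

theorem sym_mul {k : ℕ} (hk : 1 ≤ k) {g h : GL (Fin n) R} {a b : ℕ → R}
    (hg : Sym ϖ k (g.1 - 1) a) (hh : Sym ϖ k (h.1 - 1) b) :
    Sym ϖ k ((g * h).1 - 1) (fun i => a i + b i) := by
  have e : (g * h).1 - 1 = (g.1 - 1) + (h.1 - 1) + (g.1 - 1) * (h.1 - 1) := by
    rw [Units.val_mul]; noncomm_ring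
  rw [e]
  have h1 := (hg.inW.mul hh.inW).mono (show k + 1 ≤ k + k by omega)
  refine ((hg.add hh).add (Sym.of_inW_succ h1)).congr fun i _ => ?_
  simp

theorem sym_pow {k : ℕ} (hk : 1 ≤ k) {g : GL (Fin n) R} {a : ℕ → R}
    (hg : Sym ϖ k (g.1 - 1) a) (N : ℕ) :
    Sym ϖ k ((g ^ N).1 - 1) (fun i => N * a i) := by
  induction N with
  | zero =>
    rw [pow_zero, Units.val_one, sub_self]
    refine (Sym.of_inW_succ (InW.zero (k + 1))).congr fun i _ => ?_
    simp
  | succ N ih =>
    rw [pow_succ]
    refine (sym_mul hk ih hg).congr fun i _ => ?_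
    push_cast
    have : (N : R) * a i + a i - ((N : R) + 1) * a i = 0 := by ring
    rw [this]; exact dvd_zero _

end symcomm

section ppow
variable {n p m : ℕ} [hp : Fact p.Prime]

theorem InW.natMul {k : ℕ} {A : Matrix (Fin n) (Fin n) (ZMod (p ^ m))}
    (hA : InW ((p : ℕ) : ZMod (p ^ m)) (fun _ => False) k A) :
    InW ((p : ℕ) : ZMod (p ^ m)) (fun _ => False) (k + n) (((p : ℕ) : Matrix (Fin n) (Fin n) (ZMod (p ^ m))) * A) := by
  refine ⟨fun i j => ?_, fun _ _ _ _ hu => hu.choose_spec.2.elim⟩
  rw [natCast_mul_apply]
  refine (pow_dvd_pow _ (ex_add_n j.2)).trans ?_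
  rw [pow_succ']
  exact mul_dvd_mul_left _ (hA.1 i j)

theorem Sym.natMul {k : ℕ} {A : Matrix (Fin n) (Fin n) (ZMod (p ^ m))} {a : ℕ → ZMod (p ^ m)}
    (hA : Sym ((p : ℕ) : ZMod (p ^ m)) k A a) :
    Sym ((p : ℕ) : ZMod (p ^ m)) (k + n) (((p : ℕ) : Matrix (Fin n) (Fin n) (ZMod (p ^ m))) * A) a := by
  refine ⟨hA.inW.natMul.1, fun i j e he => ?_⟩
  rw [natCast_mul_apply]
  obtain ⟨e', rfl⟩ : ∃ e', e = e' + 1 := by
    rcases Nat.eq_zero_or_pos e with rfl | h
    · have := j.2
      omega
    · exact ⟨e - 1, by omega⟩
  have h1 := hA.2 i j e' (by rw [mul_add] at he; omega)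
  rw [pow_succ' _ (e' + 1), pow_succ' _ e', mul_assoc, ← mul_sub, ← pow_succ']
  exact mul_dvd_mul_left _ h1

theorem sym_ppow {k : ℕ} (hk : 1 ≤ k) (hkn : n + 1 ≤ (p - 1) * k) {g : GL (Fin n) (ZMod (p ^ m))} {a : ℕ → ZMod (p ^ m)}
    (hg : Sym ((p : ℕ) : ZMod (p ^ m)) k (g.1 - 1) a) :
    Sym ((p : ℕ) : ZMod (p ^ m)) (k + n) ((g ^ p).1 - 1) a := by
  set C := g.1 - 1 with hC
  have hg1 : g.1 = C + 1 := by rw [hC, sub_add_cancel]
  have e : (g ^ p).1 - 1 = ((p : ℕ) : Matrix (Fin n) (Fin n) (ZMod (p ^ m))) * C +
      ((∑ t ∈ Ico 2 p, ((p.choose t : ℕ) : Matrix (Fin n) (Fin n) (ZMod (p ^ m))) * C ^ t) + C ^ p) := by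
    rw [Units.val_pow_eq_pow_val, hg1, (Commute.one_right C).add_pow]
    have h1 : ∀ t, C ^ t * 1 ^ (p - t) * ((p.choose t : ℕ) : Matrix (Fin n) (Fin n) (ZMod (p ^ m))) =
        ((p.choose t : ℕ) : Matrix (Fin n) (Fin n) (ZMod (p ^ m))) * C ^ t := by
      intro t
      rw [one_pow, mul_one, (Nat.cast_commute _ _).eq]
    rw [Finset.sum_congr rfl (fun t _ => h1 t), Finset.sum_range_succ, Finset.range_eq_Ico,
      Finset.sum_eq_sum_Ico_succ_bot hp.out.pos, Finset.sum_eq_sum_Ico_succ_bot (by have := hp.out.two_le; omega)]
    simp only [Nat.choose_zero_right, Nat.cast_one, pow_zero, mul_one, zero_add, Nat.choose_one_right, pow_one,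
      Nat.choose_self, one_mul, Nat.reduceAdd]
    abel
  rw [e]
  have h2 : InW ((p : ℕ) : ZMod (p ^ m)) (fun _ => False) (k + n + 1)
      ((∑ t ∈ Ico 2 p, ((p.choose t : ℕ) : Matrix (Fin n) (Fin n) (ZMod (p ^ m))) * C ^ t) + C ^ p) := by
    refine InW.add ?_ ?_
    · have h3 : ∀ t ∈ Ico 2 p, InW ((p : ℕ) : ZMod (p ^ m)) (fun _ => False) (k + n + 1)
          (((p.choose t : ℕ) : Matrix (Fin n) (Fin n) (ZMod (p ^ m))) * C ^ t) := by
        intro t ht
        rw [Finset.mem_Ico] at ht
        obtain ⟨c, hc⟩ := hp.out.dvd_choose_self (k := t) (by omega) ht.2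
        rw [hc, Nat.cast_mul, mul_assoc]
        have h4 : InW ((p : ℕ) : ZMod (p ^ m)) (fun _ => False) (t * k) (C ^ t) := hg.inW.pow t
        have h5 : InW ((p : ℕ) : ZMod (p ^ m)) (fun _ => False) (t * k) ((c : Matrix (Fin n) (Fin n) (ZMod (p ^ m))) * C ^ t) := by
          refine ⟨fun i j => ?_, fun _ _ _ _ hu => hu.choose_spec.2.elim⟩
          rw [natCast_mul_apply]
          exact Dvd.dvd.mul_left (h4.1 i j) _
        refine h5.natMul.mono ?_
        have : 2 * k ≤ t * k := Nat.mul_le_mul_right k ht.1
        omega
      exact Finset.sum_induction _ (fun A => InW ((p : ℕ) : ZMod (p ^ m)) (fun _ => False) (k + n + 1) A)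
        (fun _ _ ha hb => ha.add hb) (InW.zero _) h3
    · refine (hg.inW.pow p).mono ?_
      have h6 : p * k = (p - 1) * k + k := by
        have := hp.out.pos
        conv_lhs => rw [← Nat.sub_add_cancel this]
        ring
      omega
  refine (hg.natMul.add (Sym.of_inW_succ h2)).congr fun i _ => ?_
  simp

theorem sym_ppow_iter {k : ℕ} (hk : 1 ≤ k) (hkn : n + 1 ≤ (p - 1) * k) {g : GL (Fin n) (ZMod (p ^ m))} {a : ℕ → ZMod (p ^ m)}
    (hg : Sym ((p : ℕ) : ZMod (p ^ m)) k (g.1 - 1) a) (j : ℕ) :
    Sym ((p : ℕ) : ZMod (p ^ m)) (k + j * n) ((g ^ (p ^ j)).1 - 1) a := by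
  induction j with
  | zero => rw [zero_mul, add_zero, pow_zero, pow_one]; exact hg
  | succ j ih =>
    have h1 : n + 1 ≤ (p - 1) * (k + j * n) := by
      rw [mul_add]; omega
    have := sym_ppow (by omega) h1 ih
    rw [← pow_mul, ← pow_succ] at this
    rwa [show k + (j + 1) * n = k + j * n + n by ring]

end ppow

end Pool.Agent.Helper24Reg
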