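import Mathlib
import Pool.Agent.Helper24_Reg.Reg
import Pool.Agent.Helper24_Reg.Irr2

namespace Pool.Agent.Helper24Reg

open Finset Matrix
open scoped commutatorElement

section aux
variable {p m : ℕ} [hp : Fact p.Prime]

theorem castHom_eq_zero_iff (hm : m ≠ 0) (r : ZMod (p ^ m)) :
    ZMod.castHom (dvd_pow_self p hm) (ZMod p) r = 0 ↔ ((p : ℕ) : ZMod (p ^ m)) ∣ r := by
  have hne : NeZero (p ^ m) := ⟨pow_ne_zero _ hp.out.ne_zero⟩
  constructor
  · intro h
    obtain ⟨z, hz⟩ : ∃ z : ℕ, (z : ZMod (p ^ m)) = r := ⟨r.val, ZMod.natCast_zmod_val _⟩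
    rw [← hz, map_natCast, ZMod.natCast_eq_zero_iff] at h
    obtain ⟨c, rfl⟩ := h
    rw [← hz, Nat.cast_mul]
    exact dvd_mul_right _ _
  · rintro ⟨s, rfl⟩
    rw [map_mul, map_natCast, ZMod.natCast_self, zero_mul]

theorem cast_pow_eq_zero : ((p : ℕ) : ZMod (p ^ m)) ^ m = 0 := by
  rw [← Nat.cast_pow, ZMod.natCast_self]

/-- Entries of a matrix of weight `mn-1`. -/
theorem top_entries {n : ℕ} (hn : 0 < n) (hm : 0 < m) {B : ℕ → Prop} {A : Matrix (Fin n) (Fin n) (ZMod (p ^ m))} {q : ℕ} (hq : q + 1 = m * n)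
    (hA : InW ((p : ℕ) : ZMod (p ^ m)) B q A) (i j : Fin n) (hij : ¬ (i.val = 0 ∧ j.val = n - 1)) : A i j = 0 := by
  have h1 : m ≤ ex n i j q := by
    by_contra hcon
    have h2 : ex n i j q ≤ m - 1 := by omega
    rw [ex_le_iff j.2] at h2
    have h3 : n * (m - 1) + n = m * n := by
      obtain ⟨m', rfl⟩ : ∃ m', m = m' + 1 := ⟨m - 1, by omega⟩
      simp only [Nat.add_sub_cancel]
      ring
    have h4 := j.2
    omega
  have h2 := (pow_dvd_pow ((p : ℕ) : ZMod (p ^ m)) h1).trans (hA.1 i j)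
  rw [cast_pow_eq_zero] at h2
  exact zero_dvd_iff.1 h2

theorem top_crit {n : ℕ} (hn : 0 < n) (hm : 0 < m) {q : ℕ} (hq : q + 1 = m * n) : q + 0 = (n - 1) + n * (m - 1) := by
  obtain ⟨m', rfl⟩ : ∃ m', m = m' + 1 := ⟨m - 1, by omega⟩
  simp only [Nat.add_sub_cancel]
  have : (m' + 1) * n = n * m' + n := by ring
  omega

end aux

/-- **Regularity.** If `m ≥ 3` and `p ≥ mn - 1` then `P_n(ℤ/p^m)` is regular. -/
theorem regular_of_le (p m n : ℕ) [hp : Fact p.Prime] (hm : 3 ≤ m) (hpn : m * n ≤ p + 1) :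
    IsRegular p (P p m n) := by
  intro x0 y0
  apply RegPair.of_map (P p m n).subtype (Subgroup.subtype_injective _)
  have hx0 : PCond ((p : ℕ) : ZMod (p ^ m)) x0.1.1 := x0.2
  have hy0 : PCond ((p : ℕ) : ZMod (p ^ m)) y0.1.1 := y0.2
  change RegPair p x0.1 y0.1
  generalize x0.1 = x at hx0 ⊢
  generalize y0.1 = y at hy0 ⊢
  clear x0 y0
  have hne : NeZero (p ^ m) := ⟨pow_ne_zero _ hp.out.ne_zero⟩
  have hm0 : m ≠ 0 := by omega
  set ϖ : ZMod (p ^ m) := ((p : ℕ) : ZMod (p ^ m)) with hϖ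
  have hϖm : ϖ ^ m = 0 := cast_pow_eq_zero
  rw [pCond_iff_InW] at hx0 hy0
  set H := Subgroup.closure ({x, y} : Set (GL (Fin n) (ZMod (p ^ m)))) with hH
  have hHU : ∀ (B : ℕ → Prop), InW ϖ B 1 (x.1 - 1) → InW ϖ B 1 (y.1 - 1) → H ≤ UU ϖ n B 1 := by
    intro B h1 h2
    rw [hH, Subgroup.closure_le]
    rintro z (rfl | hz)
    · exact h1
    · rw [Set.mem_singleton_iff] at hz; subst hz; exact h2
  have hH1 := hHU _ hx0 hy0
  -- trivial last step
  have triv : ∀ c : GL (Fin n) (ZMod (p ^ m)), c = 1 →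
      ∃ l : List (GL (Fin n) (ZMod (p ^ m))), (∀ d ∈ l, d ∈ ⁅H, H⁆) ∧ c = (l.map (fun d => d ^ p)).prod := by
    rintro c rfl
    exact ⟨[], by simp, by simp⟩
  -- criterion with U_k
  have crit : ∀ (B : ℕ → Prop), H ≤ UU ϖ n B 1 →
      (∀ c ∈ ⁅H, H⁆ ⊓ UU ϖ n B p, ∃ l : List (GL (Fin n) (ZMod (p ^ m))), (∀ d ∈ l, d ∈ ⁅H, H⁆) ∧ c = (l.map (fun d => d ^ p)).prod) →
      RegPair p x y := by
    intro B hB hl
    refine reg_criterion p hp.out x y (UU ϖ n B) UU_antitone H hH ?_ ?_ ?_ hl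
    · exact le_trans (Subgroup.commutator_mono hB hB) (commutator_UU 1 1)
    · intro i _ j _; exact commutator_UU i j
    · intro i _; exact le_trans (Subgroup.commutator_mono le_rfl hB) (commutator_UU i 1)
  rcases Nat.lt_or_ge p (m * n) with hlt | hge
  swap
  · -- class < p
    refine crit _ hH1 ?_
    intro c hc
    apply triv
    have h1 := InW.eq_zero hϖm hge (mem_UU.1 hc.2)
    exact Units.ext (sub_eq_zero.1 h1)
  have hpmn : p + 1 = m * n := by omega
  have hn0 : 0 < n := by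
    rcases Nat.eq_zero_or_pos n with rfl | h
    · simp at hpmn
    · exact h
  have hp2 := hp.out.two_le
  -- n = 1
  rcases Nat.eq_or_lt_of_le (show 1 ≤ n from hn0) with hn1 | hn2
  · subst hn1
    have hcomm : x * y = y * x := by
      apply Units.ext
      ext i j
      rw [Units.val_mul, Units.val_mul, Matrix.mul_apply, Matrix.mul_apply]
      have hi : i = 0 := Subsingleton.elim _ _
      have hj : j = 0 := Subsingleton.elim _ _
      subst hi; subst hj
      simp [mul_comm]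
    refine ⟨[], by simp, ?_⟩
    rw [(show Commute x y from hcomm).mul_pow]
    simp
  obtain ⟨α, hα⟩ := hx0.exists_sym
  obtain ⟨β, hβ⟩ := hy0.exists_sym
  let f := ZMod.castHom (dvd_pow_self p hm0) (ZMod p)
  have hf : ∀ r, f r = 0 ↔ ϖ ∣ r := castHom_eq_zero_iff hm0
  -- Case A
  by_cases hA : ∃ i0 < n, f (α i0) = 0 ∧ f (β i0) = 0
  · obtain ⟨i0, hi0, ha0, hb0⟩ := hA
    have hsym : ∀ (A : Matrix (Fin n) (Fin n) (ZMod (p ^ m))) (a : ℕ → ZMod (p ^ m)), Sym ϖ 1 A a → f (a i0) = 0 →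
        InW ϖ (fun i => i = i0) 1 A := by
      intro A a hs ha
      refine ⟨hs.1, fun i j e he hu => ?_⟩
      obtain ⟨u, hu, hui⟩ := hu
      have hu0 : u = 0 := by omega
      subst hu0
      rw [add_zero, Nat.mod_eq_of_lt i.2] at hui
      have h1 := hs.2 i j e he
      have h2 : ϖ ^ (e + 1) ∣ ϖ ^ e * a i := by
        rw [pow_succ, hui]; exact mul_dvd_mul_left _ ((hf _).1 ha)
      have h3 := dvd_add h1 h2
      rwa [sub_add_cancel] at h3
    refine crit _ (hHU _ (hsym _ _ hα ha0) (hsym _ _ hβ hb0)) ?_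
    intro c hc
    apply triv
    have h1 := mem_UU.1 hc.2
    have h2 : c.1 - 1 = 0 := by
      ext i j
      rw [Matrix.zero_apply]
      by_cases hij : i.val = 0 ∧ j.val = n - 1
      · have h3 := h1.2 i j (m - 1) (by rw [hij.1, hij.2]; exact top_crit hn0 (by omega) hpmn) ⟨i0, by nlinarith, by
          rw [hij.1, zero_add, Nat.mod_eq_of_lt hi0]⟩
        rw [Nat.sub_add_cancel (by omega), hϖm] at h3
        exact zero_dvd_iff.1 h3
      · exact top_entries hn0 (by omega) hpmn h1 i j hij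
    exact Units.ext (sub_eq_zero.1 h2)
  push Not at hA
  -- Case B
  by_cases hB : ∀ i < n, ∀ j < n, f (α i) * f (β j) = f (α j) * f (β i)
  · have hs2 := sym_commutator le_rfl le_rfl hα hβ
    have h3 : ⁅x, y⁆ ∈ UU ϖ n (fun _ => False) 3 := by
      rw [mem_UU]
      refine hs2.inW_succ fun i hi => ?_
      rw [← hf, map_sub, map_mul, map_mul, sub_eq_zero, hB i hi _ (Nat.mod_lt _ hn0), mul_comm]
    have hconj : ∀ g ∈ UU ϖ n (fun _ => False) 1, ∀ k ∈ UU ϖ n (fun _ => False) 3, g * k * g⁻¹ ∈ UU ϖ n (fun _ => False) 3 := by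
      intro g hg k hk
      have h4 := UU_antitone (by norm_num : 3 ≤ 1 + 3) (commutator_UU 1 3 (Subgroup.commutator_mem_commutator hg hk))
      have e : g * k * g⁻¹ = ⁅g, k⁆ * k := by rw [commutatorElement_def]; group
      rw [e]; exact Subgroup.mul_mem _ h4 hk
    have hconj' : ∀ g ∈ UU ϖ n (fun _ => False) 1, ∀ k ∈ UU ϖ n (fun _ => False) 3, g⁻¹ * k * g ∈ UU ϖ n (fun _ => False) 3 := by
      intro g hg k hk
      have := hconj g⁻¹ (Subgroup.inv_mem _ hg) k hk
      rwa [inv_inv] at this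
    have hH3 : ⁅H, H⁆ ≤ UU ϖ n (fun _ => False) 3 :=
      commutator_closure_le _ x y (hconj' x hx0) (hconj x hx0) (hconj' y hy0) (hconj y hy0) h3
    refine reg_criterion p hp.out x y (fun k => UU ϖ n (fun _ => False) (k + 1)) (fun _ _ h => UU_antitone (by omega)) H hH hH3 ?_ ?_ ?_
    · intro i _ j _
      exact le_trans (commutator_UU (i + 1) (j + 1)) (UU_antitone (by omega))
    · intro i _
      exact le_trans (Subgroup.commutator_mono le_rfl hH1) (commutator_UU (i + 1) 1)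
    · intro c hc
      apply triv
      have h1 := InW.eq_zero hϖm (by omega) (mem_UU.1 hc.2)
      exact Units.ext (sub_eq_zero.1 h1)
  -- Case C
  push Not at hB
  obtain ⟨i0, hi0, j0, hj0, hne0⟩ := hB
  refine crit _ hH1 ?_
  intro c hc
  -- the elements x' and y'
  obtain ⟨x', α', hx'H, hx's, hx'ne⟩ : ∃ (x' : GL (Fin n) (ZMod (p ^ m))) (α' : ℕ → ZMod (p ^ m)), x' ∈ H ∧ Sym ϖ 1 (x'.1 - 1) α' ∧
      ∀ i < n, f (β i0) * f (α i) - f (α i0) * f (β i) = 0 → f (α' i) ≠ 0 := by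
    by_cases ha0 : f (α i0) = 0
    · refine ⟨y, β, Subgroup.subset_closure (by simp), hβ, fun i hi h => ?_⟩
      rw [ha0, zero_mul, sub_zero] at h
      have hb0 := hA i0 hi0 ha0
      exact hA i hi ((mul_eq_zero.1 h).resolve_left hb0)
    · refine ⟨x, α, Subgroup.subset_closure (by simp), hα, fun i hi h hai => ?_⟩
      rw [hai, mul_zero, zero_sub, neg_eq_zero] at h
      exact hA i hi hai ((mul_eq_zero.1 h).resolve_left ha0)
  obtain ⟨y', β', hy'H, hy's, hy'e⟩ : ∃ (y' : GL (Fin n) (ZMod (p ^ m))) (β' : ℕ → ZMod (p ^ m)), y' ∈ H ∧ Sym ϖ 1 (y'.1 - 1) β' ∧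
      ∀ i, f (β' i) = f (β i0) * f (α i) - f (α i0) * f (β i) := by
    refine ⟨x ^ (f (β i0)).val * y ^ (-f (α i0)).val, _, ?_, sym_mul le_rfl (sym_pow le_rfl hα _) (sym_pow le_rfl hβ _), ?_⟩
    · exact H.mul_mem (H.pow_mem (Subgroup.subset_closure (by simp)) _) (H.pow_mem (Subgroup.subset_closure (by simp)) _)
    · intro i
      rw [map_add, map_mul, map_mul, map_natCast, map_natCast, ZMod.natCast_zmod_val, ZMod.natCast_zmod_val]
      ring
  -- the word
  let lam : Bool → ℕ → ZMod p := fun b i => if b then f (α' (i % n)) else f (β' (i % n))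
  let w : ℕ → Bool := fun i => decide (f (β' (i % n)) = 0)
  have hw : ∀ i, w i = true ↔ lam false i = 0 := by
    intro i
    simp [w, lam]
  have hkap : ∀ i, kap lam w i ≠ 0 := by
    intro i
    by_cases h : f (β' (i % n)) = 0
    · have hwi : w i = true := by simp [w, h]
      simp only [kap, hwi]
      simp only [lam, if_true]
      exact hx'ne _ (Nat.mod_lt _ hn0) (by rw [← hy'e]; exact h)
    · have hwi : w i = false := by simp [w, h]
      simp only [kap, hwi]
      simp only [lam]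
      exact h
  -- the group elements
  have hgel : ∀ g : List Bool, g ≠ [] → ∃ (u : GL (Fin n) (ZMod (p ^ m))) (a : ℕ → ZMod (p ^ m)), u ∈ H ∧
      (2 ≤ g.length → u ∈ ⁅H, H⁆) ∧ Sym ϖ g.length (u.1 - 1) a ∧ ∀ s, f (a (s % n)) = TT lam g s := by
    intro g
    induction g with
    | nil => intro h; exact absurd rfl h
    | cons b g ih =>
      intro _
      have hlet : ∃ (u : GL (Fin n) (ZMod (p ^ m))) (a : ℕ → ZMod (p ^ m)), u ∈ H ∧ Sym ϖ 1 (u.1 - 1) a ∧ ∀ s, f (a (s % n)) = lam b s := by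
        cases b with
        | true => exact ⟨x', α', hx'H, hx's, fun s => rfl⟩
        | false => exact ⟨y', β', hy'H, hy's, fun s => rfl⟩
      obtain ⟨v, c', hvH, hvs, hvl⟩ := hlet
      by_cases hg : g = []
      · subst hg
        exact ⟨v, c', hvH, fun h => by simp at h, hvs, hvl⟩
      · obtain ⟨u, a, huH, -, hus, hul⟩ := ih hg
        have hlen : 1 ≤ g.length := List.length_pos_iff.2 hg
        refine ⟨⁅u, v⁆, _, ?_, fun _ => Subgroup.commutator_mem_commutator huH hvH, sym_commutator hlen le_rfl hus hvs, ?_⟩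
        · rw [commutatorElement_def]
          exact H.mul_mem (H.mul_mem (H.mul_mem huH hvH) (H.inv_mem huH)) (H.inv_mem hvH)
        · intro s
          rw [TT_cons _ _ _ hg, map_sub, map_mul, map_mul, Nat.mod_add_mod, Nat.mod_add_mod, hul, hvl, hvl, hul]
  -- choose the word
  have hodd : ¬ Even (2 * n - 1) := by
    rw [Nat.not_even_iff_odd]
    exact ⟨n - 1, by omega⟩
  have h3n : 3 * n ≤ m * n := Nat.mul_le_mul_right n hm
  obtain ⟨g, hglen, hgne⟩ : ∃ g : List Bool, g.length = 2 * n - 1 ∧ cc (ZMod p) w g 0 ≠ 0 := by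
    by_contra hcon
    push Not at hcon
    obtain ⟨-, h4⟩ := cc_main p w (2 * n - 1) (by omega) (by omega) 0 hcon
    rcases h4 with h4 | h4
    · have e1 := h4 i0 (by omega)
      have e2 := h4 j0 (by omega)
      rw [zero_add] at e1 e2
      have e3 : w i0 = true := by
        simp only [w, decide_eq_true_eq, Nat.mod_eq_of_lt hi0]
        rw [hy'e]; ring
      have e4 : w j0 = true := by rw [e2, ← e1]; exact e3
      simp only [w, decide_eq_true_eq, Nat.mod_eq_of_lt hj0] at e4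
      rw [hy'e, sub_eq_zero] at e4
      apply hne0
      rw [← e4, mul_comm]
    · exact hodd h4.1
  have hgnil : g ≠ [] := by rintro rfl; simp at hglen; omega
  obtain ⟨u, a, huH, huH', hus, hul⟩ := hgel g hgnil
  have huH'' := huH' (by omega)
  have ha0 : f (a 0) ≠ 0 := by
    have h1 := hul 0
    rw [Nat.zero_mod] at h1
    rw [h1, TT_eq lam w hw g hgnil 0 (cc_count w g hgnil 0 hgne)]
    exact mul_ne_zero (Finset.prod_ne_zero_iff.2 fun u _ => hkap _) hgne
  rw [hglen] at hus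
  -- p-power
  have hiter := sym_ppow_iter (by omega) (by
    have : n + 1 ≤ 2 * n - 1 + 0 ∨ n = 2 ∨ n = 1 := by omega
    have h5 : 1 * (2 * n - 1) ≤ (p - 1) * (2 * n - 1) := Nat.mul_le_mul_right _ (by omega)
    rcases this with h6 | h6 | h6
    · omega
    · subst h6
      omega
    · omega) hus (m - 2)
  have hwt : 2 * n - 1 + (m - 2) * n = p := by
    obtain ⟨m', rfl⟩ : ∃ m', m = m' + 2 := ⟨m - 2, by omega⟩
    simp only [Nat.add_sub_cancel]
    have : (m' + 2) * n = m' * n + 2 * n := by ring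
    omega
  rw [hwt] at hiter
  set d0 := u ^ (p ^ (m - 2)) with hd0
  set D := d0.1 - 1 with hD
  have hDD : D * D = 0 := InW.eq_zero hϖm (by omega) (hiter.inW.mul hiter.inW)
  have hpowD : ∀ t : ℕ, (d0 ^ t).1 = 1 + (t : Matrix (Fin n) (Fin n) (ZMod (p ^ m))) * D := by
    intro t
    have h1 : d0.1 = 1 + D := by rw [hD]; abel
    induction t with
    | zero => simp
    | succ t ih =>
      rw [pow_succ, Units.val_mul, ih, h1, add_mul, mul_add, one_mul, mul_add, mul_one, mul_assoc, hDD, mul_zero]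
      push_cast
      noncomm_ring
  -- entries at the top
  have hcU := mem_UU.1 hc.2
  set i1 : Fin n := ⟨0, hn0⟩ with hi1
  set j1 : Fin n := ⟨n - 1, by omega⟩ with hj1
  have hcr : p + i1.val = j1.val + n * (m - 1) := top_crit hn0 (by omega) hpmn
  obtain ⟨s, hs⟩ : ϖ ^ (m - 1) ∣ (c.1 - 1) i1 j1 := by
    have := hcU.1 i1 j1
    rwa [ex_crit j1.2 hcr] at this
  have hDtop : D i1 j1 = ϖ ^ (m - 1) * a 0 := by
    have h1 := hiter.2 i1 j1 (m - 1) hcr
    rw [Nat.sub_add_cancel (by omega), hϖm] at h1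
    exact sub_eq_zero.1 (zero_dvd_iff.1 h1)
  obtain ⟨t, ht⟩ : ∃ t : ℕ, t = (f s / f (a 0)).val := ⟨_, rfl⟩
  have hst : ϖ ∣ s - t * a 0 := by
    rw [← hf, map_sub, map_mul, map_natCast, ht, ZMod.natCast_zmod_val, div_mul_cancel₀ _ ha0, sub_self]
  have hceq : c = d0 ^ t := by
    apply Units.ext
    rw [hpowD t]
    have h1 : c.1 - 1 = (t : Matrix (Fin n) (Fin n) (ZMod (p ^ m))) * D := by
      ext i j
      by_cases hij : i.val = 0 ∧ j.val = n - 1
      · have e1 : i = i1 := Fin.ext hij.1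
        have e2 : j = j1 := Fin.ext hij.2
        rw [e1, e2, hs, natCast_mul_apply, hDtop]
        obtain ⟨z, hz⟩ := hst
        have : s = t * a 0 + ϖ * z := by rw [← hz]; ring
        have h9 : ϖ ^ (m - 1) * ϖ = 0 := by
          rw [← pow_succ, Nat.sub_add_cancel (by omega), hϖm]
        rw [this, mul_add, ← mul_assoc (ϖ ^ (m - 1)) ϖ, h9]
        ring
      · rw [top_entries hn0 (by omega) hpmn hcU i j hij, natCast_mul_apply,
          top_entries hn0 (by omega) hpmn hiter.inW i j hij, mul_zero]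
    rw [← h1]; abel
  refine ⟨[u ^ (p ^ (m - 3) * t)], ?_, ?_⟩
  · intro d hd
    rw [List.mem_singleton] at hd
    rw [hd]
    exact Subgroup.pow_mem _ huH'' _
  · simp only [List.map_cons, List.map_nil, List.prod_cons, List.prod_nil, mul_one]
    rw [hceq, hd0, ← pow_mul, ← pow_mul]
    congr 1
    have : p ^ (m - 2) = p ^ (m - 3) * p := by
      rw [← pow_succ]; congr 1; omega
    rw [this]
    ring

end Pool.Agent.Helper24Reg
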