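import Mathlib
import Pool.Agent.Helper24_Reg.RegMain

namespace Pool.Agent.Helper24Reg

open Finset Matrix Polynomial
open scoped commutatorElement

section expo

theorem two_pow_diff {i j k l : ℕ} (hij : i < j) (hkl : k < l) (h : 2 ^ j - 2 ^ i = 2 ^ l - 2 ^ k) : i = k ∧ j = l := by
  have aux : ∀ a b : ℕ, a < b → 2 ^ (b - 1) ≤ 2 ^ b - 2 ^ a ∧ 2 ^ b - 2 ^ a < 2 ^ b := by
    intro a b hab
    have h1 : (2 : ℕ) ^ a ≤ 2 ^ (b - 1) := Nat.pow_le_pow_right (by norm_num) (by omega)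
    have h2 : (2 : ℕ) ^ b = 2 * 2 ^ (b - 1) := by
      rw [← pow_succ']; congr 1; omega
    have h3 : 0 < (2 : ℕ) ^ a := pow_pos (by norm_num) a
    omega
  have h1 := aux i j hij
  have h2 := aux k l hkl
  have hjl : j = l := by
    rcases lt_trichotomy j l with h3 | h3 | h3
    · have : (2 : ℕ) ^ j ≤ 2 ^ (l - 1) := Nat.pow_le_pow_right (by norm_num) (by omega)
      omega
    · exact h3
    · have : (2 : ℕ) ^ l ≤ 2 ^ (j - 1) := Nat.pow_le_pow_right (by norm_num) (by omega)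
      omega
  subst hjl
  have h3 : (2 : ℕ) ^ i < 2 ^ j := Nat.pow_lt_pow_right (by norm_num) hij
  have h4 : (2 : ℕ) ^ k < 2 ^ j := Nat.pow_lt_pow_right (by norm_num) hkl
  have h5 : (2 : ℕ) ^ i = 2 ^ k := by omega
  exact ⟨Nat.pow_right_injective le_rfl h5, rfl⟩

/-- exponents `2^n + 2^j - 2^i` -/
def Ee (n i j : ℕ) : ℕ := 2 ^ n + 2 ^ j - 2 ^ i

theorem Ee_inj {n i j k l : ℕ} (hi : i < n) (hk : k < n) (hij : i ≠ j) (h : Ee n i j = Ee n k l) :
    i = k ∧ j = l := by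
  unfold Ee at h
  have p1 := Nat.one_le_two_pow (n := i)
  have p2 := Nat.one_le_two_pow (n := j)
  have p3 := Nat.one_le_two_pow (n := k)
  have p4 := Nat.one_le_two_pow (n := l)
  have h1 : (2 : ℕ) ^ i < 2 ^ n := Nat.pow_lt_pow_right (by norm_num) hi
  have h2 : (2 : ℕ) ^ k < 2 ^ n := Nat.pow_lt_pow_right (by norm_num) hk
  rcases lt_or_gt_of_ne hij with h3 | h3
  · have h4 : (2 : ℕ) ^ i < 2 ^ j := Nat.pow_lt_pow_right (by norm_num) h3
    rcases lt_trichotomy k l with h5 | h5 | h5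
    · have h6 : (2 : ℕ) ^ k < 2 ^ l := Nat.pow_lt_pow_right (by norm_num) h5
      exact two_pow_diff h3 h5 (by omega)
    · subst h5; omega
    · have h6 : (2 : ℕ) ^ l < 2 ^ k := Nat.pow_lt_pow_right (by norm_num) h5
      omega
  · have h4 : (2 : ℕ) ^ j < 2 ^ i := Nat.pow_lt_pow_right (by norm_num) h3
    rcases lt_trichotomy k l with h5 | h5 | h5
    · have h6 : (2 : ℕ) ^ k < 2 ^ l := Nat.pow_lt_pow_right (by norm_num) h5
      omega
    · subst h5; omega
    · have h6 : (2 : ℕ) ^ l < 2 ^ k := Nat.pow_lt_pow_right (by norm_num) h5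
      have := two_pow_diff h3 h5 (by omega)
      exact ⟨this.2, this.1⟩

/-- many distinct exponents -/
theorem exists_exponents (n p : ℕ) (hp2 : 2 ≤ p) (hpn : p + n ≤ n ^ 2 + 1) :
    ∃ (a b : Fin p → Fin n), Function.Injective (fun s => Ee n (a s) (b s)) := by
  classical
  rcases Nat.eq_zero_or_pos n with rfl | hn
  · simp at hpn; omega
  let S : Finset ℕ := (Finset.univ : Finset (Fin n × Fin n)).image (fun ij => Ee n ij.1 ij.2)
  have hcard : p ≤ S.card := by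
    have h1 : insert (2 ^ n) (((Finset.univ : Finset (Fin n)).offDiag).image (fun ij => Ee n ij.1 ij.2)) ⊆ S := by
      intro z hz
      rw [Finset.mem_insert] at hz
      rcases hz with rfl | hz
      · refine Finset.mem_image.2 ⟨(⟨0, hn⟩, ⟨0, hn⟩), Finset.mem_univ _, ?_⟩
        simp [Ee]
      · obtain ⟨ij, _, rfl⟩ := Finset.mem_image.1 hz
        exact Finset.mem_image.2 ⟨ij, Finset.mem_univ _, rfl⟩
    refine le_trans ?_ (Finset.card_le_card h1)
    rw [Finset.card_insert_of_notMem, Finset.card_image_of_injOn, Finset.offDiag_card, Finset.card_univ, Fintype.card_fin]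
    · have : n * n = n ^ 2 := (sq n).symm
      omega
    · rintro ⟨i, j⟩ hij ⟨k, l⟩ _ h
      simp only [Finset.coe_offDiag, Set.mem_offDiag] at hij
      obtain ⟨h3, h4⟩ := Ee_inj i.2 k.2 (fun h => hij.2.2 (Fin.ext h)) h
      rw [Prod.mk.injEq]
      exact ⟨Fin.ext h3, Fin.ext h4⟩
    · intro hcon
      obtain ⟨ij, hij, he⟩ := Finset.mem_image.1 hcon
      rw [Finset.mem_offDiag] at hij
      have h5 : Ee n ij.1 ij.2 = Ee n 0 0 := by rw [he]; simp [Ee]
      obtain ⟨h6, h7⟩ := Ee_inj ij.1.2 hn (fun h => hij.2.2 (Fin.ext h)) h5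
      exact hij.2.2 (Fin.ext (h6.trans h7.symm))
  obtain ⟨T, hTS, hT⟩ := Finset.exists_subset_card_eq hcard
  let e : Fin p ≃ T := (Finset.equivFinOfCardEq hT).symm
  have hch : ∀ s : Fin p, ∃ ij : Fin n × Fin n, Ee n ij.1 ij.2 = (e s : ℕ) := by
    intro s
    obtain ⟨ij, _, h⟩ := Finset.mem_image.1 (hTS (e s).2)
    exact ⟨ij, h⟩
  choose ij hij using hch
  refine ⟨fun s => (ij s).1, fun s => (ij s).2, fun s t hst => ?_⟩
  simp only [hij] at hst
  exact e.injective (Subtype.ext hst)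

end expo

section vand
variable {p m : ℕ} [hp : Fact p.Prime]

theorem isUnit_of_castHom_eq_one (hm : m ≠ 0) (a : ZMod (p ^ m))
    (h : ZMod.castHom (dvd_pow_self p hm) (ZMod p) a = 1) : IsUnit a := by
  have h1 : ((p : ℕ) : ZMod (p ^ m)) ∣ a - 1 := by
    rw [← castHom_eq_zero_iff hm, map_sub, h, map_one, sub_self]
  obtain ⟨b, hb⟩ := h1
  have h2 : a = 1 + ((p : ℕ) : ZMod (p ^ m)) * b := by rw [← hb]; ring
  rw [h2]
  apply IsNilpotent.isUnit_one_add
  refine ⟨m, ?_⟩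
  rw [mul_pow, cast_pow_eq_zero, zero_mul]

theorem poly_vand (hm : m ≠ 0) (r : ℕ) (t : Fin p → ZMod (p ^ m)) (ht : ∀ s, ((p : ℕ) : ZMod (p ^ m)) ∣ t s)
    (Q : (ZMod (p ^ m))[X]) (hQ : Q.map (ZMod.castHom (dvd_pow_self p hm) (ZMod p)) = X ^ (p - 1))
    (hval : ∀ s, ((p : ℕ) : ZMod (p ^ m)) ^ r ∣ Q.eval (t s)) :
    ((p : ℕ) : ZMod (p ^ m)) ^ r ∣ (Matrix.vandermonde t).det := by
  have hp0 := hp.out.pos
  have hnt : Nontrivial (ZMod (p ^ m)) := by
    have : Fact (1 < p ^ m) := ⟨Nat.one_lt_pow hm hp.out.one_lt⟩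
    exact ZMod.nontrivial _
  set f := ZMod.castHom (dvd_pow_self p hm) (ZMod p) with hf
  set f0 : (ZMod (p ^ m))[X] := ∏ s, (X - C (t s)) with hf0
  have hmon : f0.Monic := monic_prod_of_monic _ _ fun s _ => monic_X_sub_C _
  have hdeg : f0.natDegree = p := by
    rw [hf0, natDegree_prod_of_monic _ _ fun s _ => monic_X_sub_C _]
    simp
  have hroot : ∀ s, f0.eval (t s) = 0 := by
    intro s
    rw [hf0, eval_prod]
    exact Finset.prod_eq_zero (Finset.mem_univ s) (by simp)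
  set q := Q %ₘ f0 with hq
  have hqval : ∀ s, q.eval (t s) = Q.eval (t s) := by
    intro s
    have := congrArg (fun z => z.eval (t s)) (modByMonic_add_div Q f0)
    simp only [eval_add, eval_mul, hroot, zero_mul, add_zero] at this
    exact this
  have hqdeg : q.natDegree < p := by
    have h1 := natDegree_modByMonic_lt Q hmon (by
      intro h1
      rw [h1, natDegree_one] at hdeg
      have := hp.out.two_le
      omega)
    rwa [hdeg] at h1
  have hmapq : q.map f = X ^ (p - 1) := by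
    rw [hq, Polynomial.map_modByMonic _ hmon, hQ]
    have h1 : f0.map f = X ^ p := by
      rw [hf0, Polynomial.map_prod]
      have : ∀ s ∈ (Finset.univ : Finset (Fin p)), (X - C (t s)).map f = X := by
        intro s _
        rw [Polynomial.map_sub, map_X, map_C, (castHom_eq_zero_iff hm _).2 (ht s), C_0, sub_zero]
      rw [Finset.prod_congr rfl this]
      simp
    rw [h1, modByMonic_eq_self_iff (monic_X_pow p), degree_X_pow, degree_X_pow]
    exact_mod_cast Nat.sub_lt hp0 one_pos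
  have hcoef : f (q.coeff (p - 1)) = 1 := by
    rw [← coeff_map, hmapq, coeff_X_pow, if_pos rfl]
  have hu := isUnit_of_castHom_eq_one hm _ hcoef
  -- linear algebra
  let a : Fin p → ZMod (p ^ m) := fun l => q.coeff l
  have hVa : (Matrix.vandermonde t).mulVec a = fun s => q.eval (t s) := by
    funext s
    rw [Matrix.mulVec, dotProduct, Polynomial.eval_eq_sum_range' hqdeg, ← Fin.sum_univ_eq_sum_range]
    refine Finset.sum_congr rfl fun l _ => ?_
    rw [Matrix.vandermonde_apply, mul_comm]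
  have h2 : (Matrix.vandermonde t).adjugate.mulVec ((Matrix.vandermonde t).mulVec a) = (Matrix.vandermonde t).det • a := by
    rw [Matrix.mulVec_mulVec, Matrix.adjugate_mul, Matrix.smul_mulVec, Matrix.one_mulVec]
  have h3 := congrFun h2 ⟨p - 1, Nat.sub_lt hp0 one_pos⟩
  rw [hVa, Matrix.mulVec, dotProduct, Pi.smul_apply, smul_eq_mul] at h3
  have h4 : ((p : ℕ) : ZMod (p ^ m)) ^ r ∣ (Matrix.vandermonde t).det * a ⟨p - 1, Nat.sub_lt hp0 one_pos⟩ := by
    rw [← h3]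
    refine Finset.dvd_sum fun s _ => Dvd.dvd.mul_left ?_ _
    rw [hqval]
    exact hval s
  exact (IsUnit.dvd_mul_right hu).1 h4

end vand

section large
variable {R : Type*} [CommRing R]

/-- conjugation coefficients -/
def cij {n : ℕ} (u : Fin n → Rˣ) (i j : Fin n) : R := ((u i)⁻¹ : Rˣ) * (u j : R)

/-- matrices `τ_ij f(τ_ij)` with `τ_ij = c_ij - 1`. -/
def Mf {n : ℕ} (u : Fin n → Rˣ) (f : R[X]) : Matrix (Fin n) (Fin n) R :=
  fun i j => (cij u i j - 1) * f.eval (cij u i j - 1)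

theorem Mf_add {n : ℕ} (u : Fin n → Rˣ) (f g : R[X]) : Mf u (f + g) = Mf u f + Mf u g := by
  ext i j
  simp only [Mf, Matrix.add_apply, eval_add]
  ring

/-- the diagonal element -/
def dx {n : ℕ} (u : Fin n → Rˣ) : GL (Fin n) R :=
  ⟨Matrix.diagonal fun i => (u i : R), Matrix.diagonal fun i => (((u i)⁻¹ : Rˣ) : R),
    by rw [Matrix.diagonal_mul_diagonal]; simp, by rw [Matrix.diagonal_mul_diagonal]; simp⟩

/-- entrywise `c_ij a_ij` -/
def cA {n : ℕ} (u : Fin n → Rˣ) (A : Matrix (Fin n) (Fin n) R) : Matrix (Fin n) (Fin n) R :=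
  fun i j => cij u i j * A i j

/-- entrywise `(1 + c_ij + ... + c_ij^(t-1)) a_ij` -/
def sA {n : ℕ} (u : Fin n → Rˣ) (t : ℕ) (A : Matrix (Fin n) (Fin n) R) : Matrix (Fin n) (Fin n) R :=
  fun i j => (∑ k ∈ range t, cij u i j ^ k) * A i j

theorem dx_conj {n : ℕ} (u : Fin n → Rˣ) (A : Matrix (Fin n) (Fin n) R) :
    ((dx u)⁻¹).1 * (A * (dx u).1) = cA u A := by
  ext i j
  change (Matrix.diagonal (fun i => (((u i)⁻¹ : Rˣ) : R)) * (A * Matrix.diagonal (fun i => (u i : R)))) i j = _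
  rw [Matrix.diagonal_mul, Matrix.mul_diagonal, cA, cij]
  ring

/-- `1 + qA` as a unit when `q^2 = 0`. -/
def oneq {n : ℕ} (q : R) (hq : q * q = 0) (A : Matrix (Fin n) (Fin n) R) : GL (Fin n) R :=
  ⟨1 + q • A, 1 - q • A, by
    rw [mul_sub, add_mul, add_mul, smul_mul_smul_comm, hq, zero_smul, mul_one, mul_one, one_mul]; abel, by
    rw [mul_add, sub_mul, sub_mul, smul_mul_smul_comm, hq, zero_smul, mul_one, mul_one, one_mul]; abel⟩

theorem oneq_mul {n : ℕ} (q : R) (hq : q * q = 0) (A C : Matrix (Fin n) (Fin n) R) :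
    oneq q hq A * oneq q hq C = oneq q hq (A + C) := by
  apply Units.ext
  change (1 + q • A) * (1 + q • C) = 1 + q • (A + C)
  rw [mul_add, add_mul, add_mul, smul_mul_smul_comm, hq, zero_smul, smul_add, mul_one, mul_one, one_mul]
  abel

theorem oneq_pow {n : ℕ} (q : R) (hq : q * q = 0) (A : Matrix (Fin n) (Fin n) R) (N : ℕ) :
    oneq q hq A ^ N = oneq q hq ((N : R) • A) := by
  induction N with
  | zero =>
    rw [pow_zero, Nat.cast_zero, zero_smul]
    apply Units.ext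
    change (1 : Matrix (Fin n) (Fin n) R) = 1 + q • 0
    rw [smul_zero, add_zero]
  | succ N ih =>
    rw [pow_succ, ih, oneq_mul]
    congr 1
    push_cast
    rw [add_smul, one_smul]

theorem oneq_inv {n : ℕ} (q : R) (hq : q * q = 0) (A : Matrix (Fin n) (Fin n) R) :
    (oneq q hq A)⁻¹ = oneq q hq (-A) := by
  apply Units.ext
  change 1 - q • A = 1 + q • (-A)
  rw [smul_neg, sub_eq_add_neg]

theorem oneq_conj {n : ℕ} (q : R) (hq : q * q = 0) (u : Fin n → Rˣ) (A : Matrix (Fin n) (Fin n) R) :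
    (dx u)⁻¹ * oneq q hq A * dx u = oneq q hq (cA u A) := by
  apply Units.ext
  rw [Units.val_mul, Units.val_mul]
  change ((dx u)⁻¹).1 * (1 + q • A) * (dx u).1 = 1 + q • (cA u A)
  rw [← dx_conj u A, mul_add, mul_one, add_mul, Units.inv_mul, Matrix.mul_smul, Matrix.smul_mul, mul_assoc]

/-- the subgroup `K` -/
def KK {n : ℕ} (q : R) (hq : q * q = 0) (u : Fin n → Rˣ) : Subgroup (GL (Fin n) R) where
  carrier := {h | ∃ f : R[X], h = oneq q hq (Mf u f)}
  mul_mem' := by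
    rintro _ _ ⟨f, rfl⟩ ⟨g, rfl⟩
    exact ⟨f + g, by rw [oneq_mul, Mf_add]⟩
  one_mem' := ⟨0, by
    apply Units.ext
    change (1 : Matrix (Fin n) (Fin n) R) = 1 + q • (Mf u 0)
    have : Mf u (0 : R[X]) = 0 := by ext i j; simp [Mf]
    rw [this, smul_zero, add_zero]⟩
  inv_mem' := by
    rintro _ ⟨f, rfl⟩
    refine ⟨-f, ?_⟩
    rw [oneq_inv]
    congr 1
    ext i j
    simp [Mf]

theorem prod_pow_KK {n : ℕ} (p : ℕ) (q : R) (hq : q * q = 0) (u : Fin n → Rˣ) (l : List (GL (Fin n) R))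
    (hl : ∀ c ∈ l, c ∈ KK q hq u) : ∃ f : R[X], (l.map (fun c => c ^ p)).prod = oneq q hq ((p : R) • Mf u f) := by
  induction l with
  | nil =>
    refine ⟨0, ?_⟩
    apply Units.ext
    change (1 : Matrix (Fin n) (Fin n) R) = 1 + q • ((p : R) • Mf u 0)
    have : Mf u (0 : R[X]) = 0 := by ext i j; simp [Mf]
    rw [this, smul_zero, smul_zero, add_zero]
  | cons c l ih =>
    obtain ⟨f, hf⟩ := ih fun c hc => hl c (List.mem_cons_of_mem _ hc)
    obtain ⟨g, rfl⟩ := hl c List.mem_cons_self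
    refine ⟨g + f, ?_⟩
    rw [List.map_cons, List.prod_cons, hf, oneq_pow, oneq_mul, Mf_add, smul_add]

theorem dx_mul_pow {n : ℕ} (q : R) (hq : q * q = 0) (u : Fin n → Rˣ) (A : Matrix (Fin n) (Fin n) R) (t : ℕ) :
    (dx u * oneq q hq A) ^ t = dx u ^ t * oneq q hq (sA u t A) := by
  induction t with
  | zero =>
    rw [pow_zero, pow_zero, one_mul]
    apply Units.ext
    change (1 : Matrix (Fin n) (Fin n) R) = 1 + q • (sA u 0 A)
    have : (sA u 0 A : Matrix (Fin n) (Fin n) R) = 0 := by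
      ext i j; simp [sA]
    rw [this, smul_zero, add_zero]
  | succ t ih =>
    rw [pow_succ, ih]
    have e : dx u ^ t * oneq q hq (sA u t A) * (dx u * oneq q hq A) =
        dx u ^ (t + 1) * (((dx u)⁻¹ * oneq q hq (sA u t A) * dx u) * oneq q hq A) := by
      rw [pow_succ]; group
    rw [e, oneq_conj, oneq_mul]
    congr 2
    ext i j
    simp only [Matrix.add_apply, sA, cA]
    rw [Finset.sum_range_succ']
    simp only [pow_succ, pow_zero, ← Finset.sum_mul]
    ring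

/-- the all ones matrix -/
def onesM (n : ℕ) (R : Type*) [CommRing R] : Matrix (Fin n) (Fin n) R := fun _ _ => 1

theorem onesM_apply (n : ℕ) (R : Type*) [CommRing R] (i j : Fin n) : onesM n R i j = 1 := rfl

end large

/-- the unit `1 + p` of `ℤ/p^m` -/
theorem exists_unit_one_add (p m : ℕ) : ∃ g0 : (ZMod (p ^ m))ˣ, (g0 : ZMod (p ^ m)) = 1 + (p : ZMod (p ^ m)) := by
  have : IsUnit (1 + ((p : ℕ) : ZMod (p ^ m))) := by
    apply IsNilpotent.isUnit_one_add
    refine ⟨m, ?_⟩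
    rw [← Nat.cast_pow, ZMod.natCast_self]
  exact ⟨this.unit, rfl⟩

/-- **Irregularity for large `m`.** If `p ≤ n^2 - n + 1` then `P_n(ℤ/p^m)` is irregular for all large `m`. -/
theorem eventually_irregular (p n : ℕ) [hp : Fact p.Prime] (hpn : p + n ≤ n ^ 2 + 1) :
    ∃ M : ℕ, ∀ m ≥ M, ¬ IsRegular p (P p m n) := by
  obtain ⟨a, b, hab⟩ := exists_exponents n p hp.out.two_le hpn
  -- the integer Vandermonde determinant
  set W : ℤ := ∏ s : Fin p, ∏ s' ∈ Finset.Ioi s, (((1 + p : ℤ)) ^ (Ee n (a s') (b s')) - (1 + p : ℤ) ^ (Ee n (a s) (b s))) with hW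
  have hW0 : W ≠ 0 := by
    rw [hW]
    refine Finset.prod_ne_zero_iff.2 fun s _ => Finset.prod_ne_zero_iff.2 fun s' hs' => ?_
    rw [sub_ne_zero]
    intro h
    have h1 : Ee n (a s') (b s') = Ee n (a s) (b s) := by
      have hinj : ∀ e e' : ℕ, (1 + p : ℤ) ^ e = (1 + p : ℤ) ^ e' → e = e' := by
        intro e e' he
        have h2 : ((1 + p) ^ e : ℕ) = (1 + p) ^ e' := by exact_mod_cast he
        exact Nat.pow_right_injective (by have := hp.out.two_le; omega) h2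
      exact hinj _ _ h
    have h2 := hab h1
    rw [Finset.mem_Ioi] at hs'
    exact absurd h2 (ne_of_gt hs')
  obtain ⟨r, hr1, hr⟩ : ∃ r : ℕ, 1 ≤ r ∧ ¬ ((p : ℤ) ^ r ∣ W) := by
    refine ⟨W.natAbs + 1, by omega, fun h => ?_⟩
    have h1 := Int.natAbs_dvd_natAbs.2 h
    rw [Int.natAbs_pow, Int.natAbs_natCast] at h1
    have h2 := Nat.le_of_dvd (Int.natAbs_pos.2 hW0) h1
    have h3 : W.natAbs + 1 < p ^ (W.natAbs + 1) := Nat.lt_pow_self hp.out.one_lt
    omega
  refine ⟨2 * r, fun m hm hreg => ?_⟩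
  have hm0 : m ≠ 0 := by omega
  have hne : NeZero (p ^ m) := ⟨pow_ne_zero _ hp.out.ne_zero⟩
  have hfin : Finite (GL (Fin n) (ZMod (p ^ m))) := by
    unfold Matrix.GeneralLinearGroup
    infer_instance
  set ϖ : ZMod (p ^ m) := ((p : ℕ) : ZMod (p ^ m)) with hϖ
  have hϖm : ϖ ^ m = 0 := cast_pow_eq_zero
  set q : ZMod (p ^ m) := ϖ ^ (m - r) with hqdef
  have hq : q * q = 0 := by
    rw [hqdef, ← pow_add]
    obtain ⟨c, hc⟩ : ∃ c, m - r + (m - r) = m + c := ⟨m - 2 * r, by omega⟩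
    rw [hc, pow_add, hϖm, zero_mul]
  obtain ⟨g0, hg0⟩ := exists_unit_one_add p m
  let u : Fin n → (ZMod (p ^ m))ˣ := fun i => g0 ^ (2 ^ i.val)
  obtain ⟨V, hV⟩ : ∃ V : Matrix (Fin n) (Fin n) (ZMod (p ^ m)), V = onesM n (ZMod (p ^ m)) := ⟨_, rfl⟩
  have hVij : ∀ i j, V i j = 1 := fun i j => by rw [hV, onesM_apply]
  have hϖu : ∀ N : ℕ, ϖ ∣ ((g0 ^ N : (ZMod (p ^ m))ˣ) : ZMod (p ^ m)) - 1 := by
    intro N
    rw [Units.val_pow_eq_pow_val, hg0]
    have := sub_dvd_pow_sub_pow (1 + ϖ) 1 N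
    rw [one_pow, add_sub_cancel_left] at this
    exact this
  have hϖc : ∀ i j, ϖ ∣ cij u i j - 1 := by
    intro i j
    have h1 := hϖu (2 ^ j.val)
    have h2 := hϖu (2 ^ i.val)
    have h3 : cij u i j - 1 = (((u i)⁻¹ : (ZMod (p ^ m))ˣ) : ZMod (p ^ m)) * (((u j : ZMod (p ^ m)) - 1) - ((u i : ZMod (p ^ m)) - 1)) := by
      rw [cij, mul_sub, mul_sub, mul_sub, Units.inv_mul]; ring
    rw [h3]
    exact Dvd.dvd.mul_left (dvd_sub h1 h2) _
  have hxP : dx u ∈ P p m n := by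
    rw [mem_P]
    refine ⟨fun i => ?_, fun i j hij => ?_⟩
    · change ϖ ∣ (Matrix.diagonal fun i => (u i : ZMod (p ^ m))) i i - 1
      rw [Matrix.diagonal_apply_eq]
      exact hϖu _
    · change ϖ ∣ (Matrix.diagonal fun i => (u i : ZMod (p ^ m))) i j
      rw [Matrix.diagonal_apply_ne _ (ne_of_gt hij)]
      exact dvd_zero _
  have hϖq : ϖ ∣ q := dvd_pow_self ϖ (by omega)
  have hyP : oneq q hq V ∈ P p m n := by
    rw [mem_P]
    refine ⟨fun i => ?_, fun i j hij => ?_⟩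
    · change ϖ ∣ (1 + q • V) i i - 1
      rw [Matrix.add_apply, Matrix.one_apply_eq, add_sub_cancel_left, Matrix.smul_apply, smul_eq_mul]
      exact Dvd.dvd.mul_right hϖq _
    · change ϖ ∣ (1 + q • V) i j
      rw [Matrix.add_apply, Matrix.one_apply_ne (ne_of_gt hij), zero_add, Matrix.smul_apply, smul_eq_mul]
      exact Dvd.dvd.mul_right hϖq _
  have hpair := (hreg ⟨dx u, hxP⟩ ⟨oneq q hq V, hyP⟩).map (P p m n).subtype
  change RegPair p (dx u) (oneq q hq V) at hpair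
  obtain ⟨l, hl, he⟩ := hpair
  -- bounding the derived subgroup
  have hKx : ∀ k ∈ KK q hq u, (dx u)⁻¹ * k * dx u ∈ KK q hq u := by
    rintro _ ⟨f, rfl⟩
    refine ⟨(1 + X) * f, ?_⟩
    rw [oneq_conj]
    congr 1
    ext i j
    simp only [cA, Mf, eval_mul, eval_add, eval_one, eval_X]
    ring
  have hKy : ∀ (A : Matrix (Fin n) (Fin n) (ZMod (p ^ m))), ∀ k ∈ KK q hq u, oneq q hq A * k * (oneq q hq A)⁻¹ ∈ KK q hq u := by
    rintro A _ ⟨f, rfl⟩
    refine ⟨f, ?_⟩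
    rw [oneq_inv, oneq_mul, oneq_mul]
    congr 1
    abel
  have hKy' : ∀ k ∈ KK q hq u, (oneq q hq V)⁻¹ * k * oneq q hq V ∈ KK q hq u := by
    intro k hk
    have := hKy (-V) k hk
    rwa [← oneq_inv, inv_inv] at this
  have hKx' := conj_mem_of_finite _ (dx u) hKx
  have hcomm0 : (oneq q hq V)⁻¹ * ((dx u)⁻¹ * oneq q hq V * dx u) ∈ KK q hq u := by
    refine ⟨1, ?_⟩
    rw [oneq_conj, oneq_inv, oneq_mul]
    congr 1
    ext i j
    simp only [Mf, cA, hVij, Matrix.add_apply, Matrix.neg_apply, eval_one]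
    ring
  have hcomm : ⁅dx u, oneq q hq V⁆ ∈ KK q hq u := by
    have h4 := (KK q hq u).inv_mem (hKx' _ (hKy V _ hcomm0))
    have e : (dx u * (oneq q hq V * ((oneq q hq V)⁻¹ * ((dx u)⁻¹ * oneq q hq V * dx u)) * (oneq q hq V)⁻¹) * (dx u)⁻¹)⁻¹ =
        ⁅dx u, oneq q hq V⁆ := by
      rw [commutatorElement_def]; group
    rw [e] at h4
    exact h4
  have hle := commutator_closure_le (KK q hq u) (dx u) (oneq q hq V) hKx hKx' hKy' (hKy V) hcomm
  obtain ⟨f, hf⟩ := prod_pow_KK p q hq u l (fun c hc => hle (hl c hc))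
  rw [hf, dx_mul_pow, oneq_pow, mul_assoc, oneq_mul, mul_right_inj] at he
  -- entries
  have hent : ∀ i j, ϖ ^ r ∣ (∑ k ∈ range p, cij u i j ^ k) - (ϖ + ϖ * ((cij u i j - 1) * f.eval (cij u i j - 1))) := by
    intro i j
    have h1 : (1 + q • (sA u p V) : Matrix (Fin n) (Fin n) (ZMod (p ^ m))) i j =
      (1 + q • (((p : ℕ) : ZMod (p ^ m)) • V + ((p : ℕ) : ZMod (p ^ m)) • Mf u f) : Matrix (Fin n) (Fin n) (ZMod (p ^ m))) i j :=
        congrFun (congrFun (congrArg (fun w : GL (Fin n) (ZMod (p ^ m)) => w.1) he) i) j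
    simp only [Matrix.add_apply, Matrix.smul_apply, smul_eq_mul, add_right_inj, hVij, mul_one, Mf, sA] at h1
    have h2 : q * ((∑ k ∈ range p, cij u i j ^ k) - (ϖ + ϖ * ((cij u i j - 1) * f.eval (cij u i j - 1)))) = 0 := by
      rw [mul_sub, h1, sub_self]
    generalize (∑ k ∈ range p, cij u i j ^ k) - (ϖ + ϖ * ((cij u i j - 1) * f.eval (cij u i j - 1))) = z at h2 ⊢
    obtain ⟨z', hz'⟩ : ∃ z' : ℕ, (z' : ZMod (p ^ m)) = z := ⟨z.val, ZMod.natCast_zmod_val _⟩
    rw [← hz', hqdef, hϖ, ← Nat.cast_pow, ← Nat.cast_mul, ZMod.natCast_eq_zero_iff] at h2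
    have h3 : p ^ m = p ^ (m - r) * p ^ r := by rw [← pow_add]; congr 1; omega
    rw [h3] at h2
    have h4 : p ^ r ∣ z' := Nat.dvd_of_mul_dvd_mul_left (pow_pos hp.out.pos _) h2
    obtain ⟨w, rfl⟩ := h4
    rw [← hz', hϖ, ← Nat.cast_pow, Nat.cast_mul]
    exact dvd_mul_right _ _
  -- the polynomial
  obtain ⟨h, hh⟩ : ∃ h : (ZMod (p ^ m))[X], ∀ τ : ZMod (p ^ m), (∑ k ∈ range p, (1 + τ) ^ k) = ϖ + ϖ * (τ * h.eval τ) + τ ^ (p - 1) := by
    have hcc : ∀ t ∈ Ico 1 (p - 1), ∃ c : ℕ, p.choose (t + 1) = p * c := by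
      intro t ht
      rw [Finset.mem_Ico] at ht
      exact hp.out.dvd_choose_self (by omega) (by omega)
    choose! c hc using hcc
    refine ⟨∑ t ∈ Ico 1 (p - 1), C (c t : ZMod (p ^ m)) * X ^ (t - 1), fun τ => ?_⟩
    have h1 := geom_sum_conj (1 + τ) p
    rw [add_sub_cancel_left] at h1
    rw [h1]
    have hp2 := hp.out.two_le
    obtain ⟨p', hp'⟩ : ∃ p', p = p' + 1 := ⟨p - 1, by omega⟩
    have h2 : ∑ k ∈ range p, (p.choose (k + 1) : ZMod (p ^ m)) * τ ^ k =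
        (∑ k ∈ range (p - 1), (p.choose (k + 1) : ZMod (p ^ m)) * τ ^ k) + τ ^ (p - 1) := by
      have : range p = range (p - 1 + 1) := by congr 1; omega
      rw [this, Finset.sum_range_succ, Nat.sub_add_cancel (by omega), Nat.choose_self, Nat.cast_one, one_mul]
    rw [h2, add_left_inj, Finset.range_eq_Ico, Finset.sum_eq_sum_Ico_succ_bot (by omega)]
    congr 1
    · rw [zero_add, Nat.choose_one_right, pow_zero, mul_one]
    · rw [eval_finsetSum, Finset.mul_sum, Finset.mul_sum]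
      refine Finset.sum_congr rfl fun t ht => ?_
      rw [hc t ht]
      rw [Finset.mem_Ico] at ht
      obtain ⟨t', rfl⟩ : ∃ t', t = t' + 1 := ⟨t - 1, by omega⟩
      simp only [eval_mul, eval_C, eval_pow, eval_X, Nat.add_sub_cancel, Nat.cast_mul]
      ring
  set Q : (ZMod (p ^ m))[X] := X ^ (p - 1) + C ϖ * (X * (h - f)) with hQdef
  have hQmap : Q.map (ZMod.castHom (dvd_pow_self p hm0) (ZMod p)) = X ^ (p - 1) := by
    rw [hQdef, Polynomial.map_add, Polynomial.map_mul, map_C, Polynomial.map_pow, map_X,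
      (castHom_eq_zero_iff hm0 ϖ).2 (dvd_refl _), C_0, zero_mul, add_zero]
  have hQval : ∀ s : Fin p, ϖ ^ r ∣ Q.eval (cij u (a s) (b s) - 1) := by
    intro s
    have h1 := hent (a s) (b s)
    have h2 := hh (cij u (a s) (b s) - 1)
    rw [add_sub_cancel] at h2
    rw [h2] at h1
    have h3 : Q.eval (cij u (a s) (b s) - 1) = ϖ + ϖ * ((cij u (a s) (b s) - 1) * h.eval (cij u (a s) (b s) - 1)) +
        (cij u (a s) (b s) - 1) ^ (p - 1) - (ϖ + ϖ * ((cij u (a s) (b s) - 1) * f.eval (cij u (a s) (b s) - 1))) := by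
      simp only [hQdef, eval_add, eval_pow, eval_X, eval_mul, eval_C, eval_sub]
      ring
    rw [h3]; exact h1
  have hdet := poly_vand hm0 r (fun s => cij u (a s) (b s) - 1) (fun s => hϖc _ _) Q hQmap hQval
  rw [Matrix.det_vandermonde] at hdet
  -- compare with W
  obtain ⟨G, hG⟩ : ∃ G : ZMod (p ^ m), G = ((g0 ^ (2 ^ n) : (ZMod (p ^ m))ˣ) : ZMod (p ^ m)) := ⟨_, rfl⟩
  have hEc : ∀ i j : Fin n, cij u i j * G = (1 + ϖ) ^ (Ee n i j) := by
    intro i j
    rw [hG]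
    have h1 : (u i)⁻¹ * u j * g0 ^ (2 ^ n) = g0 ^ (Ee n i j) := by
      have h2 : Ee n i j + 2 ^ i.val = 2 ^ j.val + 2 ^ n := by
        unfold Ee
        have : (2 : ℕ) ^ i.val ≤ 2 ^ n := Nat.pow_le_pow_right (by norm_num) i.2.le
        have p2 := Nat.one_le_two_pow (n := j.val)
        omega
      have h3 : g0 ^ (Ee n i j) * u i = u j * g0 ^ (2 ^ n) := by
        change g0 ^ (Ee n i j) * g0 ^ (2 ^ i.val) = g0 ^ (2 ^ j.val) * g0 ^ (2 ^ n)
        rw [← pow_add, ← pow_add, h2]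
      rw [mul_assoc, ← h3, mul_comm (g0 ^ Ee n i j), inv_mul_cancel_left]
    have h4 := congrArg Units.val h1
    rw [Units.val_mul, Units.val_mul, Units.val_pow_eq_pow_val g0 (Ee n i j), hg0] at h4
    exact h4
  have hWcast : (W : ZMod (p ^ m)) = (∏ s : Fin p, ∏ s' ∈ Finset.Ioi s, (((cij u (a s') (b s') - 1) - (cij u (a s) (b s) - 1)) *
      G)) := by
    rw [hW]
    push_cast
    refine Finset.prod_congr rfl fun s _ => Finset.prod_congr rfl fun s' _ => ?_
    have e1 := hEc (a s') (b s')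
    have e2 := hEc (a s) (b s)
    have e3 : ((cij u (a s') (b s') - 1) - (cij u (a s) (b s) - 1)) * G =
      cij u (a s') (b s') * G - cij u (a s) (b s) * G := by ring
    rw [e3, e1, e2]
  have hWdvd : ϖ ^ r ∣ (W : ZMod (p ^ m)) := by
    rw [hWcast]
    simp only [Finset.prod_mul_distrib]
    exact Dvd.dvd.mul_right hdet _
  apply hr
  obtain ⟨z, hz⟩ := hWdvd
  obtain ⟨z', hz'⟩ : ∃ z' : ℕ, (z' : ZMod (p ^ m)) = z := ⟨z.val, ZMod.natCast_zmod_val _⟩
  rw [← hz'] at hz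
  have h5 : ((W - (p : ℤ) ^ r * z' : ℤ) : ZMod (p ^ m)) = 0 := by
    push_cast
    rw [hz]
    exact sub_self _
  rw [ZMod.intCast_zmod_eq_zero_iff_dvd] at h5
  have h6 : (p : ℤ) ^ r ∣ W - (p : ℤ) ^ r * z' := by
    refine dvd_trans ?_ h5
    push_cast
    exact pow_dvd_pow _ (by omega)
  have h7 := dvd_add h6 (dvd_mul_right ((p : ℤ) ^ r) (z' : ℤ))
  rwa [sub_add_cancel] at h7

end Pool.Agent.Helper24Reg
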